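import Mathlib

/-!
# Checker for the certificate: programs

A literal is a number `2 v` (variable `v` true) or `2 v + 1` (variable `v` false).  A clause is a
bit mask of literals.  All programs are written with recursors, so that the kernel evaluates them
quickly.
-/

namespace Pool.Agent.Lib.QTri

/-- Binary trees of numbers, indexed with the lowest bit first. -/
inductive BT where
  | l : ℕ → BT
  | n : BT → BT → BT

/-- Look up an entry. -/
noncomputable def BT.get (t : BT) : ℕ → ℕ :=
  BT.rec (motive := fun _ => ℕ → ℕ) (fun v _ => v)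
    (fun _ _ ga gb i => cond (Nat.beq (Nat.land i 1) 0) (ga (Nat.shiftRight i 1))
      (gb (Nat.shiftRight i 1))) t

/-- The mask of a packed list of literals (`12` bits each, lowest first, ended by `0`). -/
noncomputable def mk (fuel : ℕ) : ℕ → ℕ :=
  Nat.rec (motive := fun _ => ℕ → ℕ) (fun _ => 0)
    (fun _ ih p => cond (Nat.beq p 0) 0
      (Nat.lor (Nat.shiftLeft 1 (Nat.land p 4095)) (ih (Nat.shiftRight p 12)))) fuel

/-- Unpack a list of numbers with `b` bits each, ended by `0`. -/
noncomputable def unp (b fuel : ℕ) : ℕ → List ℕ :=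
  Nat.rec (motive := fun _ => ℕ → List ℕ) (fun _ => [])
    (fun _ ih p => cond (Nat.beq p 0) []
      (Nat.land p (Nat.sub (Nat.shiftLeft 1 b) 1) :: ih (Nat.shiftRight p b))) fuel

/-- The mask of the positive literals of three variables packed with `11` bits each. -/
noncomputable def optMask (q : ℕ) : ℕ :=
  Nat.lor (Nat.shiftLeft 1 (Nat.mul 2 (Nat.land q 2047)))
    (Nat.lor (Nat.shiftLeft 1 (Nat.mul 2 (Nat.land (Nat.shiftRight q 11) 2047)))
      (Nat.shiftLeft 1 (Nat.mul 2 (Nat.land (Nat.shiftRight q 22) 2047))))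

/-- Options of a fibre of degree three (a list of packed options) that are still possible: the
result is `0` if there is none, the mask of the option if there is exactly one, `1` otherwise. -/
noncomputable def alive (F : ℕ) (L : List ℕ) : ℕ → ℕ :=
  List.rec (motive := fun _ => ℕ → ℕ) (fun acc => acc)
    (fun o _ ih acc => cond (Nat.beq (Nat.land (optMask o) F) 0)
      (cond (Nat.beq acc 0) (ih (optMask o)) 1) (ih acc)) L

/-- The mask of the positive literals of the fibre of degree two coded by `s + 2048 k`
(variables `s, …, s + k - 1`). -/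
noncomputable def fibMask (c : ℕ) : ℕ :=
  Nat.shiftLeft (Nat.div (Nat.sub (Nat.shiftLeft 1 (Nat.mul 2 (Nat.shiftRight c 11))) 1) 3)
    (Nat.mul 2 (Nat.land c 2047))

/-- The mask of all positive literals. -/
def evenMask : ℕ := 0x555555555555555555555555555555555555555555555555555555555555555555555555555555555555555555555555555555555555555555555555555555555555555555555555555555555555555555555555555555555555555555555555555555555555555555555555555555555555555555555555555555555555555555555555555555555555555555555555555555555555555555555555555555555555555555555555555555555555555555555555555555555555555555555555555555555555555555555555555555555555555555555555555555555555555555555555555555555555555555555555555555555555555555555555555555555555555555555555555555555555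

/-- The mask of all negative literals. -/
def oddMask : ℕ := 0xAAAAAAAAAAAAAAAAAAAAAAAAAAAAAAAAAAAAAAAAAAAAAAAAAAAAAAAAAAAAAAAAAAAAAAAAAAAAAAAAAAAAAAAAAAAAAAAAAAAAAAAAAAAAAAAAAAAAAAAAAAAAAAAAAAAAAAAAAAAAAAAAAAAAAAAAAAAAAAAAAAAAAAAAAAAAAAAAAAAAAAAAAAAAAAAAAAAAAAAAAAAAAAAAAAAAAAAAAAAAAAAAAAAAAAAAAAAAAAAAAAAAAAAAAAAAAAAAAAAAAAAAAAAAAAAAAAAAAAAAAAAAAAAAAAAAAAAAAAAAAAAAAAAAAAAAAAAAAAAAAAAAAAAAAAAAAAAAAAAAAAAAAAAAAAAAAAAAAAAAAAAAAAAAAAAAAAAAAAAAAAAAAAAAAAAAAAAAAAAAAAAAAAAAAAAAAAAAAAAAAAAAAAAAAAAAAAAAAAAAAAAAAAAAAAAAAAAAAAAAAAAAAAAAAAAAAAAAAAAAAAAAAAAAAAAAAAAAAAAAAAAAAAAAAAAAAAAAAAAAAAAAAAAAAAAAAAAAAAAA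

/-- Clause step: `R` is the mask of the literals of a true clause that are not falsified by `F`. -/
noncomputable def stepC (ih : ℕ → ℕ → Bool) (hs F R : ℕ) : Bool :=
  cond (Nat.beq R 0) true
    (cond (Nat.beq (Nat.land R (Nat.sub R 1)) 0)
      (cond (Nat.beq (Nat.land R evenMask) 0)
        (cond (Nat.beq (Nat.land R oddMask) 0) false (ih hs (Nat.lor F (Nat.shiftRight R 1))))
        (ih hs (Nat.lor F (Nat.shiftLeft R 1)))) false)

/-- Fibre step: `A` is the result of `alive`. -/
noncomputable def stepF (ih : ℕ → ℕ → Bool) (hs F A : ℕ) : Bool :=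
  cond (Nat.beq A 0) true
    (cond (Nat.beq A 1) false (ih hs (Nat.lor F (Nat.shiftLeft A 1))))

/-- Step using that at most one variable of the fibre `G` is true, and that `v` is true. -/
noncomputable def stepA (ih : ℕ → ℕ → Bool) (hs F G v : ℕ) : Bool :=
  cond (Nat.beq (Nat.land (Nat.land (Nat.shiftRight F (Nat.add (Nat.mul 2 v) 1))
      (Nat.shiftRight G (Nat.mul 2 v))) 1) 0) false
    (ih hs (Nat.lor F (Nat.xor G (Nat.shiftLeft 1 (Nat.mul 2 v)))))

/-- Run the hints: `k` bounds the clauses that may be used, `h` is the packed list of hints, `F`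
the mask of the falsified literals. -/
noncomputable def run (db f2 f3 : BT) (k : ℕ) (fuel : ℕ) : ℕ → ℕ → Bool :=
  Nat.rec (motive := fun _ => ℕ → ℕ → Bool) (fun _ _ => false)
    (fun _ ih h F =>
      cond (Nat.beq (Nat.land h 1) 0)
        (cond (Nat.beq (Nat.land h 2) 0)
          -- clause
          (cond (Nat.ble k (Nat.land (Nat.shiftRight h 2) 16383)) false
            (stepC ih (Nat.shiftRight h 16) F
              (Nat.xor (mk 100 (db.get (Nat.land (Nat.shiftRight h 2) 16383)))
                (Nat.land (mk 100 (db.get (Nat.land (Nat.shiftRight h 2) 16383))) F))))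
          -- at most one in a fibre of degree two
          (stepA ih (Nat.shiftRight h 16) F
            (fibMask (f2.get (Nat.land (Nat.shiftRight h 2) 16383)))
            (Nat.land (Nat.shiftRight h 2) 16383)))
        (cond (Nat.beq (Nat.land h 2) 0)
          (stepF ih (Nat.shiftRight h 16) F
            (alive F (unp 33 100 (f3.get (Nat.land (Nat.shiftRight h 2) 16383))) 0))
          (stepC ih (Nat.shiftRight h 16) F
            (Nat.xor (fibMask (f2.get (Nat.land (Nat.shiftRight h 2) 16383)))
              (Nat.land (fibMask (f2.get (Nat.land (Nat.shiftRight h 2) 16383))) F)))))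
    fuel

/-- `x` is an element of the list. -/
noncomputable def elem (x : ℕ) (L : List ℕ) : Bool :=
  List.rec (motive := fun _ => Bool) false (fun y _ ih => cond (Nat.beq x y) true ih) L

/-- Remove the first occurrence of `x`; the Boolean says whether there was one. -/
noncomputable def rem (x : ℕ) (L : List ℕ) : Bool × List ℕ :=
  List.rec (motive := fun _ => Bool × List ℕ) (false, [])
    (fun y L ih => cond (Nat.beq x y) (true, L) (ih.1, y :: ih.2)) L

/-- The two lists are permutations of each other. -/
noncomputable def perm (L : List ℕ) : List ℕ → Bool :=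
  List.rec (motive := fun _ => List ℕ → Bool) (fun M => List.rec true (fun _ _ _ => false) M)
    (fun x _ ih M => cond (rem x M).1 (ih (rem x M).2) false) L

/-- The leg `p` has only `a` in both masks. -/
noncomputable def dfl (p a b : ℕ) : Bool :=
  cond (Nat.beq (Nat.land (Nat.shiftRight a (Nat.mul 2 p)) 3) 1)
    (Nat.beq (Nat.land (Nat.shiftRight b (Nat.mul 2 p)) 3) 1) false

/-- Move the leg `p`, which has only `a`, to the top. -/
noncomputable def mvt (p m : ℕ) : ℕ :=
  Nat.add (Nat.add (Nat.mod m (Nat.pow 4 p))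
    (Nat.mul (Nat.div m (Nat.pow 4 (Nat.add p 1))) (Nat.pow 4 p))) 64

/-- Code of the canonical form, one step. -/
noncomputable def cstep (p c : ℕ) : ℕ :=
  cond (dfl p (Nat.shiftRight c 8) (Nat.land c 255))
    (Nat.add (Nat.shiftLeft (mvt p (Nat.shiftRight c 8)) 8) (mvt p (Nat.land c 255))) c

/-- Code of the canonical form of the pair of masks coded by `c = 256 a + b`. -/
noncomputable def ccode (c : ℕ) : ℕ := cstep 0 (cstep 1 (cstep 2 (cstep 3 c)))

/-- Swap the two masks of a code. -/
noncomputable def cswap (c : ℕ) : ℕ := Nat.add (Nat.shiftLeft (Nat.land c 255) 8) (Nat.shiftRight c 8)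

/-- The masks differ by one exchange. -/
noncomputable def oneEx (x : ℕ) : Bool :=
  cond (Nat.beq x 0) true
    (cond (Nat.beq (Nat.land x (Nat.sub x 1)) 0) false
      (Nat.beq (Nat.land (Nat.land x (Nat.sub x 1)) (Nat.sub (Nat.land x (Nat.sub x 1)) 1)) 0))

/-- The variable `v` (with masks from the table `pv`) describes the pair of masks `a`, `b`. -/
noncomputable def pairOk (pv : BT) (a b v : ℕ) : Bool :=
  cond (Nat.beq v 0) (oneEx (Nat.xor a b))
    (cond (Nat.beq (ccode (Nat.add (Nat.shiftLeft a 8) b)) (pv.get v)) true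
      (Nat.beq (cswap (ccode (Nat.add (Nat.shiftLeft a 8) b))) (pv.get v)))

/-- Check one Farkas term coded by `v + 2^12 a + 2^20 b + 2^28 c + 2^36 d` for the clause with
mask `M`. -/
noncomputable def termOk (pv : BT) (ms : ℕ) (M v a b c d : ℕ) : Bool :=
  cond (Nat.beq (Nat.land (Nat.shiftRight M (Nat.add (Nat.mul 2 v) 1)) 1) 0) false
  (cond (Nat.beq (Nat.land (Nat.shiftRight ms a) 1) 0) false
  (cond (Nat.beq (Nat.land (Nat.shiftRight ms b) 1) 0) false
  (cond (Nat.beq (Nat.land (Nat.shiftRight ms c) 1) 0) false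
  (cond (Nat.beq (Nat.land (Nat.shiftRight ms d) 1) 0) false
  (cond (Nat.beq (Nat.land a b) (Nat.land c d))
  (cond (Nat.beq (Nat.lor a b) (Nat.lor c d))
  (cond (Nat.beq a c) false (cond (Nat.beq a d) false
    (pairOk pv a b v))) false) false)))))

/-- Check a list of Farkas terms. -/
noncomputable def termsOk (pv : BT) (ms M : ℕ) (L : List ℕ) : Bool :=
  List.rec (motive := fun _ => Bool) true (fun t _ ih => cond
    (termOk pv ms M (Nat.land t 4095) (Nat.land (Nat.shiftRight t 12) 255)
      (Nat.land (Nat.shiftRight t 20) 255) (Nat.land (Nat.shiftRight t 28) 255)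
      (Nat.land (Nat.shiftRight t 36) 255)) ih false) L

/-- The masks of the left hand sides. -/
noncomputable def lows (L : List ℕ) : List ℕ :=
  List.rec (motive := fun _ => List ℕ) [] (fun t _ ih =>
    Nat.land (Nat.shiftRight t 12) 255 :: Nat.land (Nat.shiftRight t 20) 255 :: ih) L

/-- The masks of the right hand sides. -/
noncomputable def ups (L : List ℕ) : List ℕ :=
  List.rec (motive := fun _ => List ℕ) [] (fun t _ ih =>
    Nat.land (Nat.shiftRight t 28) 255 :: Nat.land (Nat.shiftRight t 36) 255 :: ih) L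

/-- Check a Farkas lemma. -/
noncomputable def theoryOk (pv : BT) (ms M p : ℕ) : Bool :=
  cond (Nat.beq p 0) false
    (cond (termsOk pv ms M (unp 44 100 p)) (perm (lows (unp 44 100 p)) (ups (unp 44 100 p))) false)

/-- Image of a literal under the symmetry `g`, where the table `pm` has the three images of a
variable, with `11` bits each. -/
noncomputable def mapLit (pm : BT) (g l : ℕ) : ℕ :=
  Nat.add (Nat.mul 2 (Nat.land (Nat.shiftRight (pm.get (Nat.shiftRight l 1)) (Nat.mul 11 g)) 2047))
    (Nat.land l 1)

/-- The mask of the image of a clause. -/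
noncomputable def imgMask (pm : BT) (g fuel : ℕ) : ℕ → ℕ :=
  Nat.rec (motive := fun _ => ℕ → ℕ) (fun _ => 0)
    (fun _ ih p => cond (Nat.beq p 0) 0
      (Nat.lor (Nat.shiftLeft 1 (mapLit pm g (Nat.land p 4095))) (ih (Nat.shiftRight p 12)))) fuel

/-- Check an image. -/
noncomputable def imageOk (db pm : BT) (k M src g : ℕ) : Bool :=
  cond (Nat.ble k src) false (cond (Nat.ble 3 g) false
    (Nat.beq (Nat.lor (imgMask pm g 100 (db.get src)) M) M))

/-- `m` is the mask of a basis; `ms` is the mask of all of them. -/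
noncomputable def isM (ms m : ℕ) : Bool := Nat.beq (Nat.land (Nat.shiftRight ms m) 1) 1

/-- The masks of the triple coded by `t` (`8` bits each) and the variables coded by `q` (`11` bits
each) fit, and the clause `M` has the negative literals of the variables. -/
noncomputable def tripOk (pv : BT) (ms M t q : ℕ) : Bool :=
  cond (isM ms (Nat.land t 255)) (cond (isM ms (Nat.land (Nat.shiftRight t 8) 255))
  (cond (isM ms (Nat.land (Nat.shiftRight t 16) 255))
  (cond (pairOk pv (Nat.land t 255) (Nat.land (Nat.shiftRight t 8) 255) (Nat.land q 2047))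
  (cond (pairOk pv (Nat.land t 255) (Nat.land (Nat.shiftRight t 16) 255)
    (Nat.land (Nat.shiftRight q 11) 2047))
  (cond (pairOk pv (Nat.land (Nat.shiftRight t 8) 255) (Nat.land (Nat.shiftRight t 16) 255)
    (Nat.land (Nat.shiftRight q 22) 2047))
  (Nat.beq (Nat.lor (Nat.shiftLeft (optMask q) 1) (Nat.lor M 2)) (Nat.lor M 2))
  false) false) false) false) false) false

/-- Majority of three masks. -/
noncomputable def maj (a b c : ℕ) : ℕ :=
  Nat.lor (Nat.lor (Nat.land a b) (Nat.land a c)) (Nat.land b c)

/-- Check a clause saying that two triples exclude each other. -/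
noncomputable def amoOk (pv : BT) (ms M t q t' q' : ℕ) : Bool :=
  cond (tripOk pv ms M t q) (cond (tripOk pv ms M t' q')
  (cond (Nat.beq (Nat.xor (Nat.xor (Nat.land t 255) (Nat.land (Nat.shiftRight t 8) 255))
      (Nat.land (Nat.shiftRight t 16) 255))
    (Nat.xor (Nat.xor (Nat.land t' 255) (Nat.land (Nat.shiftRight t' 8) 255))
      (Nat.land (Nat.shiftRight t' 16) 255)))
  (cond (Nat.beq (maj (Nat.land t 255) (Nat.land (Nat.shiftRight t 8) 255)
      (Nat.land (Nat.shiftRight t 16) 255))
    (maj (Nat.land t' 255) (Nat.land (Nat.shiftRight t' 8) 255)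
      (Nat.land (Nat.shiftRight t' 16) 255)))
  (cond (Nat.beq (Nat.land t' 255) (Nat.land t 255)) false
  (cond (Nat.beq (Nat.land t' 255) (Nat.land (Nat.shiftRight t 8) 255)) false
  (cond (Nat.beq (Nat.land t' 255) (Nat.land (Nat.shiftRight t 16) 255)) false
  true))) false) false) false) false

/-- Check the clause `k` with payload `p`. -/
noncomputable def chkOne (db f2 f3 pv pm : BT) (ms k p : ℕ) : Bool :=
  cond (Nat.beq (Nat.land p 1) 0)
    (cond (Nat.beq (Nat.land p 2) 0)
      (run db f2 f3 k 5000 (Nat.shiftRight p 2) (mk 100 (db.get k)))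
      (theoryOk pv ms (mk 100 (db.get k)) (Nat.shiftRight p 2)))
    (cond (Nat.beq (Nat.land p 2) 0)
      (imageOk db pm k (mk 100 (db.get k)) (Nat.land (Nat.shiftRight p 2) 16383)
        (Nat.shiftRight p 16))
      (amoOk pv ms (mk 100 (db.get k)) (Nat.land (Nat.shiftRight p 2) 16777215)
        (Nat.land (Nat.shiftRight p 26) 8589934591) (Nat.land (Nat.shiftRight p 59) 16777215)
        (Nat.land (Nat.shiftRight p 83) 8589934591)))

/-- Check consecutive clauses, starting with `k`. -/
noncomputable def chkAll (db f2 f3 pv pm : BT) (ms : ℕ) (L : List ℕ) : ℕ → Bool :=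
  List.rec (motive := fun _ => ℕ → Bool) (fun _ => true)
    (fun p _ ih k => cond (chkOne db f2 f3 pv pm ms k p) (ih (Nat.add k 1)) false) L

/-- Check the table entry of a fibre of degree two, against its code `c = s + 2048 k`: the pairs
`s, …, s + k - 1` are increasing pairs of masks with the same sum, in increasing order. -/
noncomputable def f2Inc (pv : BT) (ms I U : ℕ) (k : ℕ) : ℕ → ℕ → Bool :=
  Nat.rec (motive := fun _ => ℕ → ℕ → Bool) (fun _ _ => true)
    (fun _ ih s c => cond (Nat.ble (pv.get s) c) false
      (cond (Nat.ble (Nat.land (pv.get s) 255) (Nat.shiftRight (pv.get s) 8)) false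
      (cond (isM ms (Nat.shiftRight (pv.get s) 8)) (cond (isM ms (Nat.land (pv.get s) 255))
      (cond (Nat.beq (Nat.land (Nat.shiftRight (pv.get s) 8) (Nat.land (pv.get s) 255)) I)
      (cond (Nat.beq (Nat.lor (Nat.shiftRight (pv.get s) 8) (Nat.land (pv.get s) 255)) U)
      (ih (Nat.add s 1) (pv.get s)) false) false) false) false))) k

/-- The code `x` is among the entries `s, …, s + k - 1` of the table. -/
noncomputable def f2Mem (pv : BT) (x : ℕ) (k : ℕ) : ℕ → Bool :=
  Nat.rec (motive := fun _ => ℕ → Bool) (fun _ => false)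
    (fun _ ih s => cond (Nat.beq (pv.get s) x) true (ih (Nat.add s 1))) k

/-- Completeness of the fibre with intersection `I` and union `U`. -/
noncomputable def f2Comp (pv : BT) (ms I U k s : ℕ) (L : List ℕ) : Bool :=
  List.rec (motive := fun _ => Bool) true (fun x _ ih =>
    cond (cond (Nat.ble (Nat.xor x (Nat.xor I U)) x) true
      (cond (Nat.beq (Nat.land x (Nat.xor x (Nat.xor I U))) I)
        (cond (Nat.beq (Nat.lor x (Nat.xor x (Nat.xor I U))) U)
          (cond (isM ms (Nat.xor x (Nat.xor I U)))
            (f2Mem pv (Nat.add (Nat.shiftLeft x 8) (Nat.xor x (Nat.xor I U))) k s)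
            true) true) true)) ih false) L

/-- Check the code `c = s + 2048 k` of a fibre of degree two. -/
noncomputable def f2Ok (pv : BT) (ms : ℕ) (mL : List ℕ) (s k : ℕ) : Bool :=
  cond (Nat.beq k 0) false
  (cond (Nat.ble (Nat.add s k) 2047)
  (cond (f2Inc pv ms
      (Nat.land (Nat.shiftRight (pv.get s) 8) (Nat.land (pv.get s) 255))
      (Nat.lor (Nat.shiftRight (pv.get s) 8) (Nat.land (pv.get s) 255)) k s 0)
    (f2Comp pv ms
      (Nat.land (Nat.shiftRight (pv.get s) 8) (Nat.land (pv.get s) 255))
      (Nat.lor (Nat.shiftRight (pv.get s) 8) (Nat.land (pv.get s) 255)) k s mL) false) false)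

/-- The options and the triples of a fibre of degree three fit. -/
noncomputable def f3Vars (pv : BT) (ms X M : ℕ) (T : List ℕ) : List ℕ → Bool :=
  List.rec (motive := fun _ => List ℕ → Bool) (fun O => List.rec true (fun _ _ _ => false) O)
    (fun t _ ih O => List.rec (motive := fun _ => Bool) false (fun q O' _ =>
      cond (isM ms (Nat.land t 255)) (cond (isM ms (Nat.land (Nat.shiftRight t 8) 255))
      (cond (isM ms (Nat.land (Nat.shiftRight t 16) 255))
      (cond (Nat.beq (Nat.xor (Nat.xor (Nat.land t 255) (Nat.land (Nat.shiftRight t 8) 255))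
        (Nat.land (Nat.shiftRight t 16) 255)) X)
      (cond (Nat.beq (maj (Nat.land t 255) (Nat.land (Nat.shiftRight t 8) 255)
        (Nat.land (Nat.shiftRight t 16) 255)) M)
      (cond (pairOk pv (Nat.land t 255) (Nat.land (Nat.shiftRight t 8) 255) (Nat.land q 2047))
      (cond (pairOk pv (Nat.land t 255) (Nat.land (Nat.shiftRight t 16) 255)
        (Nat.land (Nat.shiftRight q 11) 2047))
      (cond (pairOk pv (Nat.land (Nat.shiftRight t 8) 255) (Nat.land (Nat.shiftRight t 16) 255)
        (Nat.land (Nat.shiftRight q 22) 2047))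
      (ih O') false) false) false) false) false) false) false) false) O) T

/-- Candidates for elements of triples with xor `X` and majority `M`. -/
noncomputable def cands (X M : ℕ) (L : List ℕ) : List ℕ :=
  List.rec (motive := fun _ => List ℕ) [] (fun x _ ih =>
    cond (Nat.beq (Nat.lor x (Nat.lor X M)) (Nat.lor X M))
      (cond (Nat.beq (Nat.land x (Nat.land X M)) (Nat.land X M)) (x :: ih) ih) ih) L

/-- Inner loop of the completeness check. -/
noncomputable def f3In (ms X M x : ℕ) (T L : List ℕ) : Bool :=
  List.rec (motive := fun _ => Bool) true (fun y _ ih =>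
    cond (cond (Nat.ble x y)
      (cond (Nat.ble y (Nat.xor X (Nat.xor x y)))
        (cond (Nat.beq (maj x y (Nat.xor X (Nat.xor x y))) M)
          (cond (isM ms (Nat.xor X (Nat.xor x y)))
            (elem (Nat.add x (Nat.add (Nat.shiftLeft y 8)
              (Nat.shiftLeft (Nat.xor X (Nat.xor x y)) 16))) T)
            true) true) true) true) ih false) L

/-- Outer loop of the completeness check. -/
noncomputable def f3Out (ms X M : ℕ) (T L L' : List ℕ) : Bool :=
  List.rec (motive := fun _ => Bool) true (fun x _ ih =>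
    cond (f3In ms X M x T L) ih false) L'

/-- Check a fibre of degree three with packed triples `t` and packed options `p`. -/
noncomputable def f3Ok (pv : BT) (ms : ℕ) (mL : List ℕ) (X M : ℕ) (T O : List ℕ) : Bool :=
  cond (f3Vars pv ms X M T O) (f3Out ms X M T (cands X M mL) (cands X M mL)) false

/-- Check a range of fibres of degree three. -/
noncomputable def f3All (pv f3 t3 : BT) (ms : ℕ) (mL : List ℕ) (n : ℕ) : ℕ → Bool :=
  Nat.rec (motive := fun _ => ℕ → Bool) (fun _ => true)
    (fun _ ih i => cond (Nat.beq (t3.get i) 0) false (cond (f3Ok pv ms mL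
      (Nat.xor (Nat.xor (Nat.land (t3.get i) 255) (Nat.land (Nat.shiftRight (t3.get i) 8) 255))
        (Nat.land (Nat.shiftRight (t3.get i) 16) 255))
      (maj (Nat.land (t3.get i) 255) (Nat.land (Nat.shiftRight (t3.get i) 8) 255)
        (Nat.land (Nat.shiftRight (t3.get i) 16) 255))
      (unp 24 100 (t3.get i)) (unp 33 100 (f3.get i))) (ih (Nat.add i 1)) false)) n

/-- Check a range of table entries for fibres of degree two. -/
noncomputable def f2All (pv f2 : BT) (ms : ℕ) (mL : List ℕ) (n : ℕ) : ℕ → Bool :=
  Nat.rec (motive := fun _ => ℕ → Bool) (fun _ => true)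
    (fun _ ih i => cond (f2Ok pv ms mL (Nat.land (f2.get i) 2047) (Nat.shiftRight (f2.get i) 11))
      (ih (Nat.add i 1)) false) n

/-- Look up the mask `m` in a table with `8` bits for every mask. -/
noncomputable def look (tab m : ℕ) : ℕ := Nat.land (Nat.shiftRight tab (Nat.mul 8 m)) 255

/-- Check the entries of the table of symmetries. -/
noncomputable def pmAll (pv pm : BT) (ms t1 t2 t3 : ℕ) (n : ℕ) : ℕ → Bool :=
  Nat.rec (motive := fun _ => ℕ → Bool) (fun _ => true)
    (fun _ ih v =>
      cond (isM ms (Nat.shiftRight (pv.get v) 8)) (cond (isM ms (Nat.land (pv.get v) 255))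
      (cond (pairOk pv (look t1 (Nat.shiftRight (pv.get v) 8)) (look t1 (Nat.land (pv.get v) 255))
        (Nat.land (pm.get v) 2047))
      (cond (pairOk pv (look t2 (Nat.shiftRight (pv.get v) 8)) (look t2 (Nat.land (pv.get v) 255))
        (Nat.land (Nat.shiftRight (pm.get v) 11) 2047))
      (cond (pairOk pv (look t3 (Nat.shiftRight (pv.get v) 8)) (look t3 (Nat.land (pv.get v) 255))
        (Nat.land (Nat.shiftRight (pm.get v) 22) 2047))
      (ih (Nat.add v 1)) false) false) false) false) false) n

end Pool.Agent.Lib.QTri
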