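import Pool.Agent.Lib.QTri.Check

namespace Pool.Agent.Lib.QTri

/-- Table of the symmetry `1`, with `8` bits for every mask. -/
def actTab1 : ℕ := 0xffbf7f3fefaf6f2fdf9f5f1fcf8f4f0ffbbb7b3bebab6b2bdb9b5b1bcb8b4b0bf7b77737e7a76727d7975717c7874707f3b37333e3a36323d3935313c3834303febe7e3eeeae6e2ede9e5e1ece8e4e0efaba7a3aeaaa6a2ada9a5a1aca8a4a0af6b67636e6a66626d6965616c6864606f2b27232e2a26222d2925212c2824202fdbd7d3dedad6d2ddd9d5d1dcd8d4d0df9b97939e9a96929d9995919c9894909f5b57535e5a56525d5955515c5854505f1b17131e1a16121d1915111c1814101fcbc7c3cecac6c2cdc9c5c1ccc8c4c0cf8b87838e8a86828d8985818c8884808f4b47434e4a46424d4945414c4844404f0b07030e0a06020d0905010c0804000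

/-- Table of the symmetry `2`, with `8` bits for every mask. -/
def actTab2 : ℕ := 0x20103080a090b040605070c0e0d0f20222123282a292b242625272c2e2d2f10121113181a191b141615171c1e1d1f30323133383a393b343635373c3e3d3f80828183888a898b848685878c8e8d8fa0a2a1a3a8aaa9aba4a6a5a7acaeadaf90929193989a999b949695979c9e9d9fb0b2b1b3b8bab9bbb4b6b5b7bcbebdbf40424143484a494b444645474c4e4d4f60626163686a696b646665676c6e6d6f50525153585a595b545655575c5e5d5f70727173787a797b747675777c7e7d7fc0c2c1c3c8cac9cbc4c6c5c7cccecdcfe0e2e1e3e8eae9ebe4e6e5e7eceeedefd0d2d1d3d8dad9dbd4d6d5d7dcdedddff0f2f1f3f8faf9fbf4f6f5f7fcfefdff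

/-- Table of the symmetry `3`, with `8` bits for every mask. -/
def actTab3 : ℕ := 0x8040c020a060e0109050d030b070f0088848c828a868e8189858d838b878f8048444c424a464e4149454d434b474f40c8c4ccc2cac6cec1c9c5cdc3cbc7cfc028242c222a262e2129252d232b272f20a8a4aca2aaa6aea1a9a5ada3aba7afa068646c626a666e6169656d636b676f60e8e4ece2eae6eee1e9e5ede3ebe7efe018141c121a161e1119151d131b171f1098949c929a969e9199959d939b979f9058545c525a565e5159555d535b575f50d8d4dcd2dad6ded1d9d5ddd3dbd7dfd038343c323a363e3139353d333b373f30b8b4bcb2bab6beb1b9b5bdb3bbb7bfb078747c727a767e7179757d737b777f70f8f4fcf2faf6fef1f9f5fdf3fbf7fff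

end Pool.Agent.Lib.QTri
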