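import Mathlib

/-!
# The combinatorial problem on four legs

Bases of the tipless ternary spike with `n` legs are coded by masks with `2 n` bits: leg `i` has
the bits `2 i` (the element `a_i`) and `2 i + 1` (the element `b_i`).
-/

namespace Pool.Agent.Lib.QTri

/-- The state of leg `i` in the mask `m`: bit `0` of the state says whether `a_i` is in, bit `1`
whether `b_i` is in. -/
def legState (m i : ℕ) : ℕ := (m >>> (2 * i)) % 4

/-- `m` codes a basis of the spike with `n` legs: either every leg has exactly one element, and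
the number of legs where it is `b_i` is not `2` modulo `3`, or exactly one leg is full, exactly one
leg is empty, and the others have one element. -/
def isBaseMask (n m : ℕ) : Bool :=
  (((List.range n).map (legState m)).count 3 == 0 && ((List.range n).map (legState m)).count 0 == 0
    && !(((List.range n).map (legState m)).count 2 % 3 == 2)) ||
  (((List.range n).map (legState m)).count 3 == 1 && ((List.range n).map (legState m)).count 0 == 1)

/-- The masks of the bases. -/
def masks (n : ℕ) : List ℕ := (List.range (4 ^ n)).filter (isBaseMask n)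

/-- Two pairs of masks have the same sum (as multisets of elements). -/
def Same2 (a b c d : ℕ) : Prop := a &&& b = c &&& d ∧ a ||| b = c ||| d

/-- Two triples of masks have the same sum (as multisets of elements). -/
def Same3 (a b c a' b' c' : ℕ) : Prop :=
  a ^^^ b ^^^ c = a' ^^^ b' ^^^ c' ∧
    (a &&& b) ||| (a &&& c) ||| (b &&& c) = (a' &&& b') ||| (a' &&& c') ||| (b' &&& c')

instance (a b c d : ℕ) : Decidable (Same2 a b c d) := inferInstanceAs (Decidable (_ ∧ _))

instance (a b c a' b' c' : ℕ) : Decidable (Same3 a b c a' b' c') :=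
  inferInstanceAs (Decidable (_ ∧ _))

/-- The pair `{a, b}` of masks on four legs has the smallest weight among the pairs with the same
sum. -/
def MStd (w : ℕ → ℝ) (a b : ℕ) : Prop :=
  ∀ c ∈ masks 4, ∀ d ∈ masks 4, Same2 a b c d → w a + w b ≤ w c + w d

/-- The standard pairs of a quadratic triangulation of the base polytope on four legs. -/
structure MCoherent (w : ℕ → ℝ) : Prop where
  unique2 : ∀ a ∈ masks 4, ∀ b ∈ masks 4, ∀ c ∈ masks 4, ∀ d ∈ masks 4, Same2 a b c d →
    MStd w a b → MStd w c d → (c = a ∧ d = b) ∨ (c = b ∧ d = a)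
  unique3 : ∀ a₁ ∈ masks 4, ∀ a₂ ∈ masks 4, ∀ a₃ ∈ masks 4, ∀ b₁ ∈ masks 4, ∀ b₂ ∈ masks 4,
    ∀ b₃ ∈ masks 4, Same3 a₁ a₂ a₃ b₁ b₂ b₃ → MStd w a₁ a₂ → MStd w a₁ a₃ → MStd w a₂ a₃ →
    MStd w b₁ b₂ → MStd w b₁ b₃ → MStd w b₂ b₃ → b₁ = a₁ ∨ b₁ = a₂ ∨ b₁ = a₃

/-- Insert a new leg, containing only `a`, at position `p`. -/
def ins (p m : ℕ) : ℕ := m % 4 ^ p + 4 ^ p + (m / 4 ^ p) * 4 ^ (p + 1)

/-- The patterns on the four faces with three active legs agree. -/
def Canon (w : ℕ → ℝ) : Prop :=
  ∀ x ∈ masks 3, ∀ y ∈ masks 3, ∀ p < 4, ∀ q < 4,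
    (MStd w (ins p x) (ins p y) ↔ MStd w (ins q x) (ins q y))

theorem masks4_length : (masks 4).length = 58 := by decide +kernel

theorem masks3_length : (masks 3).length = 17 := by decide +kernel

end Pool.Agent.Lib.QTri
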