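import Pool.Agent.Lib.QTri.TabSound4

/-!
# Soundness of the checker
-/

namespace Pool.Agent.Lib.QTri

attribute [local irreducible] masks

/-! ### The table of symmetries -/

theorem pmAll_succ (pv pm : BT) (ms t1 t2 t3 n v : ℕ) :
    pmAll pv pm ms t1 t2 t3 (n + 1) v =
      cond (isM ms (Nat.shiftRight (pv.get v) 8)) (cond (isM ms (Nat.land (pv.get v) 255))
      (cond (pairOk pv (look t1 (Nat.shiftRight (pv.get v) 8)) (look t1 (Nat.land (pv.get v) 255))
        (Nat.land (pm.get v) 2047))
      (cond (pairOk pv (look t2 (Nat.shiftRight (pv.get v) 8)) (look t2 (Nat.land (pv.get v) 255))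
        (Nat.land (Nat.shiftRight (pm.get v) 11) 2047))
      (cond (pairOk pv (look t3 (Nat.shiftRight (pv.get v) 8)) (look t3 (Nat.land (pv.get v) 255))
        (Nat.land (Nat.shiftRight (pm.get v) 22) 2047))
      (pmAll pv pm ms t1 t2 t3 n (Nat.add v 1)) false) false) false) false) false := rfl

theorem pmAll_sound {pv pm : BT} {ms t1 t2 t3 : ℕ} (hms : MsOK ms)
    (h0 : pv.get 0 = 85 * 256 + 85) (ht1 : ∀ m ∈ masks 4, look t1 m = act 1 m)
    (ht2 : ∀ m ∈ masks 4, look t2 m = act 2 m) (ht3 : ∀ m ∈ masks 4, look t3 m = act 3 m) :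
    ∀ n v, pmAll pv pm ms t1 t2 t3 n v = true → ∀ u, v ≤ u → u < v + n →
      ∀ g < 3, ∀ w, Good w → (Val pv (fun m => w (act (g + 1) m)) u ↔
        Val pv w ((pm.get u >>> (11 * g)) &&& 2047)) := by
  intro n
  induction n with
  | zero => intro v _ u h1 h2; omega
  | succ n ih =>
    intro v h u hvu hu
    rw [pmAll_succ] at h
    cases h1 : isM ms (Nat.shiftRight (pv.get v) 8)
    · rw [h1, cond_false] at h; exact Bool.noConfusion h
    rw [h1, cond_true] at h
    cases h2 : isM ms (Nat.land (pv.get v) 255)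
    · rw [h2, cond_false] at h; exact Bool.noConfusion h
    rw [h2, cond_true] at h
    have a1 := (hms _).mp h1
    have a2 := (hms _).mp h2
    rw [ht1 _ a1, ht1 _ a2, ht2 _ a1, ht2 _ a2, ht3 _ a1, ht3 _ a2] at h
    cases h3 : pairOk pv (act 1 (Nat.shiftRight (pv.get v) 8)) (act 1 (Nat.land (pv.get v) 255))
        (Nat.land (pm.get v) 2047)
    · rw [h3, cond_false] at h; exact Bool.noConfusion h
    rw [h3, cond_true] at h
    cases h4 : pairOk pv (act 2 (Nat.shiftRight (pv.get v) 8)) (act 2 (Nat.land (pv.get v) 255))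
        (Nat.land (Nat.shiftRight (pm.get v) 11) 2047)
    · rw [h4, cond_false] at h; exact Bool.noConfusion h
    rw [h4, cond_true] at h
    cases h5 : pairOk pv (act 3 (Nat.shiftRight (pv.get v) 8)) (act 3 (Nat.land (pv.get v) 255))
        (Nat.land (Nat.shiftRight (pm.get v) 22) 2047)
    · rw [h5, cond_false] at h; exact Bool.noConfusion h
    rw [h5, cond_true] at h
    by_cases huv : u = v
    · subst huv
      intro g hg w hw
      have key : ∀ g, (g = 1 ∨ g = 2 ∨ g = 3) → ∀ x,
          pairOk pv (act g (Nat.shiftRight (pv.get u) 8)) (act g (Nat.land (pv.get u) 255)) x =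
            true → (Val pv (fun m => w (act g m)) u ↔ Val pv w x) := by
        intro g hg x hx
        exact (MStd.act_iff (w := w) hg a1 a2).trans
          (pairOk_sound hw.2 h0 (act_mem hg a1).1 (act_mem hg a2).1 hx)
      obtain rfl | rfl | rfl : g = 0 ∨ g = 1 ∨ g = 2 := by omega
      · exact key 1 (Or.inl rfl) _ h3
      · exact key 2 (Or.inr (Or.inl rfl)) _ h4
      · exact key 3 (Or.inr (Or.inr rfl)) _ h5
    · refine ih _ h u ?_ ?_
      · change v + 1 ≤ u
        omega
      · change u < v + 1 + n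
        omega

/-! ### The certificate -/

/-- The clauses before `k` are true. -/
def DbOK (db pv : BT) (k : ℕ) : Prop :=
  ∀ j < k, ∀ w, Good w → CT (Val pv w) (mk 100 (db.get j))

/-- The tables are correct. -/
structure TabOK (f2 f3 pv pm : BT) (ms : ℕ) : Prop where
  ms : MsOK ms
  zero : pv.get 0 = 85 * 256 + 85
  f2 : ∀ w, Good w → ∀ i, FibOK (Val pv w) (fibMask (f2.get i))
  f3 : ∀ w, Good w → ∀ i, ∃ o ∈ unp 33 100 (f3.get i), OT (Val pv w) o
  pm : PmOK pv pm

theorem chkOne_sound {db f2 f3 pv pm : BT} {ms : ℕ} (ht : TabOK f2 f3 pv pm ms) {k p : ℕ}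
    (hdb : DbOK db pv k) (h : chkOne db f2 f3 pv pm ms k p = true) :
    ∀ w, Good w → CT (Val pv w) (mk 100 (db.get k)) := by
  intro w hw
  unfold chkOne at h
  cases h1 : Nat.beq (Nat.land p 1) 0 <;> cases h2 : Nat.beq (Nat.land p 2) 0 <;>
    simp only [h1, h2, cond_true, cond_false] at h
  · exact amo_sound hw ht.ms ht.zero h
  · exact image_sound ht.pm hw hdb h
  · exact theory_sound hw ht.ms ht.zero h
  · exact learned_sound (fun j hj => hdb j hj w hw) (ht.f2 w hw) (ht.f3 w hw) h

theorem chkAll_cons (db f2 f3 pv pm : BT) (ms p : ℕ) (L : List ℕ) (k : ℕ) :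
    chkAll db f2 f3 pv pm ms (p :: L) k =
      cond (chkOne db f2 f3 pv pm ms k p) (chkAll db f2 f3 pv pm ms L (Nat.add k 1)) false := rfl

theorem chkAll_sound {db f2 f3 pv pm : BT} {ms : ℕ} (ht : TabOK f2 f3 pv pm ms) :
    ∀ (L : List ℕ) (k : ℕ), chkAll db f2 f3 pv pm ms L k = true → DbOK db pv k →
      DbOK db pv (k + L.length) := by
  intro L
  induction L with
  | nil => exact fun k _ h => h
  | cons p L ih =>
    intro k h hk
    rw [chkAll_cons] at h
    cases h1 : chkOne db f2 f3 pv pm ms k p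
    · rw [h1, cond_false] at h; exact Bool.noConfusion h
    rw [h1, cond_true] at h
    have h2 : DbOK db pv (k + 1) := by
      intro j hj w hw
      rcases Nat.lt_succ_iff_lt_or_eq.mp hj with hj | rfl
      · exact hk j hj w hw
      · exact chkOne_sound ht hk h1 w hw
    have h3 := ih _ h h2
    rw [List.length_cons]
    change DbOK db pv (k + 1 + L.length) at h3
    rwa [show k + (L.length + 1) = k + 1 + L.length by omega]

theorem chk_step {db f2 f3 pv pm : BT} {ms : ℕ} (ht : TabOK f2 f3 pv pm ms) {L : List ℕ}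
    {k k' : ℕ} (hk : DbOK db pv k) (h : chkAll db f2 f3 pv pm ms L k = true)
    (hk' : Nat.beq (k + L.length) k' = true) : DbOK db pv k' := by
  rw [← beq_true hk']
  exact chkAll_sound ht L k h hk

/-- A true clause is not empty. -/
theorem not_DbOK {db pv : BT} {k j : ℕ} (hk : DbOK db pv k) (hj : j < k)
    (h : Nat.beq (mk 100 (db.get j)) 0 = true) : ¬ ∃ w, Good w := by
  rintro ⟨w, hw⟩
  obtain ⟨l, hl, -⟩ := hk j hj w hw
  rw [beq_true h, Nat.zero_testBit] at hl
  exact Bool.noConfusion hl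

end Pool.Agent.Lib.QTri
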