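import Pool.Agent.Lib.QTri.Tabs1
import Pool.Agent.Lib.QTri.Data0
import Pool.Agent.Lib.QTri.Data2

namespace Pool.Agent.Lib.QTri

theorem pmAll_ok : pmAll tPv tPm msMask actTab1 actTab2 actTab3 2048 0 = true := by
  decide +kernel

end Pool.Agent.Lib.QTri
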