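import Pool.Agent.Lib.QTri.Tabs2
import Pool.Agent.Lib.QTri.Data0

namespace Pool.Agent.Lib.QTri

theorem f3All_ok5 : f3All tPv tF3 tT3 msMask mList 368 656 = true := by decide +kernel

end Pool.Agent.Lib.QTri
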