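import Pool.Agent.Lib.QTri.Chunk0
import Pool.Agent.Lib.QTri.Chunk1
import Pool.Agent.Lib.QTri.Chunk2
import Pool.Agent.Lib.QTri.Chunk3
import Pool.Agent.Lib.QTri.Chunk4
import Pool.Agent.Lib.QTri.Chunk5
import Pool.Agent.Lib.QTri.Chunk6
import Pool.Agent.Lib.QTri.Chunk7
import Pool.Agent.Lib.QTri.Chunk8
import Pool.Agent.Lib.QTri.Chunk9
import Pool.Agent.Lib.QTri.Chunk10
import Pool.Agent.Lib.QTri.Chunk11
import Pool.Agent.Lib.QTri.Chunk12
import Pool.Agent.Lib.QTri.Chunk13
import Pool.Agent.Lib.QTri.Tabs0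
import Pool.Agent.Lib.QTri.Tabs1
import Pool.Agent.Lib.QTri.Tabs2
import Pool.Agent.Lib.QTri.Tabs3
import Pool.Agent.Lib.QTri.Tabs4
import Pool.Agent.Lib.QTri.Tabs5
import Pool.Agent.Lib.QTri.Tabs6
import Pool.Agent.Lib.QTri.TabSound5

/-!
# No weight on four legs is coherent and canonical
-/

namespace Pool.Agent.Lib.QTri

/-! ### The tables -/

theorem ms_check : ∀ m < 256, isM msMask m = (masks 4).contains m := by decide +kernel

theorem ms_lt : msMask < 2 ^ 256 := by decide +kernel

theorem mL_check : ((masks 4).all fun m => mList.contains m) = true := by decide +kernel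

theorem act_tabs : ((masks 4).all fun m => Nat.beq (look actTab1 m) (act 1 m) &&
    (Nat.beq (look actTab2 m) (act 2 m) && Nat.beq (look actTab3 m) (act 3 m))) = true := by
  decide +kernel

theorem full_tF2 : BT.full 11 tF2 = true := by decide +kernel

theorem full_tF3 : BT.full 10 tF3 = true := by decide +kernel

theorem tPv_zero : Nat.beq (tPv.get 0) (85 * 256 + 85) = true := by decide +kernel

attribute [local irreducible] masks

theorem ms_ok : MsOK msMask := by
  intro m
  by_cases hm : m < 256
  · rw [ms_check m hm, List.contains_iff_mem]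
  · constructor
    · intro h
      exfalso
      have h1 := beq_true h
      have h2 : msMask < 2 ^ m := ms_lt.trans_le (Nat.pow_le_pow_right (by norm_num) (not_lt.mp hm))
      have h3 : Nat.shiftRight msMask m = 0 := by
        change msMask >>> m = 0
        rw [Nat.shiftRight_eq_div_pow]
        exact Nat.div_eq_of_lt h2
      rw [h3] at h1
      exact absurd h1 (by decide)
    · intro h
      exact absurd (lt_of_mem h) hm

theorem mL_ok : ∀ m ∈ masks 4, m ∈ mList := by
  intro m hm
  have h1 := mL_check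
  rw [List.all_eq_true] at h1
  exact List.contains_iff_mem.mp (h1 m hm)

theorem look_ok : ∀ m ∈ masks 4, look actTab1 m = act 1 m ∧ look actTab2 m = act 2 m ∧
    look actTab3 m = act 3 m := by
  intro m hm
  have h1 := act_tabs
  rw [List.all_eq_true] at h1
  have h2 := h1 m hm
  rw [Bool.and_eq_true, Bool.and_eq_true] at h2
  exact ⟨beq_true h2.1, beq_true h2.2.1, beq_true h2.2.2⟩

theorem pv_zero : tPv.get 0 = 85 * 256 + 85 := beq_true tPv_zero

theorem tab_ok : TabOK tF2 tF3 tPv tPm msMask where
  ms := ms_ok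
  zero := pv_zero
  f2 := by
    intro w hw i
    rw [BT.get_mod full_tF2 i]
    have hi : i % 2 ^ 11 < 2048 := Nat.mod_lt _ (by norm_num)
    exact f2All_sound ms_ok mL_ok hw 2048 0 f2All_ok _ (Nat.zero_le _) (by omega)
  f3 := by
    intro w hw i
    rw [BT.get_mod full_tF3 i]
    have hi : i % 2 ^ 10 < 1024 := Nat.mod_lt _ (by norm_num)
    generalize i % 2 ^ 10 = j at hi
    by_cases h1 : j < 150
    · exact f3All_sound ms_ok mL_ok hw pv_zero _ _ f3All_ok0 j (Nat.zero_le _) (by omega)
    by_cases h2 : j < 300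
    · exact f3All_sound ms_ok mL_ok hw pv_zero _ _ f3All_ok1 j (by omega) (by omega)
    by_cases h3 : j < 450
    · exact f3All_sound ms_ok mL_ok hw pv_zero _ _ f3All_ok2 j (by omega) (by omega)
    by_cases h4 : j < 600
    · exact f3All_sound ms_ok mL_ok hw pv_zero _ _ f3All_ok3 j (by omega) (by omega)
    by_cases h5 : j < 656
    · exact f3All_sound ms_ok mL_ok hw pv_zero _ _ f3All_ok4 j (by omega) (by omega)
    · exact f3All_sound ms_ok mL_ok hw pv_zero _ _ f3All_ok5 j (by omega) (by omega)
  pm := by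
    intro g hg v hv w hw
    exact pmAll_sound ms_ok pv_zero (fun m hm => (look_ok m hm).1) (fun m hm => (look_ok m hm).2.1)
      (fun m hm => (look_ok m hm).2.2) 2048 0 pmAll_ok v (Nat.zero_le _) (by omega) g hg w hw

/-! ### The certificate -/

theorem db_zero : DbOK tDb tPv 0 := fun j hj => absurd hj (Nat.not_lt_zero j)

theorem db_200 : DbOK tDb tPv 200 := chk_step tab_ok db_zero chk0_0 (by decide +kernel)

theorem db_400 : DbOK tDb tPv 400 := chk_step tab_ok db_200 chk0_1 (by decide +kernel)

theorem db_600 : DbOK tDb tPv 600 := chk_step tab_ok db_400 chk0_2 (by decide +kernel)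

theorem db_800 : DbOK tDb tPv 800 := chk_step tab_ok db_600 chk0_3 (by decide +kernel)

theorem db_1000 : DbOK tDb tPv 1000 := chk_step tab_ok db_800 chk0_4 (by decide +kernel)

theorem db_1200 : DbOK tDb tPv 1200 := chk_step tab_ok db_1000 chk0_5 (by decide +kernel)

theorem db_1400 : DbOK tDb tPv 1400 := chk_step tab_ok db_1200 chk0_6 (by decide +kernel)

theorem db_1600 : DbOK tDb tPv 1600 := chk_step tab_ok db_1400 chk0_7 (by decide +kernel)

theorem db_1800 : DbOK tDb tPv 1800 := chk_step tab_ok db_1600 chk0_8 (by decide +kernel)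

theorem db_2000 : DbOK tDb tPv 2000 := chk_step tab_ok db_1800 chk0_9 (by decide +kernel)

theorem db_2200 : DbOK tDb tPv 2200 := chk_step tab_ok db_2000 chk0_10 (by decide +kernel)

theorem db_2400 : DbOK tDb tPv 2400 := chk_step tab_ok db_2200 chk0_11 (by decide +kernel)

theorem db_2600 : DbOK tDb tPv 2600 := chk_step tab_ok db_2400 chk0_12 (by decide +kernel)

theorem db_2800 : DbOK tDb tPv 2800 := chk_step tab_ok db_2600 chk0_13 (by decide +kernel)

theorem db_3000 : DbOK tDb tPv 3000 := chk_step tab_ok db_2800 chk1_0 (by decide +kernel)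

theorem db_3200 : DbOK tDb tPv 3200 := chk_step tab_ok db_3000 chk1_1 (by decide +kernel)

theorem db_3400 : DbOK tDb tPv 3400 := chk_step tab_ok db_3200 chk1_2 (by decide +kernel)

theorem db_3600 : DbOK tDb tPv 3600 := chk_step tab_ok db_3400 chk1_3 (by decide +kernel)

theorem db_3800 : DbOK tDb tPv 3800 := chk_step tab_ok db_3600 chk1_4 (by decide +kernel)

theorem db_4000 : DbOK tDb tPv 4000 := chk_step tab_ok db_3800 chk1_5 (by decide +kernel)

theorem db_4103 : DbOK tDb tPv 4103 := chk_step tab_ok db_4000 chk1_6 (by decide +kernel)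

theorem db_4303 : DbOK tDb tPv 4303 := chk_step tab_ok db_4103 chk2_0 (by decide +kernel)

theorem db_4503 : DbOK tDb tPv 4503 := chk_step tab_ok db_4303 chk2_1 (by decide +kernel)

theorem db_4595 : DbOK tDb tPv 4595 := chk_step tab_ok db_4503 chk2_2 (by decide +kernel)

theorem db_4795 : DbOK tDb tPv 4795 := chk_step tab_ok db_4595 chk3_0 (by decide +kernel)

theorem db_4995 : DbOK tDb tPv 4995 := chk_step tab_ok db_4795 chk3_1 (by decide +kernel)

theorem db_5040 : DbOK tDb tPv 5040 := chk_step tab_ok db_4995 chk3_2 (by decide +kernel)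

theorem db_5240 : DbOK tDb tPv 5240 := chk_step tab_ok db_5040 chk4_0 (by decide +kernel)

theorem db_5440 : DbOK tDb tPv 5440 := chk_step tab_ok db_5240 chk4_1 (by decide +kernel)

theorem db_5543 : DbOK tDb tPv 5543 := chk_step tab_ok db_5440 chk4_2 (by decide +kernel)

theorem db_5743 : DbOK tDb tPv 5743 := chk_step tab_ok db_5543 chk5_0 (by decide +kernel)

theorem db_5943 : DbOK tDb tPv 5943 := chk_step tab_ok db_5743 chk5_1 (by decide +kernel)

theorem db_6022 : DbOK tDb tPv 6022 := chk_step tab_ok db_5943 chk5_2 (by decide +kernel)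

theorem db_6222 : DbOK tDb tPv 6222 := chk_step tab_ok db_6022 chk6_0 (by decide +kernel)

theorem db_6391 : DbOK tDb tPv 6391 := chk_step tab_ok db_6222 chk6_1 (by decide +kernel)

theorem db_6591 : DbOK tDb tPv 6591 := chk_step tab_ok db_6391 chk7_0 (by decide +kernel)

theorem db_6752 : DbOK tDb tPv 6752 := chk_step tab_ok db_6591 chk7_1 (by decide +kernel)

theorem db_6952 : DbOK tDb tPv 6952 := chk_step tab_ok db_6752 chk8_0 (by decide +kernel)

theorem db_7064 : DbOK tDb tPv 7064 := chk_step tab_ok db_6952 chk8_1 (by decide +kernel)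

theorem db_7264 : DbOK tDb tPv 7264 := chk_step tab_ok db_7064 chk9_0 (by decide +kernel)

theorem db_7437 : DbOK tDb tPv 7437 := chk_step tab_ok db_7264 chk9_1 (by decide +kernel)

theorem db_7637 : DbOK tDb tPv 7637 := chk_step tab_ok db_7437 chk10_0 (by decide +kernel)

theorem db_7837 : DbOK tDb tPv 7837 := chk_step tab_ok db_7637 chk10_1 (by decide +kernel)

theorem db_7962 : DbOK tDb tPv 7962 := chk_step tab_ok db_7837 chk10_2 (by decide +kernel)

theorem db_8162 : DbOK tDb tPv 8162 := chk_step tab_ok db_7962 chk11_0 (by decide +kernel)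

theorem db_8362 : DbOK tDb tPv 8362 := chk_step tab_ok db_8162 chk11_1 (by decide +kernel)

theorem db_8413 : DbOK tDb tPv 8413 := chk_step tab_ok db_8362 chk11_2 (by decide +kernel)

theorem db_8613 : DbOK tDb tPv 8613 := chk_step tab_ok db_8413 chk12_0 (by decide +kernel)

theorem db_8805 : DbOK tDb tPv 8805 := chk_step tab_ok db_8613 chk12_1 (by decide +kernel)

theorem db_9005 : DbOK tDb tPv 9005 := chk_step tab_ok db_8805 chk13_0 (by decide +kernel)

theorem db_9037 : DbOK tDb tPv 9037 := chk_step tab_ok db_9005 chk13_1 (by decide +kernel)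

theorem last_empty : Nat.beq (mk 100 (tDb.get 9036)) 0 = true := by decide +kernel

/-- No weight on four legs is coherent and canonical. -/
theorem no_canonical : ¬ ∃ w : ℕ → ℝ, MCoherent w ∧ Canon w :=
  not_DbOK db_9037 (by norm_num) last_empty

end Pool.Agent.Lib.QTri
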