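import Mathlib

/-!
# Quadratic triangulations of point configurations

Definitions (triangulation, regular, unimodular, flag) and the passage from a quadratic
triangulation to a purely combinatorial condition on the height function.
-/

namespace Pool.Agent.Lib.QTri

open Finset

variable {ι : Type*}

/-- `T` is a triangulation of the finite point configuration `A`: a family of nonempty subsets of
`A`, each affinely independent (so that its convex hull is a simplex with these vertices), closed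
under passing to nonempty subsets, such that any two of the simplices intersect in the simplex
spanned by their common vertices, and whose simplices cover the convex hull of `A`. -/
structure IsTriangulation (A : Finset (ι → ℝ)) (T : Set (Finset (ι → ℝ))) : Prop where
  subset : ∀ s ∈ T, s ⊆ A
  nonempty : ∀ s ∈ T, s.Nonempty
  indep : ∀ s ∈ T, AffineIndependent ℝ (fun x : s => (x : ι → ℝ))
  down : ∀ s ∈ T, ∀ t ⊆ s, t.Nonempty → t ∈ T
  inter : ∀ s ∈ T, ∀ t ∈ T, convexHull ℝ (s : Set (ι → ℝ)) ∩ convexHull ℝ (t : Set (ι → ℝ)) ⊆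
    convexHull ℝ ((s : Set (ι → ℝ)) ∩ (t : Set (ι → ℝ)))
  cover : (⋃ s ∈ T, convexHull ℝ (s : Set (ι → ℝ))) = convexHull ℝ (A : Set (ι → ℝ))

/-- `T` is the triangulation of `A` induced by the height function `h`: its simplices are the
projections of the lower faces of the convex hull of the points `(a, h a)`, `a ∈ A`.  A lower face
is given by an affine function `a ↦ f a + c` with `f a + c ≤ h a` for all `a ∈ A`; its vertices
are the points with equality. -/
def InducedBy (A : Finset (ι → ℝ)) (T : Set (Finset (ι → ℝ))) (h : (ι → ℝ) → ℝ) : Prop :=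
  ∀ s : Finset (ι → ℝ), s ∈ T ↔ s.Nonempty ∧ ∃ (f : (ι → ℝ) →ₗ[ℝ] ℝ) (c : ℝ),
    (∀ a ∈ A, f a + c ≤ h a) ∧ ∀ a, a ∈ s ↔ (a ∈ A ∧ f a + c = h a)

/-- The triangulation `T` of `A` is regular. -/
def IsRegular (A : Finset (ι → ℝ)) (T : Set (Finset (ι → ℝ))) : Prop :=
  ∃ h : (ι → ℝ) → ℝ, InducedBy A T h

/-- The lattice of differences of the affine lattice spanned by the set `s`. -/
def diffLattice (s : Finset (ι → ℝ)) : AddSubgroup (ι → ℝ) :=
  AddSubgroup.closure {z | ∃ x ∈ s, ∃ y ∈ s, z = x - y}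

/-- The triangulation `T` of `A` is unimodular: every maximal simplex has normalized volume `1`
with respect to the affine lattice spanned by `A`, that is, its vertices span the same affine
lattice as `A`. -/
def IsUnimodular (A : Finset (ι → ℝ)) (T : Set (Finset (ι → ℝ))) : Prop :=
  ∀ s ∈ T, (∀ t ∈ T, s ⊆ t → s = t) → diffLattice s = diffLattice A

/-- The simplicial complex `T` on the vertex set `A` is flag: every minimal non-face has exactly
two elements. -/
def IsFlag (A : Finset (ι → ℝ)) (T : Set (Finset (ι → ℝ))) : Prop :=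
  ∀ s ⊆ A, s.Nonempty → s ∉ T → (∀ t ⊂ s, t.Nonempty → t ∈ T) → s.card = 2

/-- A quadratic triangulation: regular, unimodular and flag. -/
def IsQuadratic (A : Finset (ι → ℝ)) (T : Set (Finset (ι → ℝ))) : Prop :=
  IsTriangulation A T ∧ IsRegular A T ∧ IsUnimodular A T ∧ IsFlag A T

section

variable {A : Finset (ι → ℝ)} {T : Set (Finset (ι → ℝ))}

theorem diffLattice_comb {s : Finset (ι → ℝ)} {z : ι → ℝ} (hz : z ∈ diffLattice s) :
    ∃ n : (ι → ℝ) → ℤ, ∑ v ∈ s, n v = 0 ∧ ∑ v ∈ s, (n v : ℝ) • v = z := by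
  classical
  unfold diffLattice at hz
  induction hz using AddSubgroup.closure_induction with
  | mem x hx =>
    obtain ⟨a, ha, b, hb, rfl⟩ := hx
    refine ⟨fun v => (if v = a then 1 else 0) - (if v = b then 1 else 0), ?_, ?_⟩
    · simp [Finset.sum_sub_distrib, ha, hb]
    · push_cast
      simp only [sub_smul, ite_smul, one_smul, zero_smul, Finset.sum_sub_distrib]
      rw [Finset.sum_ite_eq' s a, Finset.sum_ite_eq' s b, if_pos ha, if_pos hb]
  | zero => exact ⟨fun _ => 0, by simp, by simp⟩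
  | add x y _ _ hx hy =>
    obtain ⟨n, hn, rfl⟩ := hx
    obtain ⟨m, hm, rfl⟩ := hy
    refine ⟨fun v => n v + m v, by rw [Finset.sum_add_distrib, hn, hm, add_zero], ?_⟩
    push_cast
    simp only [add_smul, Finset.sum_add_distrib]
  | neg x _ hx =>
    obtain ⟨n, hn, rfl⟩ := hx
    refine ⟨fun v => - n v, by rw [Finset.sum_neg_distrib, hn, neg_zero], ?_⟩
    push_cast
    simp only [neg_smul, Finset.sum_neg_distrib]

theorem affInd_unique {s : Finset (ι → ℝ)} (hs : AffineIndependent ℝ (fun x : s => (x : ι → ℝ)))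
    {w : (ι → ℝ) → ℝ} (h0 : ∑ v ∈ s, w v = 0) (h1 : ∑ v ∈ s, w v • v = 0) :
    ∀ v ∈ s, w v = 0 := by
  have := (affineIndependent_iff (p := fun x : s => (x : ι → ℝ))).mp hs Finset.univ
    (fun x => w x) (by rw [← Finset.sum_coe_sort s] at h0; exact h0)
    (by rw [← Finset.sum_coe_sort s] at h1; exact h1)
  intro v hv
  exact this ⟨v, hv⟩ (Finset.mem_univ _)

/-- Every simplex of `T` lies in a maximal one. -/
theorem exists_maximal (hT : IsTriangulation A T) {s : Finset (ι → ℝ)} (hs : s ∈ T) :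
    ∃ t ∈ T, s ⊆ t ∧ ∀ u ∈ T, t ⊆ u → t = u := by
  classical
  have hfin : (T : Set (Finset (ι → ℝ))).Finite := by
    apply (A.powerset.finite_toSet).subset
    intro u hu
    exact Finset.mem_coe.mpr (Finset.mem_powerset.mpr (hT.subset u hu))
  obtain ⟨t, ⟨htT, hst⟩, hmax⟩ := Set.Finite.exists_maximalFor (fun u : Finset (ι → ℝ) => u.card)
    {u | u ∈ T ∧ s ⊆ u} (hfin.subset fun u hu => hu.1) ⟨s, hs, Finset.Subset.refl _⟩
  refine ⟨t, htT, hst, fun u hu htu => ?_⟩
  have h1 := Finset.card_le_card htu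
  have h2 := hmax (show u ∈ {u | u ∈ T ∧ s ⊆ u} from ⟨hu, hst.trans htu⟩) h1
  exact Finset.eq_of_subset_of_card_le htu h2

/-- In a unimodular triangulation, the midpoint of two points of `A` is the midpoint of two
vertices of one simplex. -/
theorem exists_pair (hT : IsTriangulation A T) (hU : IsUnimodular A T) {a b : ι → ℝ}
    (ha : a ∈ A) (hb : b ∈ A) :
    ∃ s ∈ T, ∃ x ∈ s, ∃ y ∈ s, x + y = a + b := by
  classical
  have hx : (2⁻¹ : ℝ) • (a + b) ∈ convexHull ℝ (A : Set (ι → ℝ)) := by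
    have := (convex_convexHull ℝ (A : Set (ι → ℝ))) (subset_convexHull ℝ _ ha)
      (subset_convexHull ℝ _ hb) (a := 2⁻¹) (b := 2⁻¹) (by norm_num) (by norm_num) (by norm_num)
    rwa [smul_add]
  rw [← hT.cover] at hx
  simp only [Set.mem_iUnion] at hx
  obtain ⟨s0, hs0, hx⟩ := hx
  obtain ⟨s, hs, hs0s, hmax⟩ := exists_maximal hT hs0
  have hx' := convexHull_mono (Finset.coe_subset.mpr hs0s) hx
  rw [Finset.mem_convexHull'] at hx'
  obtain ⟨w, hw0, hw1, hw2⟩ := hx'
  obtain ⟨v0, hv0⟩ := hT.nonempty s hs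
  have hL := hU s hs hmax
  have hmem : ∀ c ∈ A, c - v0 ∈ diffLattice s := by
    intro c hc
    rw [hL]
    exact AddSubgroup.subset_closure ⟨c, hc, v0, hT.subset s hs hv0, rfl⟩
  obtain ⟨n, hn0, hn1⟩ := diffLattice_comb (hmem a ha)
  obtain ⟨m, hm0, hm1⟩ := diffLattice_comb (hmem b hb)
  -- integer weights
  have key : ∀ v ∈ s, 2 * w v - ((n v + m v + (if v = v0 then 2 else 0) : ℤ) : ℝ) = 0 := by
    apply affInd_unique (hT.indep s hs)
    · rw [Finset.sum_sub_distrib, ← Finset.mul_sum, hw1, ← Int.cast_sum, Finset.sum_add_distrib,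
        Finset.sum_add_distrib, hn0, hm0, Finset.sum_ite_eq' s v0, if_pos hv0]
      norm_num
    · simp only [sub_smul, mul_smul, Finset.sum_sub_distrib, ← Finset.smul_sum, hw2]
      push_cast
      simp only [add_smul, Finset.sum_add_distrib, hn1, hm1, ite_smul, zero_smul]
      rw [Finset.sum_ite_eq' s v0, if_pos hv0]
      rw [smul_smul]
      norm_num
      module
  set k : (ι → ℝ) → ℤ := fun v => n v + m v + (if v = v0 then 2 else 0) with hk
  have hk0 : ∀ v ∈ s, 0 ≤ k v := by
    intro v hv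
    have h1 := key v hv
    have h2 := hw0 v hv
    have h3 : (0 : ℝ) ≤ (k v : ℝ) := by
      change 2 * w v - (k v : ℝ) = 0 at h1
      linarith
    exact_mod_cast h3
  have hksum : ∑ v ∈ s, k v = 2 := by
    rw [hk]
    simp only [Finset.sum_add_distrib, hn0, hm0, Finset.sum_ite_eq' s v0, if_pos hv0]
    norm_num
  have hkvec : ∑ v ∈ s, (k v : ℝ) • v = a + b := by
    have : ∀ v ∈ s, (k v : ℝ) • v = 2 • (w v • v) := by
      intro v hv
      have h1 : 2 * w v - (k v : ℝ) = 0 := key v hv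
      have h2 : (k v : ℝ) = 2 * w v := by linarith
      rw [h2, mul_smul, two_smul, two_smul]
    rw [Finset.sum_congr rfl this, ← Finset.smul_sum, hw2, ← Nat.cast_smul_eq_nsmul ℝ, smul_smul]
    norm_num
  -- choose `x` with `k x ≥ 1`
  obtain ⟨x, hx, hkx⟩ : ∃ x ∈ s, 1 ≤ k x := by
    by_contra hcon
    push Not at hcon
    have : ∑ v ∈ s, k v ≤ 0 := Finset.sum_nonpos fun v hv => by
      have := hcon v hv
      omega
    omega
  -- remove it
  have hsum2 : ∑ v ∈ s, (k v - if v = x then 1 else 0) = 1 := by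
    rw [Finset.sum_sub_distrib, hksum, Finset.sum_ite_eq' s x, if_pos hx]
    norm_num
  have hnn : ∀ v ∈ s, 0 ≤ k v - if v = x then 1 else 0 := by
    intro v hv
    split_ifs with h
    · subst h
      omega
    · have := hk0 v hv
      omega
  obtain ⟨y, hy, hky⟩ : ∃ y ∈ s, 1 ≤ k y - if y = x then 1 else 0 := by
    by_contra hcon
    push Not at hcon
    have : ∑ v ∈ s, (k v - if v = x then 1 else 0) ≤ 0 := Finset.sum_nonpos fun v hv => by
      have := hcon v hv
      omega
    omega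
  have hfin : ∀ v ∈ s, k v = (if v = x then 1 else 0) + (if v = y then 1 else 0) := by
    have h3 : ∑ v ∈ s, (k v - (if v = x then 1 else 0) - (if v = y then 1 else 0)) = 0 := by
      rw [Finset.sum_sub_distrib, hsum2, Finset.sum_ite_eq' s y, if_pos hy]
      norm_num
    have h4 : ∀ v ∈ s, 0 ≤ k v - (if v = x then 1 else 0) - (if v = y then 1 else 0) := by
      intro v hv
      have h5 := hnn v hv
      by_cases h : v = y
      · subst h
        rw [if_pos (rfl : v = v)]
        omega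
      · rw [if_neg h]
        omega
    intro v hv
    have := (Finset.sum_eq_zero_iff_of_nonneg h4).mp h3 v hv
    omega
  refine ⟨s, hs, x, hx, y, hy, ?_⟩
  rw [← hkvec]
  rw [Finset.sum_congr rfl fun v hv => by rw [hfin v hv]]
  push_cast
  simp only [add_smul, Finset.sum_add_distrib, ite_smul, zero_smul, one_smul]
  rw [Finset.sum_ite_eq' s x, Finset.sum_ite_eq' s y, if_pos hx, if_pos hy]

/-- The pair `{x, y}` has the smallest total height among all pairs of points of `A` with the
same sum. -/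
def Std (A : Finset (ι → ℝ)) (h : (ι → ℝ) → ℝ) (x y : ι → ℝ) : Prop :=
  ∀ c ∈ A, ∀ d ∈ A, c + d = x + y → h x + h y ≤ h c + h d

/-- The combinatorial shadow of a quadratic triangulation with height function `h`. -/
structure Coherent (A : Finset (ι → ℝ)) (h : (ι → ℝ) → ℝ) : Prop where
  unique2 : ∀ a ∈ A, ∀ b ∈ A, ∀ c ∈ A, ∀ d ∈ A, a + b = c + d → Std A h a b → Std A h c d →
    (c = a ∧ d = b) ∨ (c = b ∧ d = a)
  unique3 : ∀ a₁ ∈ A, ∀ a₂ ∈ A, ∀ a₃ ∈ A, ∀ b₁ ∈ A, ∀ b₂ ∈ A, ∀ b₃ ∈ A,
    a₁ + a₂ + a₃ = b₁ + b₂ + b₃ → Std A h a₁ a₂ → Std A h a₁ a₃ → Std A h a₂ a₃ →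
    Std A h b₁ b₂ → Std A h b₁ b₃ → Std A h b₂ b₃ → b₁ = a₁ ∨ b₁ = a₂ ∨ b₁ = a₃

theorem mem_of_sum2 {h : (ι → ℝ) → ℝ} (hh : InducedBy A T h) {s : Finset (ι → ℝ)} (hs : s ∈ T)
    {x y a b : ι → ℝ} (hx : x ∈ s) (hy : y ∈ s) (ha : a ∈ A) (hb : b ∈ A) (hab : a + b = x + y) :
    h x + h y ≤ h a + h b ∧ (h a + h b ≤ h x + h y → a ∈ s ∧ b ∈ s) := by
  obtain ⟨-, f, c, hle, hmem⟩ := (hh s).mp hs
  have h1 := ((hmem x).mp hx).2
  have h2 := ((hmem y).mp hy).2
  have h3 := hle a ha
  have h4 := hle b hb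
  have h5 : f a + f b = f x + f y := by rw [← map_add, ← map_add, hab]
  refine ⟨by linarith, fun h6 => ⟨(hmem a).mpr ⟨ha, by linarith⟩, (hmem b).mpr ⟨hb, by linarith⟩⟩⟩

theorem mem_of_sum3 {h : (ι → ℝ) → ℝ} (hh : InducedBy A T h) {s : Finset (ι → ℝ)} (hs : s ∈ T)
    {x y z a b c : ι → ℝ} (hx : x ∈ s) (hy : y ∈ s) (hz : z ∈ s) (ha : a ∈ A) (hb : b ∈ A)
    (hc : c ∈ A) (hab : a + b + c = x + y + z) :
    h x + h y + h z ≤ h a + h b + h c ∧
      (h a + h b + h c ≤ h x + h y + h z → a ∈ s ∧ b ∈ s ∧ c ∈ s) := by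
  obtain ⟨-, f, k, hle, hmem⟩ := (hh s).mp hs
  have h1 := ((hmem x).mp hx).2
  have h2 := ((hmem y).mp hy).2
  have h2' := ((hmem z).mp hz).2
  have h3 := hle a ha
  have h4 := hle b hb
  have h4' := hle c hc
  have h5 : f a + f b + f c = f x + f y + f z := by
    rw [← map_add, ← map_add, ← map_add, ← map_add, hab]
  refine ⟨by linarith, fun h6 => ⟨(hmem a).mpr ⟨ha, by linarith⟩, (hmem b).mpr ⟨hb, by linarith⟩,
    (hmem c).mpr ⟨hc, by linarith⟩⟩⟩

/-- If two points `a`, `b` of an affinely independent set have the same sum as two others, then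
they are the same two points. -/
theorem pair_eq {s : Finset (ι → ℝ)} (hs : AffineIndependent ℝ (fun x : s => (x : ι → ℝ)))
    {x y a b : ι → ℝ} (hx : x ∈ s) (hy : y ∈ s) (ha : a ∈ s) (hb : b ∈ s)
    (hab : a + b = x + y) : (a = x ∧ b = y) ∨ (a = y ∧ b = x) := by
  classical
  have h1 := affInd_unique hs (w := fun v => ((if v = a then 1 else 0) + (if v = b then 1 else 0)
      - (if v = x then 1 else 0) - (if v = y then 1 else 0) : ℝ)) ?_ ?_
  · have h2 := h1 a ha
    have h3 := h1 b hb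
    by_cases hax : a = x
    · subst hax
      left
      refine ⟨rfl, ?_⟩
      exact add_left_cancel hab
    · by_cases hay : a = y
      · subst hay
        right
        refine ⟨rfl, ?_⟩
        rw [add_comm x a] at hab
        exact add_left_cancel hab
      · exfalso
        simp only [if_true, if_neg hax, if_neg hay] at h2
        split_ifs at h2 <;> norm_num at h2
  · simp [Finset.sum_add_distrib, Finset.sum_sub_distrib, ha, hb, hx, hy]
  · simp only [sub_smul, add_smul, ite_smul, one_smul, zero_smul, Finset.sum_add_distrib,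
      Finset.sum_sub_distrib]
    rw [Finset.sum_ite_eq' s a, Finset.sum_ite_eq' s b, Finset.sum_ite_eq' s x,
      Finset.sum_ite_eq' s y, if_pos ha, if_pos hb, if_pos hx, if_pos hy, hab]
    abel

theorem face_of_std (hT : IsTriangulation A T) (hU : IsUnimodular A T) {h : (ι → ℝ) → ℝ}
    (hh : InducedBy A T h) [DecidableEq (ι → ℝ)] {x y : ι → ℝ} (hx : x ∈ A) (hy : y ∈ A)
    (hxy : Std A h x y) : {x, y} ∈ T := by
  obtain ⟨s, hs, u, hu, v, hv, huv⟩ := exists_pair hT hU hx hy
  have h1 := hxy u (hT.subset s hs hu) v (hT.subset s hs hv) huv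
  obtain ⟨h2, h3⟩ := mem_of_sum2 hh hs hu hv hx hy huv.symm
  obtain ⟨h4, h5⟩ := h3 h1
  refine hT.down s hs _ ?_ ⟨x, by simp⟩
  intro z hz
  rcases Finset.mem_insert.mp hz with rfl | hz
  · exact h4
  · rw [Finset.mem_singleton.mp hz]
    exact h5

theorem flag3 (hF : IsFlag A T) [DecidableEq (ι → ℝ)] {x y z : ι → ℝ} (hx : x ∈ A) (hy : y ∈ A)
    (hz : z ∈ A) (hT : IsTriangulation A T)
    (h1 : {x, y} ∈ T) (h2 : {x, z} ∈ T) (h3 : {y, z} ∈ T) : {x, y, z} ∈ T := by
  by_contra hcon
  have hsub : ({x, y, z} : Finset (ι → ℝ)) ⊆ A := by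
    intro u hu
    simp only [Finset.mem_insert, Finset.mem_singleton] at hu
    rcases hu with rfl | rfl | rfl <;> assumption
  have hxy : x ≠ y := by
    rintro rfl
    rw [Finset.insert_idem] at hcon
    exact hcon h2
  have hxz : x ≠ z := by
    rintro rfl
    rw [Finset.insert_comm, Finset.pair_eq_singleton] at hcon
    exact hcon h3
  have hyz : y ≠ z := by
    rintro rfl
    rw [Finset.pair_eq_singleton] at hcon
    exact hcon h1
  have hcard : ({x, y, z} : Finset (ι → ℝ)).card = 3 := Finset.card_eq_three.mpr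
    ⟨x, y, z, hxy, hxz, hyz, rfl⟩
  have := hF _ hsub ⟨x, by simp⟩ hcon ?_
  · omega
  · intro t ht htn
    obtain ⟨hts, h5⟩ := Finset.ssubset_iff_subset_ne.mp ht
    obtain ⟨u, hu, hut⟩ : ∃ u ∈ ({x, y, z} : Finset (ι → ℝ)), u ∉ t := by
      by_contra hc
      push Not at hc
      exact h5 (Finset.Subset.antisymm hts hc)
    simp only [Finset.mem_insert, Finset.mem_singleton] at hu
    rcases hu with rfl | rfl | rfl
    · refine hT.down _ h3 t ?_ htn
      intro v hv
      have := hts hv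
      simp only [Finset.mem_insert, Finset.mem_singleton] at this ⊢
      rcases this with rfl | h | h
      · exact absurd hv hut
      · exact Or.inl h
      · exact Or.inr h
    · refine hT.down _ h2 t ?_ htn
      intro v hv
      have := hts hv
      simp only [Finset.mem_insert, Finset.mem_singleton] at this ⊢
      rcases this with h | rfl | h
      · exact Or.inl h
      · exact absurd hv hut
      · exact Or.inr h
    · refine hT.down _ h1 t ?_ htn
      intro v hv
      have := hts hv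
      simp only [Finset.mem_insert, Finset.mem_singleton] at this ⊢
      rcases this with h | h | rfl
      · exact Or.inl h
      · exact Or.inr h
      · exact absurd hv hut

/-- A quadratic triangulation gives a height function that is coherent. -/
theorem exists_coherent (hQ : IsQuadratic A T) : ∃ h : (ι → ℝ) → ℝ, Coherent A h := by
  classical
  obtain ⟨hT, ⟨h, hh⟩, hU, hF⟩ := hQ
  refine ⟨h, ?_, ?_⟩
  · intro a ha b hb c hc d hd hab h1 h2
    have h3 := face_of_std hT hU hh ha hb h1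
    have h4 := h2 a ha b hb hab
    obtain ⟨-, h5⟩ := mem_of_sum2 hh h3 (x := a) (y := b) (by simp) (by simp) hc hd hab.symm
    obtain ⟨h6, h7⟩ := h5 h4
    exact pair_eq (hT.indep _ h3) (by simp) (by simp) h6 h7 hab.symm
  · intro a₁ h₁ a₂ h₂ a₃ h₃ b₁ g₁ b₂ g₂ b₃ g₃ hab s12 s13 s23 t12 t13 t23
    have hs := flag3 hF h₁ h₂ h₃ hT (face_of_std hT hU hh h₁ h₂ s12)
      (face_of_std hT hU hh h₁ h₃ s13) (face_of_std hT hU hh h₂ h₃ s23)
    have ht := flag3 hF g₁ g₂ g₃ hT (face_of_std hT hU hh g₁ g₂ t12)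
      (face_of_std hT hU hh g₁ g₃ t13) (face_of_std hT hU hh g₂ g₃ t23)
    obtain ⟨h4, -⟩ := mem_of_sum3 hh ht (x := b₁) (y := b₂) (z := b₃) (by simp) (by simp)
      (by simp) h₁ h₂ h₃ hab
    obtain ⟨-, h5⟩ := mem_of_sum3 hh hs (x := a₁) (y := a₂) (z := a₃) (by simp) (by simp)
      (by simp) g₁ g₂ g₃ hab.symm
    obtain ⟨h6, -, -⟩ := h5 h4
    simpa using h6

end

end Pool.Agent.Lib.QTri
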