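import Mathlib

/-!
# The matroids `F₇` and `AG(2,3)`

A rank three matroid given by its three point lines; `AG(2,3)` has no minor isomorphic to `F₇` or
to its dual.
-/

namespace Pool.Agent.Lib.QTri

open Finset

section Rank3

variable {α : Type} [Fintype α] [DecidableEq α]

/-- The matroid on `α` whose bases are the three element subsets of `α` that are not lines, where
`L` is a family of three element sets (lines) any two of which share at most one element. -/
def rank3 (L : Finset α → Prop)
    (hL : ∀ p q f f' : α, p ≠ q → f ≠ p → f ≠ q → f' ≠ p → f' ≠ q →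
      L {p, q, f} → L {p, q, f'} → f = f')
    (hB : ∃ S : Finset α, S.card = 3 ∧ ¬ L S) : Matroid α :=
  Matroid.ofIsBaseOfFinite (E := Set.univ) Set.finite_univ
    (fun B => ∃ S : Finset α, (S : Set α) = B ∧ S.card = 3 ∧ ¬ L S)
    (by
      obtain ⟨S, h1, h2⟩ := hB
      exact ⟨S, S, rfl, h1, h2⟩)
    (by
      rintro _ _ ⟨S, rfl, hS, hSL⟩ ⟨S', rfl, hS', hSL'⟩ e ⟨he, he'⟩
      rw [Finset.mem_coe] at he he'
      -- `S \ {e} = {p, q}`
      obtain ⟨p, q, hpq, hpqS⟩ := Finset.card_eq_two.mp
        (show (S.erase e).card = 2 by rw [Finset.card_erase_of_mem he, hS])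
      have hep : e ≠ p := by
        rintro rfl
        have : e ∈ S.erase e := by rw [hpqS]; simp
        simp at this
      have heq : e ≠ q := by
        rintro rfl
        have : e ∈ S.erase e := by rw [hpqS]; simp
        simp at this
      have hSe : S = {e, p, q} := by
        rw [← Finset.insert_erase he, hpqS]
      by_contra hcon
      push Not at hcon
      have hline : ∀ f ∈ S', f ∉ S → L {p, q, f} := by
        intro f hf hfS
        have h1 := hcon f ⟨Finset.mem_coe.mpr hf, fun h => hfS (Finset.mem_coe.mp h)⟩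
        refine h1 {p, q, f} ?_ ?_
        · ext x
          have : f ≠ e := by rintro rfl; exact hfS he
          simp only [Finset.coe_insert, Finset.coe_singleton, Set.mem_insert_iff,
            Set.mem_singleton_iff, Set.mem_sdiff, Finset.mem_coe, hSe, Finset.mem_insert,
            Finset.mem_singleton]
          constructor
          · rintro (rfl | rfl | rfl)
            · exact Or.inr ⟨by simp, fun h => hep h.symm⟩
            · exact Or.inr ⟨by simp, fun h => heq h.symm⟩
            · exact Or.inl rfl
          · rintro (rfl | ⟨rfl | rfl | rfl, h⟩)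
            · simp
            · exact absurd rfl h
            · simp
            · simp
        · rw [Finset.card_eq_three]
          refine ⟨p, q, f, hpq, ?_, ?_, rfl⟩
          · rintro rfl
            exact hfS (by rw [hSe]; simp)
          · rintro rfl
            exact hfS (by rw [hSe]; simp)
      -- there is some `f ∈ S' \ S`
      obtain ⟨f, hf, hfS⟩ : ∃ f ∈ S', f ∉ S := by
        by_contra h
        push Not at h
        have : S' = S := Finset.eq_of_subset_of_card_le h (by rw [hS, hS'])
        exact he' (this ▸ he)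
      have hsub : ∀ x ∈ S', x = p ∨ x = q ∨ x = f := by
        intro x hx
        by_cases hxS : x ∈ S
        · rw [hSe] at hxS
          simp only [Finset.mem_insert, Finset.mem_singleton] at hxS
          rcases hxS with rfl | rfl | rfl
          · exact absurd hx he'
          · exact Or.inl rfl
          · exact Or.inr (Or.inl rfl)
        · right; right
          have hn : ∀ y, y ∉ S → y ≠ p ∧ y ≠ q := by
            intro y hy
            constructor
            · rintro rfl
              exact hy (by rw [hSe]; simp)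
            · rintro rfl
              exact hy (by rw [hSe]; simp)
          exact hL p q x f hpq (hn x hxS).1 (hn x hxS).2 (hn f hfS).1 (hn f hfS).2
            (hline x hx hxS) (hline f hf hfS)
      have hS'eq : S' = {p, q, f} := by
        apply Finset.eq_of_subset_of_card_le
        · intro x hx
          simpa using hsub x hx
        · rw [hS']
          exact Finset.card_le_three
      exact hSL' (hS'eq ▸ hline f hf hfS))
    (fun _ _ => Set.subset_univ _)

variable {L : Finset α → Prop}
    {hL : ∀ p q f f' : α, p ≠ q → f ≠ p → f ≠ q → f' ≠ p → f' ≠ q →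
      L {p, q, f} → L {p, q, f'} → f = f'}
    {hB : ∃ S : Finset α, S.card = 3 ∧ ¬ L S}

theorem rank3_isBase (B : Set α) : (rank3 L hL hB).IsBase B ↔
    ∃ S : Finset α, (S : Set α) = B ∧ S.card = 3 ∧ ¬ L S := Iff.rfl

@[simp] theorem rank3_E : (rank3 L hL hB).E = Set.univ := rfl

theorem rank3_indep_card {X : Finset α} (h : (rank3 L hL hB).Indep X) : X.card ≤ 3 := by
  obtain ⟨B, hB', hXB⟩ := h.exists_isBase_superset
  obtain ⟨S, rfl, h1, h2⟩ := (rank3_isBase _).mp hB'
  rw [← h1]
  exact Finset.card_le_card (Finset.coe_subset.mp hXB)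

theorem rank3_indep_three {X : Finset α} (hX : X.card = 3) :
    (rank3 L hL hB).Indep X ↔ ¬ L X := by
  constructor
  · intro h
    obtain ⟨B, hB', hXB⟩ := h.exists_isBase_superset
    obtain ⟨S, rfl, h1, h2⟩ := (rank3_isBase _).mp hB'
    rwa [Finset.eq_of_subset_of_card_le (Finset.coe_subset.mp hXB) (by rw [h1, hX])]
  · intro h
    exact ((rank3_isBase _).mpr ⟨X, rfl, hX, h⟩).indep

end Rank3

/-- The Fano matroid `F₇`: the seven points are `0, …, 6`, the lines are `{i, i + 1, i + 3}`
modulo `7`. -/
def F7 : Matroid (Fin 7) :=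
  rank3 (fun S => ∃ i : Fin 7, S = {i, i + 1, i + 3}) (by decide +kernel) ⟨{0, 1, 2}, by decide⟩

/-- The affine plane `AG(2,3)` of order three: three distinct points of `𝔽₃²` are collinear if and
only if their sum is `0`. -/
def AG23 : Matroid (ZMod 3 × ZMod 3) :=
  rank3 (fun S => ∑ x ∈ S, x = 0)
    (by
      intro p q f f' hpq h1 h2 h3 h4 h5 h6
      rw [Finset.sum_insert (by simp [hpq, h1.symm]), Finset.sum_pair h2.symm] at h5
      rw [Finset.sum_insert (by simp [hpq, h3.symm]), Finset.sum_pair h4.symm] at h6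
      rw [← h6] at h5
      exact add_left_cancel (add_left_cancel h5))
    ⟨{(0, 0), (0, 1), (1, 0)}, by decide⟩

/-- `M` has a minor isomorphic to `N`. -/
def HasMinor {α β : Type} (M : Matroid α) (N : Matroid β) : Prop :=
  ∃ (f : β → α) (hf : Set.InjOn f N.E), (N.map f hf).IsMinor M

theorem AG23_indep_three {X : Finset (ZMod 3 × ZMod 3)} (hX : X.card = 3) :
    AG23.Indep X ↔ ∑ x ∈ X, x ≠ 0 := rank3_indep_three hX

theorem AG23_no_loop (x : ZMod 3 × ZMod 3) : AG23.IsNonloop x := by
  have h : ∀ x : ZMod 3 × ZMod 3, ∃ y z, y ≠ x ∧ z ≠ x ∧ y ≠ z ∧ x + (y + z) ≠ 0 := by decide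
  obtain ⟨y, z, h1, h2, h3, h4⟩ := h x
  have h5 : AG23.Indep (({x, y, z} : Finset (ZMod 3 × ZMod 3)) : Set (ZMod 3 × ZMod 3)) := by
    rw [AG23_indep_three (Finset.card_eq_three.mpr ⟨x, y, z, h1.symm, h2.symm, h3, rfl⟩),
      Finset.sum_insert (by simp [h1.symm, h2.symm]), Finset.sum_pair h3]
    exact h4
  exact h5.isNonloop_of_mem (by simp)

/-- `AG(2,3)` has no minor isomorphic to the dual of the Fano matroid. -/
theorem AG23_no_F7_dual : ¬ HasMinor AG23 F7✶ := by
  rintro ⟨f, hf, hm⟩
  have hinj : Function.Injective f := by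
    intro a b hab
    exact hf (by simp [F7]) (by simp [F7]) hab
  -- the complement of `{0, 1, 2}` is a basis of the dual
  have hb : F7.IsBase (({0, 1, 2} : Finset (Fin 7)) : Set (Fin 7)) :=
    (rank3_isBase _).mpr ⟨_, rfl, by decide, by decide⟩
  have h1 : F7✶.Indep (({3, 4, 5, 6} : Finset (Fin 7)) : Set (Fin 7)) := by
    have h2 : F7✶.IsBase (F7.E \ (({0, 1, 2} : Finset (Fin 7)) : Set (Fin 7))) :=
      hb.compl_isBase_dual
    refine h2.indep.subset ?_
    intro x hx
    refine ⟨by simp [F7], ?_⟩
    rw [Finset.mem_coe] at hx ⊢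
    revert x
    decide
  have h3 : (F7✶.map f hf).Indep (f '' (({3, 4, 5, 6} : Finset (Fin 7)) : Set (Fin 7))) :=
    h1.map f hf
  have h4 := h3.of_isMinor hm
  rw [← Finset.coe_image] at h4
  have h5 := rank3_indep_card h4
  rw [Finset.card_image_of_injective _ hinj] at h5
  exact absurd h5 (by decide)

/-- `AG(2,3)` has no minor isomorphic to the Fano matroid. -/
theorem AG23_no_F7 : ¬ HasMinor AG23 F7 := by
  rintro ⟨f, hf, hm⟩
  have hinj : Function.Injective f := by
    intro a b hab
    exact hf (by simp [F7]) (by simp [F7]) hab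
  have hm' := hm
  obtain ⟨C, D, hC, hD, hCD, hN⟩ := hm.exists_eq_contract_delete_disjoint
  -- nothing is contracted
  have hC0 : C = ∅ := by
    by_contra hne
    obtain ⟨c, hc⟩ := Set.nonempty_iff_ne_empty.mpr hne
    have hb : F7.Indep (({0, 1, 2} : Finset (Fin 7)) : Set (Fin 7)) :=
      ((rank3_isBase _).mpr ⟨_, rfl, by decide, by decide⟩ : F7.IsBase _).indep
    have h3 := hb.map f hf
    rw [hN, Matroid.delete_indep_iff] at h3
    obtain ⟨I, hI, hcI⟩ := (AG23_no_loop c).indep.subset_isBasis'_of_subset
      (Set.singleton_subset_iff.mpr hc)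
    rw [hI.contract_indep_iff] at h3
    obtain ⟨⟨h5, h6⟩, -⟩ := h3
    have h7 : AG23.Indep ((insert c (({0, 1, 2} : Finset (Fin 7)).image f) :
        Finset (ZMod 3 × ZMod 3)) : Set (ZMod 3 × ZMod 3)) := by
      refine h5.subset ?_
      intro x hx
      rw [Finset.mem_coe, Finset.mem_insert] at hx
      rcases hx with rfl | hx
      · exact Or.inr (hcI rfl)
      · left
        rw [← Finset.coe_image]
        exact hx
    have h8 := rank3_indep_card h7
    rw [Finset.card_insert_of_notMem, Finset.card_image_of_injective _ hinj] at h8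
    · exact absurd h8 (by decide)
    · intro hcx
      refine Set.disjoint_left.mp h6 hc ?_
      rw [← Finset.coe_image]
      exact hcx
  subst hC0
  rw [Matroid.contract_empty] at hN
  have hline : ∀ a b c : Fin 7, a ≠ b → a ≠ c → b ≠ c →
      (∃ i : Fin 7, {a, b, c} = ({i, i + 1, i + 3} : Finset (Fin 7))) → f a + f b + f c = 0 := by
    intro a b c hab hac hbc hi
    by_contra hcon
    have h1 : AG23.Indep ((({a, b, c} : Finset (Fin 7)).image f :
        Finset (ZMod 3 × ZMod 3)) : Set (ZMod 3 × ZMod 3)) := by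
      rw [AG23_indep_three]
      · rw [Finset.sum_image fun x _ y _ h => hinj h, Finset.sum_insert (by simp [hab, hac]),
          Finset.sum_pair hbc, ← add_assoc]
        exact hcon
      · rw [Finset.card_image_of_injective _ hinj]
        exact Finset.card_eq_three.mpr ⟨a, b, c, hab, hac, hbc, rfl⟩
    have h2 : (F7.map f hf).Indep (f '' (({a, b, c} : Finset (Fin 7)) : Set (Fin 7))) := by
      rw [hN, Matroid.delete_indep_iff]
      rw [Finset.coe_image] at h1
      refine ⟨h1, ?_⟩
      have h3 : f '' (({a, b, c} : Finset (Fin 7)) : Set (Fin 7)) ⊆ (F7.map f hf).E := by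
        rw [Matroid.map_ground]
        exact Set.image_mono (by simp [F7])
      rw [hN] at h3
      exact Set.disjoint_left.mpr fun x hx hxD => (h3 hx).2 hxD
    rw [Matroid.map_image_indep_iff (by simp [F7])] at h2
    have h4 : ({a, b, c} : Finset (Fin 7)).card = 3 :=
      Finset.card_eq_three.mpr ⟨a, b, c, hab, hac, hbc, rfl⟩
    exact (rank3_indep_three h4).mp h2 hi
  have l0 := hline 0 1 3 (by decide) (by decide) (by decide) ⟨0, by decide⟩
  have l1 := hline 1 2 4 (by decide) (by decide) (by decide) ⟨1, by decide⟩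
  have l2 := hline 2 3 5 (by decide) (by decide) (by decide) ⟨2, by decide⟩
  have l4 := hline 4 5 0 (by decide) (by decide) (by decide) ⟨4, by decide⟩
  have h3 : ∀ x : ZMod 3 × ZMod 3, x + x + x = 0 := by decide
  have h02 : f 0 = f 2 := by
    -- `f 3 = - f 0 - f 1`, `f 4 = - f 1 - f 2`, `f 5 = - f 2 - f 3`
    have e3 : f 3 = - f 0 - f 1 := by
      rw [eq_sub_iff_add_eq, eq_neg_iff_add_eq_zero, ← l0]; abel
    have e4 : f 4 = - f 1 - f 2 := by
      rw [eq_sub_iff_add_eq, eq_neg_iff_add_eq_zero, ← l1]; abel
    have e5 : f 5 = - f 2 - f 3 := by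
      rw [eq_sub_iff_add_eq, eq_neg_iff_add_eq_zero, ← l2]; abel
    rw [e4, e5, e3] at l4
    have h4 := h3 (f 0)
    have h5 := h3 (f 2)
    have h6 : f 0 - f 2 = 0 := by
      have : f 0 - f 2 = (f 0 + f 0 + f 0) - (f 2 + f 2 + f 2)
          - ((- f 1 - f 2) + (- f 2 - (- f 0 - f 1)) + f 0) := by abel
      rw [this, h4, h5, l4]
      simp
    exact sub_eq_zero.mp h6
  exact absurd (hinj h02) (by decide)

end Pool.Agent.Lib.QTri
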