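import Pool.Agent.Lib.QTri.Check

/-!
# Soundness of the propositional part of the checker
-/

namespace Pool.Agent.Lib.QTri

/-- The literal `l` is true under the valuation `V`. -/
def LT (V : ℕ → Prop) (l : ℕ) : Prop := if l % 2 = 0 then V (l / 2) else ¬ V (l / 2)

/-- The clause with mask `H` is true. -/
def CT (V : ℕ → Prop) (H : ℕ) : Prop := ∃ l, H.testBit l = true ∧ LT V l

/-- All the literals in the mask `F` are false. -/
def FF (V : ℕ → Prop) (F : ℕ) : Prop := ∀ l, F.testBit l = true → ¬ LT V l

/-- The mask `G` of positive literals describes a set of variables, exactly one of which is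
true. -/
def FibOK (V : ℕ → Prop) (G : ℕ) : Prop :=
  (∃ u, G.testBit (2 * u) = true ∧ V u) ∧
  (∀ u u', G.testBit (2 * u) = true → G.testBit (2 * u') = true → V u → V u' → u = u') ∧
  ∀ l, G.testBit l = true → l % 2 = 0

/-- The option coded by `o` is true. -/
def OT (V : ℕ → Prop) (o : ℕ) : Prop :=
  V (o &&& 2047) ∧ V ((o >>> 11) &&& 2047) ∧ V ((o >>> 22) &&& 2047)

variable {V : ℕ → Prop}

theorem LT_even (u : ℕ) : LT V (2 * u) ↔ V u := by
  unfold LT
  rw [if_pos (by omega)]
  rw [show 2 * u / 2 = u by omega]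

theorem LT_odd (u : ℕ) : LT V (2 * u + 1) ↔ ¬ V u := by
  unfold LT
  rw [if_neg (by omega)]
  rw [show (2 * u + 1) / 2 = u by omega]

theorem FF_lor {F G : ℕ} : FF V (Nat.lor F G) ↔ FF V F ∧ FF V G := by
  constructor
  · intro h
    refine ⟨fun l hl => h l ?_, fun l hl => h l ?_⟩
    · change (F ||| G).testBit l = true
      rw [Nat.testBit_or, hl, Bool.true_or]
    · change (F ||| G).testBit l = true
      rw [Nat.testBit_or, hl, Bool.or_true]
  · rintro ⟨h1, h2⟩ l hl
    change (F ||| G).testBit l = true at hl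
    rw [Nat.testBit_or, Bool.or_eq_true] at hl
    rcases hl with hl | hl
    · exact h1 l hl
    · exact h2 l hl

theorem beq_true {a b : ℕ} (h : Nat.beq a b = true) : a = b := Nat.eq_of_beq_eq_true h

theorem beq_false {a b : ℕ} (h : Nat.beq a b = false) : a ≠ b := Nat.ne_of_beq_eq_false h

/-- A number with `R &&& (R - 1) = 0` has at most one bit. -/
theorem pow_of_land {R : ℕ} (h0 : R ≠ 0) (h : R &&& (R - 1) = 0) : ∃ k, R = 2 ^ k := by
  induction R using Nat.strong_induction_on with
  | _ R ih =>
    rcases Nat.even_or_odd' R with ⟨m, rfl | rfl⟩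
    · obtain ⟨k, hk⟩ := ih m (by omega) (by omega) (by
        apply Nat.eq_of_testBit_eq
        intro i
        have h1 := congrArg (fun x => x.testBit (i + 1)) h
        simp only [Nat.testBit_and, Nat.zero_testBit] at h1 ⊢
        rw [Nat.testBit_succ, Nat.testBit_succ, show 2 * m / 2 = m by omega,
          show (2 * m - 1) / 2 = m - 1 by omega] at h1
        exact h1)
      exact ⟨k + 1, by rw [hk, pow_succ]; ring⟩
    · refine ⟨0, ?_⟩
      have : m = 0 := by
        apply Nat.eq_of_testBit_eq
        intro i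
        have h1 := congrArg (fun x => x.testBit (i + 1)) h
        simp only [Nat.testBit_and, Nat.zero_testBit] at h1 ⊢
        rw [Nat.testBit_succ, Nat.testBit_succ, show (2 * m + 1) / 2 = m by omega,
          show (2 * m + 1 - 1) / 2 = m by omega, Bool.and_self] at h1
        exact h1
      subst this
      rfl

theorem FF_pow {k : ℕ} (h : ¬ LT V k) : FF V (2 ^ k) := by
  intro l hl
  rw [Nat.testBit_two_pow] at hl
  rw [decide_eq_true_eq] at hl
  exact hl ▸ h

theorem evenMask_bit (i : ℕ) (h : evenMask.testBit i = true) : i % 2 = 0 := by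
  have h1 : ∀ j < 1100, evenMask.testBit (2 * j + 1) = false := by
    decide +kernel
  by_contra h2
  obtain ⟨j, rfl⟩ : ∃ j, i = 2 * j + 1 := ⟨i / 2, by omega⟩
  by_cases h3 : j < 1100
  · rw [h1 j h3] at h
    exact Bool.noConfusion h
  · have : evenMask < 2 ^ (2 * j + 1) := by
      calc evenMask < 2 ^ 2200 := by decide +kernel
        _ ≤ 2 ^ (2 * j + 1) := Nat.pow_le_pow_right (by norm_num) (by omega)
    rw [Nat.testBit_lt_two_pow this] at h
    exact Bool.noConfusion h

theorem oddMask_bit (i : ℕ) (h : oddMask.testBit i = true) : i % 2 = 1 := by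
  have h1 : ∀ j < 1100, oddMask.testBit (2 * j) = false := by
    decide +kernel
  by_contra h2
  obtain ⟨j, rfl⟩ : ∃ j, i = 2 * j := ⟨i / 2, by omega⟩
  by_cases h3 : j < 1100
  · rw [h1 j h3] at h
    exact Bool.noConfusion h
  · have : oddMask < 2 ^ (2 * j) := by
      calc oddMask < 2 ^ 2200 := by decide +kernel
        _ ≤ 2 ^ (2 * j) := Nat.pow_le_pow_right (by norm_num) (by omega)
    rw [Nat.testBit_lt_two_pow this] at h
    exact Bool.noConfusion h

theorem bit_of_land {k M : ℕ} (h : Nat.beq (Nat.land (2 ^ k) M) 0 = false) :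
    M.testBit k = true := by
  by_contra hcon
  apply beq_false h
  apply Nat.eq_of_testBit_eq
  intro i
  change (2 ^ k &&& M).testBit i = _
  rw [Nat.testBit_and, Nat.testBit_two_pow, Nat.zero_testBit]
  by_cases hi : k = i
  · subst hi
    rw [Bool.and_eq_false_iff]
    right
    simpa using hcon
  · rw [decide_eq_false hi, Bool.false_and]

/-- The clause step. -/
theorem stepC_sound {ih : ℕ → ℕ → Bool} {hs F H : ℕ} (hH : CT V H) (hF : FF V F)
    (hih : ∀ F', ih hs F' = true → ¬ FF V F')
    (h : stepC ih hs F (Nat.xor H (Nat.land H F)) = true) : False := by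
  obtain ⟨l, hl, hlt⟩ := hH
  set R := Nat.xor H (Nat.land H F) with hR
  have hRl : R.testBit l = true := by
    change (H ^^^ (H &&& F)).testBit l = true
    rw [Nat.testBit_xor, Nat.testBit_and, hl]
    cases hFl : F.testBit l
    · rfl
    · exact absurd hlt (hF l hFl)
  have hR0 : R ≠ 0 := by
    intro h0
    rw [h0, Nat.zero_testBit] at hRl
    exact Bool.noConfusion hRl
  unfold stepC at h
  cases h1 : Nat.beq R 0
  · rw [h1, cond_false] at h
    cases h2 : Nat.beq (Nat.land R (Nat.sub R 1)) 0
    · rw [h2, cond_false] at h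
      exact Bool.noConfusion h
    · rw [h2, cond_true] at h
      obtain ⟨k, hk⟩ := pow_of_land hR0 (beq_true h2)
      have hkl : k = l := by
        rw [hk, Nat.testBit_two_pow, decide_eq_true_eq] at hRl
        exact hRl
      subst hkl
      cases h3 : Nat.beq (Nat.land R evenMask) 0
      · rw [h3, cond_false] at h
        refine hih _ h (FF_lor.mpr ⟨hF, ?_⟩)
        rw [hk] at h3
        have hke : k % 2 = 0 := evenMask_bit _ (bit_of_land h3)
        change FF V (R <<< 1)
        rw [hk, Nat.shiftLeft_eq, ← pow_add]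
        apply FF_pow
        obtain ⟨u, rfl⟩ : ∃ u, k = 2 * u := ⟨k / 2, by omega⟩
        rw [LT_even] at hlt
        rw [LT_odd, not_not]
        exact hlt
      · rw [h3, cond_true] at h
        cases h4 : Nat.beq (Nat.land R oddMask) 0
        · rw [h4, cond_false] at h
          refine hih _ h (FF_lor.mpr ⟨hF, ?_⟩)
          rw [hk] at h4
          have hko : k % 2 = 1 := oddMask_bit _ (bit_of_land h4)
          change FF V (R >>> 1)
          obtain ⟨u, rfl⟩ : ∃ u, k = 2 * u + 1 := ⟨k / 2, by omega⟩
          rw [hk, Nat.shiftRight_eq_div_pow, pow_succ, pow_one,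
            Nat.mul_div_cancel _ (by norm_num)]
          apply FF_pow
          rw [LT_odd] at hlt
          rw [LT_even]
          exact hlt
        · rw [h4, cond_true] at h
          exact Bool.noConfusion h
  · exact hR0 (beq_true h1)

theorem land_one_beq {x : ℕ} (h : Nat.beq (Nat.land x 1) 0 = false) : x.testBit 0 = true := by
  have h1 := beq_false h
  change x &&& 1 ≠ 0 at h1
  rw [Nat.and_one_is_mod] at h1
  rw [Nat.testBit_zero]
  simp
  omega

theorem stepA_sound {ih : ℕ → ℕ → Bool} {hs F G v : ℕ} (hG : FibOK V G) (hF : FF V F)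
    (hih : ∀ F', ih hs F' = true → ¬ FF V F')
    (h : stepA ih hs F G v = true) : False := by
  unfold stepA at h
  cases h1 : Nat.beq (Nat.land (Nat.land (Nat.shiftRight F (Nat.add (Nat.mul 2 v) 1))
      (Nat.shiftRight G (Nat.mul 2 v))) 1) 0
  · rw [h1, cond_false] at h
    have h2 := land_one_beq h1
    change ((F >>> (2 * v + 1)) &&& (G >>> (2 * v))).testBit 0 = true at h2
    rw [Nat.testBit_and, Nat.testBit_shiftRight, Nat.testBit_shiftRight, Bool.and_eq_true,
      add_zero, add_zero] at h2
    have hv : V v := by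
      have := hF _ h2.1
      rw [LT_odd, not_not] at this
      exact this
    refine hih _ h (FF_lor.mpr ⟨hF, ?_⟩)
    intro l hl
    change (G ^^^ (1 <<< (2 * v))).testBit l = true at hl
    rw [Nat.testBit_xor, Nat.shiftLeft_eq, one_mul, Nat.testBit_two_pow] at hl
    by_cases hlv : 2 * v = l
    · subst hlv
      rw [h2.2, decide_eq_true rfl] at hl
      exact Bool.noConfusion hl
    · rw [decide_eq_false hlv, Bool.xor_false] at hl
      have hle := hG.2.2 l hl
      obtain ⟨u, rfl⟩ : ∃ u, l = 2 * u := ⟨l / 2, by omega⟩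
      rw [LT_even]
      intro hu
      exact hlv (by rw [hG.2.1 v u h2.2 hl hv hu])
  · rw [h1, cond_true] at h
    exact Bool.noConfusion h

theorem optMask_bit {o l : ℕ} (h : (optMask o).testBit l = true) :
    l = 2 * (o &&& 2047) ∨ l = 2 * ((o >>> 11) &&& 2047) ∨ l = 2 * ((o >>> 22) &&& 2047) := by
  unfold optMask at h
  change (1 <<< (2 * (o &&& 2047)) ||| (1 <<< (2 * ((o >>> 11) &&& 2047)) |||
    1 <<< (2 * ((o >>> 22) &&& 2047)))).testBit l = true at h
  simp only [Nat.testBit_or, Nat.shiftLeft_eq, one_mul, Nat.testBit_two_pow, Bool.or_eq_true,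
    decide_eq_true_eq] at h
  tauto

theorem optMask_pos (o : ℕ) : optMask o ≠ 0 := by
  intro h
  have : (optMask o).testBit (2 * (o &&& 2047)) = true := by
    unfold optMask
    change (1 <<< (2 * (o &&& 2047)) ||| (1 <<< (2 * ((o >>> 11) &&& 2047)) |||
      1 <<< (2 * ((o >>> 22) &&& 2047)))).testBit (2 * (o &&& 2047)) = true
    simp only [Nat.testBit_or, Nat.shiftLeft_eq, one_mul, Nat.testBit_two_pow, Bool.or_eq_true,
      decide_eq_true_eq]
    tauto
  rw [h, Nat.zero_testBit] at this
  exact Bool.noConfusion this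

/-- A true option is not excluded. -/
theorem alive_of_OT {o F : ℕ} (ho : OT V o) (hF : FF V F) : Nat.land (optMask o) F = 0 := by
  apply Nat.eq_of_testBit_eq
  intro l
  change (optMask o &&& F).testBit l = _
  rw [Nat.testBit_and, Nat.zero_testBit]
  cases h : (optMask o).testBit l
  · rfl
  · rw [Bool.true_and]
    cases h2 : F.testBit l
    · rfl
    · exfalso
      apply hF l h2
      rcases optMask_bit h with rfl | rfl | rfl <;> rw [LT_even]
      · exact ho.1
      · exact ho.2.1
      · exact ho.2.2

theorem FF_opt {o : ℕ} (ho : OT V o) : FF V (Nat.shiftLeft (optMask o) 1) := by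
  intro l hl
  change ((optMask o) <<< 1).testBit l = true at hl
  rw [Nat.testBit_shiftLeft] at hl
  simp only [ge_iff_le, Bool.and_eq_true, decide_eq_true_eq] at hl
  obtain ⟨h1, h2⟩ := hl
  have key : ∀ u, V u → l - 1 = 2 * u → ¬ LT V l := by
    intro u hu hlu
    rw [show l = 2 * u + 1 by omega, LT_odd, not_not]
    exact hu
  rcases optMask_bit h2 with h3 | h3 | h3
  · exact key _ ho.1 h3
  · exact key _ ho.2.1 h3
  · exact key _ ho.2.2 h3

theorem alive_nil (F acc : ℕ) : alive F [] acc = acc := rfl

theorem alive_cons (F o : ℕ) (L : List ℕ) (acc : ℕ) : alive F (o :: L) acc =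
    cond (Nat.beq (Nat.land (optMask o) F) 0)
      (cond (Nat.beq acc 0) (alive F L (optMask o)) 1) (alive F L acc) := rfl

/-- If `acc` is already there, then no further option is alive, or the result is `1`. -/
theorem alive_acc {F acc : ℕ} (hacc : acc ≠ 0) : ∀ L : List ℕ, alive F L acc = 1 ∨
    (alive F L acc = acc ∧ ∀ o ∈ L, Nat.land (optMask o) F ≠ 0) := by
  intro L
  induction L with
  | nil => exact Or.inr ⟨rfl, fun o ho => absurd ho (List.not_mem_nil)⟩
  | cons o L ih =>
    rw [alive_cons]
    cases h : Nat.beq (Nat.land (optMask o) F) 0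
    · rw [cond_false]
      rcases ih with h1 | ⟨h1, h2⟩
      · exact Or.inl h1
      · right
        refine ⟨h1, fun o' ho' => ?_⟩
        rcases List.mem_cons.mp ho' with rfl | ho'
        · exact beq_false h
        · exact h2 o' ho'
    · rw [cond_true]
      have : Nat.beq acc 0 = false := by
        cases h3 : Nat.beq acc 0
        · rfl
        · exact absurd (beq_true h3) hacc
      rw [this, cond_false]
      exact Or.inl rfl

theorem alive_spec {F : ℕ} (hF : FF V F) : ∀ L : List ℕ, (∃ o ∈ L, OT V o) →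
    alive F L 0 = 1 ∨ ∃ o, OT V o ∧ alive F L 0 = optMask o := by
  intro L
  induction L with
  | nil =>
    rintro ⟨o, ho, -⟩
    exact absurd ho (List.not_mem_nil)
  | cons o L ih =>
    rintro ⟨o', ho', hot⟩
    rw [alive_cons]
    cases h : Nat.beq (Nat.land (optMask o) F) 0
    · rw [cond_false]
      apply ih
      refine ⟨o', ?_, hot⟩
      rcases List.mem_cons.mp ho' with rfl | ho'
      · exact absurd (alive_of_OT hot hF) (beq_false h)
      · exact ho'
    · rw [cond_true, show Nat.beq 0 0 = true from rfl, cond_true]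
      rcases alive_acc (F := F) (optMask_pos o) L with h1 | ⟨h1, h2⟩
      · exact Or.inl h1
      · right
        rcases List.mem_cons.mp ho' with rfl | ho'
        · exact ⟨o', hot, h1⟩
        · exact absurd (alive_of_OT hot hF) (h2 o' ho')

theorem stepF_sound {ih : ℕ → ℕ → Bool} {hs F : ℕ} {L : List ℕ} (hL : ∃ o ∈ L, OT V o)
    (hF : FF V F) (hih : ∀ F', ih hs F' = true → ¬ FF V F')
    (h : stepF ih hs F (alive F L 0) = true) : False := by
  unfold stepF at h
  rcases alive_spec hF L hL with h1 | ⟨o, ho, h1⟩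
  · rw [h1] at h
    exact Bool.noConfusion h
  · rw [h1] at h
    cases h2 : Nat.beq (optMask o) 0
    · rw [h2, cond_false] at h
      cases h3 : Nat.beq (optMask o) 1
      · rw [h3, cond_false] at h
        exact hih _ h (FF_lor.mpr ⟨hF, FF_opt ho⟩)
      · rw [h3, cond_true] at h
        exact Bool.noConfusion h
    · exact optMask_pos o (beq_true h2)

theorem CT_of_FibOK {G : ℕ} (h : FibOK V G) : CT V G := by
  obtain ⟨⟨u, hu, hV⟩, -⟩ := h
  exact ⟨2 * u, hu, (LT_even u).mpr hV⟩

theorem run_zero (db f2 f3 : BT) (k h F : ℕ) : run db f2 f3 k 0 h F = false := rfl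

theorem run_succ (db f2 f3 : BT) (k fuel h F : ℕ) : run db f2 f3 k (fuel + 1) h F =
      cond (Nat.beq (Nat.land h 1) 0)
        (cond (Nat.beq (Nat.land h 2) 0)
          (cond (Nat.ble k (Nat.land (Nat.shiftRight h 2) 16383)) false
            (stepC (run db f2 f3 k fuel) (Nat.shiftRight h 16) F
              (Nat.xor (mk 100 (db.get (Nat.land (Nat.shiftRight h 2) 16383)))
                (Nat.land (mk 100 (db.get (Nat.land (Nat.shiftRight h 2) 16383))) F))))
          (stepA (run db f2 f3 k fuel) (Nat.shiftRight h 16) F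
            (fibMask (f2.get (Nat.land (Nat.shiftRight h 2) 16383)))
            (Nat.land (Nat.shiftRight h 2) 16383)))
        (cond (Nat.beq (Nat.land h 2) 0)
          (stepF (run db f2 f3 k fuel) (Nat.shiftRight h 16) F
            (alive F (unp 33 100 (f3.get (Nat.land (Nat.shiftRight h 2) 16383))) 0))
          (stepC (run db f2 f3 k fuel) (Nat.shiftRight h 16) F
            (Nat.xor (fibMask (f2.get (Nat.land (Nat.shiftRight h 2) 16383)))
              (Nat.land (fibMask (f2.get (Nat.land (Nat.shiftRight h 2) 16383))) F)))) := rfl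

theorem run_sound {db f2 f3 : BT} {k : ℕ} (hdb : ∀ j < k, CT V (mk 100 (db.get j)))
    (h2 : ∀ i, FibOK V (fibMask (f2.get i)))
    (h3 : ∀ i, ∃ o ∈ unp 33 100 (f3.get i), OT V o) :
    ∀ fuel h F, run db f2 f3 k fuel h F = true → ¬ FF V F := by
  intro fuel
  induction fuel with
  | zero =>
    intro h F hr
    rw [run_zero] at hr
    exact Bool.noConfusion hr
  | succ fuel ih =>
    intro h F hr hF
    rw [run_succ] at hr
    generalize Nat.land (Nat.shiftRight h 2) 16383 = i at hr
    have hih : ∀ F', run db f2 f3 k fuel (Nat.shiftRight h 16) F' = true → ¬ FF V F' :=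
      fun F' => ih _ F'
    cases hb1 : Nat.beq (Nat.land h 1) 0 <;> cases hb2 : Nat.beq (Nat.land h 2) 0 <;>
      simp only [hb1, hb2, cond_true, cond_false] at hr
    · exact stepC_sound (CT_of_FibOK (h2 i)) hF hih hr
    · exact stepF_sound (h3 i) hF hih hr
    · exact stepA_sound (h2 i) hF hih hr
    · cases hb3 : Nat.ble k i
      · rw [hb3, cond_false] at hr
        have : i < k := by
          by_contra hc
          rw [Nat.ble_eq_true_of_le (not_lt.mp hc)] at hb3
          exact Bool.noConfusion hb3
        exact stepC_sound (hdb i this) hF hih hr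
      · rw [hb3, cond_true] at hr
        exact Bool.noConfusion hr

/-- A learned clause. -/
theorem learned_sound {db f2 f3 : BT} {k : ℕ} (hdb : ∀ j < k, CT V (mk 100 (db.get j)))
    (h2 : ∀ i, FibOK V (fibMask (f2.get i)))
    (h3 : ∀ i, ∃ o ∈ unp 33 100 (f3.get i), OT V o) {fuel h M : ℕ}
    (hr : run db f2 f3 k fuel h M = true) : CT V M := by
  by_contra hcon
  apply run_sound hdb h2 h3 fuel h M hr
  intro l hl hlt
  exact hcon ⟨l, hl, hlt⟩

end Pool.Agent.Lib.QTri
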