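import Pool.Agent.Lib.QTri.Defs

/-!
# Semantics of standard pairs on four legs
-/

namespace Pool.Agent.Lib.QTri

attribute [local irreducible] masks

/-! ### Bitwise facts about `Same2` and `Same3` -/

theorem Same2.refl (a b : ℕ) : Same2 a b a b := ⟨rfl, rfl⟩

theorem Same2.swap (a b : ℕ) : Same2 a b b a := ⟨Nat.land_comm a b, Nat.lor_comm a b⟩

theorem Same2.symm {a b c d : ℕ} (h : Same2 a b c d) : Same2 c d a b := ⟨h.1.symm, h.2.symm⟩

theorem Same2.trans {a b c d e f : ℕ} (h : Same2 a b c d) (h' : Same2 c d e f) :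
    Same2 a b e f := ⟨h.1.trans h'.1, h.2.trans h'.2⟩

theorem Same3.refl (a b c : ℕ) : Same3 a b c a b c := ⟨rfl, rfl⟩

theorem Same3.symm {a b c a' b' c' : ℕ} (h : Same3 a b c a' b' c') : Same3 a' b' c' a b c :=
  ⟨h.1.symm, h.2.symm⟩

theorem Same3.trans {a b c a' b' c' a'' b'' c'' : ℕ} (h : Same3 a b c a' b' c')
    (h' : Same3 a' b' c' a'' b'' c'') : Same3 a b c a'' b'' c'' :=
  ⟨h.1.trans h'.1, h.2.trans h'.2⟩

theorem Same3.of_perm {a b c a' b' c' : ℕ} (h : List.Perm [a, b, c] [a', b', c']) :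
    Same3 a b c a' b' c' := by
  have key : ∀ l l' : List ℕ, List.Perm l l' → ∀ a b c a' b' c' : ℕ, l = [a, b, c] →
      l' = [a', b', c'] → ∀ i : ℕ,
      ((a.testBit i ^^ b.testBit i ^^ c.testBit i) = (a'.testBit i ^^ b'.testBit i ^^ c'.testBit i) ∧
        ((a.testBit i && b.testBit i) || (a.testBit i && c.testBit i) || (b.testBit i && c.testBit i)) =
        ((a'.testBit i && b'.testBit i) || (a'.testBit i && c'.testBit i) ||
          (b'.testBit i && c'.testBit i))) := by
    intro l l' hl a b c a' b' c' h1 h2 i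
    have h3 := (hl.map (fun m : ℕ => m.testBit i)).count_eq true
    rw [h1, h2] at h3
    simp only [List.map_cons, List.map_nil, List.count_cons, List.count_nil] at h3
    revert h3
    generalize a.testBit i = x
    generalize b.testBit i = y
    generalize c.testBit i = z
    generalize a'.testBit i = x'
    generalize b'.testBit i = y'
    generalize c'.testBit i = z'
    revert x y z x' y' z'
    decide
  constructor
  · apply Nat.eq_of_testBit_eq
    intro i
    simp only [Nat.testBit_xor]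
    exact (key _ _ h _ _ _ _ _ _ rfl rfl i).1
  · apply Nat.eq_of_testBit_eq
    intro i
    simp only [Nat.testBit_or, Nat.testBit_and]
    exact (key _ _ h _ _ _ _ _ _ rfl rfl i).2

/-- Replacing a pair of a triple by a pair with the same sum. -/
theorem Same3.of_same2 {a b c d : ℕ} (h : Same2 a b c d) (e : ℕ) : Same3 a b e c d e := by
  have h1 : ∀ i, (a.testBit i && b.testBit i) = (c.testBit i && d.testBit i) := by
    intro i
    have := congrArg (fun m => Nat.testBit m i) h.1
    simpa only [Nat.testBit_and] using this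
  have h2 : ∀ i, (a.testBit i || b.testBit i) = (c.testBit i || d.testBit i) := by
    intro i
    have := congrArg (fun m => Nat.testBit m i) h.2
    simpa only [Nat.testBit_or] using this
  constructor
  · apply Nat.eq_of_testBit_eq
    intro i
    simp only [Nat.testBit_xor]
    have h1 := h1 i
    have h2 := h2 i
    revert h1 h2
    generalize a.testBit i = x
    generalize b.testBit i = y
    generalize c.testBit i = x'
    generalize d.testBit i = y'
    generalize e.testBit i = z
    revert x y x' y' z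
    decide
  · apply Nat.eq_of_testBit_eq
    intro i
    simp only [Nat.testBit_or, Nat.testBit_and]
    have h1 := h1 i
    have h2 := h2 i
    revert h1 h2
    generalize a.testBit i = x
    generalize b.testBit i = y
    generalize c.testBit i = x'
    generalize d.testBit i = y'
    generalize e.testBit i = z
    revert x y x' y' z
    decide

/-- Cancelling a common mask of two triples. -/
theorem Same3.cancel {a b c d e : ℕ} (h : Same3 e a b e c d) : Same2 a b c d := by
  have h1 : ∀ i, (e.testBit i ^^ a.testBit i ^^ b.testBit i) =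
      (e.testBit i ^^ c.testBit i ^^ d.testBit i) := by
    intro i
    have := congrArg (fun m => Nat.testBit m i) h.1
    simpa only [Nat.testBit_xor] using this
  have h2 : ∀ i, ((e.testBit i && a.testBit i) || (e.testBit i && b.testBit i) ||
        (a.testBit i && b.testBit i)) =
      ((e.testBit i && c.testBit i) || (e.testBit i && d.testBit i) ||
        (c.testBit i && d.testBit i)) := by
    intro i
    have := congrArg (fun m => Nat.testBit m i) h.2
    simpa only [Nat.testBit_or, Nat.testBit_and] using this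
  constructor
  · apply Nat.eq_of_testBit_eq
    intro i
    simp only [Nat.testBit_and]
    have h1 := h1 i
    have h2 := h2 i
    revert h1 h2
    generalize a.testBit i = x
    generalize b.testBit i = y
    generalize c.testBit i = x'
    generalize d.testBit i = y'
    generalize e.testBit i = z
    revert x y x' y' z
    decide
  · apply Nat.eq_of_testBit_eq
    intro i
    simp only [Nat.testBit_or]
    have h1 := h1 i
    have h2 := h2 i
    revert h1 h2
    generalize a.testBit i = x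
    generalize b.testBit i = y
    generalize c.testBit i = x'
    generalize d.testBit i = y'
    generalize e.testBit i = z
    revert x y x' y' z
    decide

/-! ### Standard pairs -/

theorem MStd.symm {w : ℕ → ℝ} {a b : ℕ} (h : MStd w a b) : MStd w b a := by
  intro c hc d hd hs
  have := h c hc d hd ((Same2.swap a b).trans hs)
  linarith

theorem MStd.comm {w : ℕ → ℝ} {a b : ℕ} : MStd w a b ↔ MStd w b a := ⟨MStd.symm, MStd.symm⟩

/-- The standard pair is strictly lighter than every other pair with the same sum. -/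
theorem strict {w : ℕ → ℝ} (h : MCoherent w) {a b c d : ℕ} (ha : a ∈ masks 4) (hb : b ∈ masks 4)
    (hc : c ∈ masks 4) (hd : d ∈ masks 4) (hs : Same2 a b c d) (hab : MStd w a b)
    (hne : ¬ ((c = a ∧ d = b) ∨ (c = b ∧ d = a))) : w a + w b < w c + w d := by
  by_contra hlt
  have hle : w c + w d ≤ w a + w b := not_lt.mp hlt
  apply hne
  apply h.unique2 a ha b hb c hc d hd hs hab
  intro e he f hf hs'
  exact hle.trans (hab e he f hf (hs.trans hs'))

theorem exists_std2 (w : ℕ → ℝ) {a b : ℕ} (ha : a ∈ masks 4) (hb : b ∈ masks 4) :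
    ∃ c ∈ masks 4, ∃ d ∈ masks 4, Same2 a b c d ∧ MStd w c d := by
  classical
  let s : Finset (ℕ × ℕ) :=
    ((masks 4).toFinset ×ˢ (masks 4).toFinset).filter fun p => Same2 a b p.1 p.2
  have hmem : ∀ p : ℕ × ℕ, p ∈ s ↔ (p.1 ∈ masks 4 ∧ p.2 ∈ masks 4) ∧ Same2 a b p.1 p.2 := by
    intro p
    simp only [s, Finset.mem_filter, Finset.mem_product, List.mem_toFinset]
  have hs : s.Nonempty := ⟨(a, b), (hmem (a, b)).mpr ⟨⟨ha, hb⟩, Same2.refl a b⟩⟩
  obtain ⟨p, hp, hmin⟩ := Finset.exists_min_image s (fun p => w p.1 + w p.2) hs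
  obtain ⟨⟨h1, h2⟩, h3⟩ := (hmem p).mp hp
  refine ⟨p.1, h1, p.2, h2, h3, ?_⟩
  intro e he f hf hef
  exact hmin (e, f) ((hmem (e, f)).mpr ⟨⟨he, hf⟩, h3.trans hef⟩)

theorem exists_std3 (w : ℕ → ℝ) {a b c : ℕ} (ha : a ∈ masks 4) (hb : b ∈ masks 4)
    (hc : c ∈ masks 4) :
    ∃ x ∈ masks 4, ∃ y ∈ masks 4, ∃ z ∈ masks 4, Same3 a b c x y z ∧
      MStd w x y ∧ MStd w x z ∧ MStd w y z := by
  classical
  let s : Finset (ℕ × ℕ × ℕ) :=
    ((masks 4).toFinset ×ˢ ((masks 4).toFinset ×ˢ (masks 4).toFinset)).filter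
      fun p => Same3 a b c p.1 p.2.1 p.2.2
  have hmem : ∀ p : ℕ × ℕ × ℕ, p ∈ s ↔
      (p.1 ∈ masks 4 ∧ p.2.1 ∈ masks 4 ∧ p.2.2 ∈ masks 4) ∧ Same3 a b c p.1 p.2.1 p.2.2 := by
    intro p
    simp only [s, Finset.mem_filter, Finset.mem_product, List.mem_toFinset]
  have hs : s.Nonempty := ⟨(a, b, c), (hmem (a, b, c)).mpr ⟨⟨ha, hb, hc⟩, Same3.refl a b c⟩⟩
  obtain ⟨p, hp, hmin⟩ := Finset.exists_min_image s (fun p => w p.1 + w p.2.1 + w p.2.2) hs
  obtain ⟨⟨h1, h2, h3⟩, h4⟩ := (hmem p).mp hp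
  refine ⟨p.1, h1, p.2.1, h2, p.2.2, h3, h4, ?_, ?_, ?_⟩
  · intro e he f hf hef
    have := hmin (e, f, p.2.2) ((hmem (e, f, p.2.2)).mpr ⟨⟨he, hf, h3⟩, h4.trans (Same3.of_same2 hef _)⟩)
    simp only at this
    linarith
  · intro e he f hf hef
    have hp1 : Same3 p.1 p.2.1 p.2.2 p.1 p.2.2 p.2.1 :=
      Same3.of_perm (List.Perm.cons _ (List.Perm.swap _ _ _))
    have hp2 : Same3 e f p.2.1 e p.2.1 f :=
      Same3.of_perm (List.Perm.cons _ (List.Perm.swap _ _ _))
    have := hmin (e, p.2.1, f) ((hmem (e, p.2.1, f)).mpr ⟨⟨he, h2, hf⟩,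
      ((h4.trans hp1).trans (Same3.of_same2 hef _)).trans hp2⟩)
    simp only at this
    linarith
  · intro e he f hf hef
    have hp1 : Same3 p.1 p.2.1 p.2.2 p.2.1 p.2.2 p.1 := by
      apply Same3.of_perm
      exact (List.Perm.swap _ _ _).trans (List.Perm.cons _ (List.Perm.swap _ _ _))
    have hp2 : Same3 e f p.1 p.1 e f := by
      apply Same3.of_perm
      exact (List.Perm.cons _ (List.Perm.swap _ _ _)).trans (List.Perm.swap _ _ _)
    have := hmin (p.1, e, f) ((hmem (p.1, e, f)).mpr ⟨⟨h1, he, hf⟩,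
      ((h4.trans hp1).trans (Same3.of_same2 hef _)).trans hp2⟩)
    simp only at this
    linarith

/-- A mask with itself is a standard pair. -/
theorem MStd.self (w : ℕ → ℝ) (a : ℕ) : MStd w a a := by
  intro c _ d _ hs
  obtain ⟨h1, h2⟩ := hs
  rw [Nat.and_self] at h1
  rw [Nat.or_self] at h2
  have hb : ∀ i, a.testBit i = c.testBit i ∧ a.testBit i = d.testBit i := by
    intro i
    have e1 := congrArg (fun m => Nat.testBit m i) h1
    have e2 := congrArg (fun m => Nat.testBit m i) h2
    simp only [Nat.testBit_and, Nat.testBit_or] at e1 e2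
    revert e1 e2
    generalize a.testBit i = x
    generalize c.testBit i = y
    generalize d.testBit i = z
    revert x y z
    decide
  have hc : c = a := Nat.eq_of_testBit_eq fun i => (hb i).1.symm
  have hd : d = a := Nat.eq_of_testBit_eq fun i => (hb i).2.symm
  rw [hc, hd]

/-- The second mask of a pair is determined by the first one and the sum. -/
theorem Same2.snd_eq {a b c d : ℕ} (h : Same2 a b c d) : d = a ^^^ b ^^^ c := by
  apply Nat.eq_of_testBit_eq
  intro i
  have e1 := congrArg (fun m => Nat.testBit m i) h.1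
  have e2 := congrArg (fun m => Nat.testBit m i) h.2
  simp only [Nat.testBit_and, Nat.testBit_or] at e1 e2
  simp only [Nat.testBit_xor]
  revert e1 e2
  generalize a.testBit i = x
  generalize b.testBit i = y
  generalize c.testBit i = x'
  generalize d.testBit i = y'
  revert x y x' y'
  decide

/-- The number of elements of a mask on four legs. -/
def pc (m : ℕ) : ℕ :=
  m % 2 + m / 2 % 2 + m / 4 % 2 + m / 8 % 2 + m / 16 % 2 + m / 32 % 2 + m / 64 % 2 + m / 128 % 2

theorem two_check : ((masks 4).all fun a => (masks 4).all fun b => (!(pc (a ^^^ b) == 2)) ||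
    (masks 4).all fun c => c == a || c == b || !(a &&& b == c &&& (a ^^^ b ^^^ c)) ||
      !(a ||| b == c ||| (a ^^^ b ^^^ c))) = true := by
  decide +kernel

/-- Two masks that differ by an exchange of one element form a standard pair. -/
theorem MStd.of_pc_two (w : ℕ → ℝ) {a b : ℕ} (ha : a ∈ masks 4) (hb : b ∈ masks 4)
    (hab : pc (a ^^^ b) = 2) : MStd w a b := by
  intro c hc d hd hs
  have hd' := hs.snd_eq
  have h1 := two_check
  rw [List.all_eq_true] at h1
  have h2 := h1 a ha
  rw [List.all_eq_true] at h2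
  have h3 := h2 b hb
  rw [hab] at h3
  simp only [beq_self_eq_true, Bool.not_true, Bool.false_or] at h3
  rw [List.all_eq_true] at h3
  have h4 := h3 c hc
  rw [← hd'] at h4
  have e1 : (a &&& b == c &&& d) = true := by rw [hs.1]; exact beq_self_eq_true _
  have e2 : (a ||| b == c ||| d) = true := by rw [hs.2]; exact beq_self_eq_true _
  rw [e1, e2] at h4
  simp only [Bool.not_true, Bool.or_false, Bool.or_eq_true, beq_iff_eq] at h4
  rcases h4 with h4 | h4
  · have : d = b := by
      rw [hd', h4, Nat.xor_comm, ← Nat.xor_assoc, Nat.xor_self, Nat.zero_xor]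
    rw [h4, this]
  · have : d = a := by
      rw [hd', h4, Nat.xor_assoc, Nat.xor_self, Nat.xor_zero]
    rw [h4, this]
    linarith

/-! ### Uniqueness of standard triples -/

theorem uniq3 {w : ℕ → ℝ} (h : MCoherent w) {a₁ a₂ a₃ b₁ b₂ b₃ : ℕ}
    (ha₁ : a₁ ∈ masks 4) (ha₂ : a₂ ∈ masks 4) (ha₃ : a₃ ∈ masks 4)
    (hb₁ : b₁ ∈ masks 4) (hb₂ : b₂ ∈ masks 4) (hb₃ : b₃ ∈ masks 4)
    (hs : Same3 a₁ a₂ a₃ b₁ b₂ b₃)
    (h12 : MStd w a₁ a₂) (h13 : MStd w a₁ a₃) (h23 : MStd w a₂ a₃)
    (k12 : MStd w b₁ b₂) (k13 : MStd w b₁ b₃) (k23 : MStd w b₂ b₃) :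
    List.Perm [a₁, a₂, a₃] [b₁, b₂, b₃] := by
  -- the case where the first masks agree
  have base : ∀ a₁ ∈ masks 4, ∀ a₂ ∈ masks 4, ∀ a₃ ∈ masks 4, Same3 a₁ a₂ a₃ b₁ b₂ b₃ →
      MStd w a₂ a₃ → b₁ = a₁ → List.Perm [a₁, a₂, a₃] [b₁, b₂, b₃] := by
    intro a₁ _ a₂ ha₂ a₃ ha₃ hs h23 he
    subst he
    rcases h.unique2 a₂ ha₂ a₃ ha₃ b₂ hb₂ b₃ hb₃ hs.cancel h23 k23 with ⟨e1, e2⟩ | ⟨e1, e2⟩
    · subst e1; subst e2; exact List.Perm.refl _
    · subst e1; subst e2; exact List.Perm.cons _ (List.Perm.swap _ _ _)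
  rcases h.unique3 a₁ ha₁ a₂ ha₂ a₃ ha₃ b₁ hb₁ b₂ hb₂ b₃ hb₃ hs h12 h13 h23 k12 k13 k23 with
    e | e | e
  · exact base a₁ ha₁ a₂ ha₂ a₃ ha₃ hs h23 e
  · have hp : List.Perm [a₁, a₂, a₃] [a₂, a₁, a₃] := List.Perm.swap _ _ _
    exact hp.trans (base a₂ ha₂ a₁ ha₁ a₃ ha₃ ((Same3.of_perm hp).symm.trans hs) h13 e)
  · have hp : List.Perm [a₁, a₂, a₃] [a₃, a₁, a₂] :=
      (List.Perm.cons _ (List.Perm.swap _ _ _)).trans (List.Perm.swap _ _ _)
    exact hp.trans (base a₃ ha₃ a₁ ha₁ a₂ ha₂ ((Same3.of_perm hp).symm.trans hs) h12 e)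

end Pool.Agent.Lib.QTri
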