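import Pool.Agent.Lib.QTri.Sem

/-!
# Canonical forms of pairs, and symmetries
-/

namespace Pool.Agent.Lib.QTri

attribute [local irreducible] masks

/-! ### Canonical form -/

/-- Delete the leg at position `p`. -/
def del (p m : ℕ) : ℕ := m % 4 ^ p + (m / 4 ^ (p + 1)) * 4 ^ p

/-- Both masks contain only `a` on the leg `p`. -/
def dflt (p a b : ℕ) : Bool := legState a p == 1 && legState b p == 1

/-- If the leg `p` is a default leg of both masks, move it to position `3`. -/
def mv (p : ℕ) (ab : ℕ × ℕ) : ℕ × ℕ :=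
  if dflt p ab.1 ab.2 then (ins 3 (del p ab.1), ins 3 (del p ab.2)) else ab

/-- Move the default legs to the end. -/
def canonPair (a b : ℕ) : ℕ × ℕ := mv 0 (mv 1 (mv 2 (mv 3 (a, b))))

theorem del_check : ((masks 4).all fun a => (List.range 4).all fun p => !(legState a p == 1) ||
    ((masks 3).contains (del p a) && ins p (del p a) == a)) = true := by
  decide +kernel

theorem ins_check : ((masks 3).all fun x => (List.range 4).all fun p =>
    (masks 4).contains (ins p x)) = true := by
  decide +kernel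

theorem del_mem {a p : ℕ} (ha : a ∈ masks 4) (hp : p < 4) (h : legState a p = 1) :
    del p a ∈ masks 3 ∧ ins p (del p a) = a := by
  have h1 := del_check
  rw [List.all_eq_true] at h1
  have h2 := h1 a ha
  rw [List.all_eq_true] at h2
  have h3 := h2 p (List.mem_range.mpr hp)
  rw [h] at h3
  simp only [beq_self_eq_true, Bool.not_true, Bool.false_or, Bool.and_eq_true,
    List.contains_iff_mem, beq_iff_eq] at h3
  exact h3

theorem ins_mem {x p : ℕ} (hx : x ∈ masks 3) (hp : p < 4) : ins p x ∈ masks 4 := by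
  have h1 := ins_check
  rw [List.all_eq_true] at h1
  have h2 := h1 x hx
  rw [List.all_eq_true] at h2
  have h3 := h2 p (List.mem_range.mpr hp)
  simpa only [List.contains_iff_mem] using h3

theorem mv_spec {w : ℕ → ℝ} (hc : Canon w) {p : ℕ} (hp : p < 4) {ab : ℕ × ℕ}
    (ha : ab.1 ∈ masks 4) (hb : ab.2 ∈ masks 4) :
    (mv p ab).1 ∈ masks 4 ∧ (mv p ab).2 ∈ masks 4 ∧
      (MStd w ab.1 ab.2 ↔ MStd w (mv p ab).1 (mv p ab).2) := by
  by_cases hd : dflt p ab.1 ab.2 = true
  · have h1 : legState ab.1 p = 1 ∧ legState ab.2 p = 1 := by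
      unfold dflt at hd
      simpa only [Bool.and_eq_true, beq_iff_eq] using hd
    obtain ⟨ha1, ha2⟩ := del_mem ha hp h1.1
    obtain ⟨hb1, hb2⟩ := del_mem hb hp h1.2
    have e : mv p ab = (ins 3 (del p ab.1), ins 3 (del p ab.2)) := by
      unfold mv; rw [if_pos hd]
    rw [e]
    refine ⟨ins_mem ha1 (by norm_num), ins_mem hb1 (by norm_num), ?_⟩
    have := hc _ ha1 _ hb1 p hp 3 (by norm_num)
    rw [ha2, hb2] at this
    exact this
  · have e : mv p ab = ab := by
      unfold mv; rw [if_neg hd]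
    rw [e]
    exact ⟨ha, hb, Iff.rfl⟩

/-- A pair is standard if and only if its canonical form is. -/
theorem canonPair_spec {w : ℕ → ℝ} (hc : Canon w) {a b : ℕ} (ha : a ∈ masks 4)
    (hb : b ∈ masks 4) :
    (canonPair a b).1 ∈ masks 4 ∧ (canonPair a b).2 ∈ masks 4 ∧
      (MStd w a b ↔ MStd w (canonPair a b).1 (canonPair a b).2) := by
  obtain ⟨h31, h32, h33⟩ := mv_spec hc (p := 3) (by norm_num) (ab := (a, b)) ha hb
  obtain ⟨h21, h22, h23⟩ := mv_spec hc (p := 2) (by norm_num) h31 h32
  obtain ⟨h11, h12, h13⟩ := mv_spec hc (p := 1) (by norm_num) h21 h22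
  obtain ⟨h01, h02, h03⟩ := mv_spec hc (p := 0) (by norm_num) h11 h12
  exact ⟨h01, h02, h33.trans (h23.trans (h13.trans h03))⟩

/-! ### Symmetries -/

/-- Reversal of the four legs. -/
def rev4 (m : ℕ) : ℕ := (m % 4) * 64 + (m / 4 % 4) * 16 + (m / 16 % 4) * 4 + m / 64 % 4

/-- Exchange of the leg states `0` and `3`. -/
def sw (s : ℕ) : ℕ := if s = 0 then 3 else if s = 3 then 0 else s

/-- Exchange of the leg states `0` and `3` in all four legs. -/
def swp4 (m : ℕ) : ℕ :=
  sw (m % 4) + sw (m / 4 % 4) * 4 + sw (m / 16 % 4) * 16 + sw (m / 64 % 4) * 64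

/-- The symmetries of the masks with four legs: `1` is the reversal, `2` exchanges the leg states
`0` and `3`, and `3` does both. -/
def act (g m : ℕ) : ℕ :=
  if g = 1 then rev4 m else if g = 2 then swp4 m else if g = 3 then rev4 (swp4 m) else m

/-- The corresponding maps on the masks with three legs. -/
def act3 (g m : ℕ) : ℕ :=
  if g = 1 then (m % 4) * 16 + (m / 4 % 4) * 4 + m / 16 % 4
  else if g = 2 then sw (m % 4) + sw (m / 4 % 4) * 4 + sw (m / 16 % 4) * 16
  else if g = 3 then sw (m % 4) * 16 + sw (m / 4 % 4) * 4 + sw (m / 16 % 4)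
  else m

/-- The corresponding maps on positions. -/
def actPos (g p : ℕ) : ℕ := if g = 1 ∨ g = 3 then 3 - p else p

theorem act_check : ([1, 2, 3].all fun g => (masks 4).all fun m =>
    (masks 4).contains (act g m) && act g (act g m) == m) = true := by
  decide +kernel

theorem act3_check : ([1, 2, 3].all fun g => (masks 3).all fun m =>
    (masks 3).contains (act3 g m) &&
      (List.range 4).all fun p => act g (ins p m) == ins (actPos g p) (act3 g m)) = true := by
  decide +kernel

theorem act_and_check : ((masks 4).all fun a => (masks 4).all fun b =>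
    (act 1 (a &&& b) == act 1 a &&& act 1 b && act 1 (a ||| b) == act 1 a ||| act 1 b) &&
    ((act 2 (a &&& b) == act 2 a ||| act 2 b && act 2 (a ||| b) == act 2 a &&& act 2 b) &&
    (act 3 (a &&& b) == act 3 a ||| act 3 b && act 3 (a ||| b) == act 3 a &&& act 3 b))) = true := by
  decide +kernel

theorem act_mem {g m : ℕ} (hg : g = 1 ∨ g = 2 ∨ g = 3) (hm : m ∈ masks 4) :
    act g m ∈ masks 4 ∧ act g (act g m) = m := by
  have h1 := act_check
  rw [List.all_eq_true] at h1
  have h2 := h1 g (by simp only [List.mem_cons, List.not_mem_nil, or_false]; exact hg)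
  rw [List.all_eq_true] at h2
  have h3 := h2 m hm
  simpa only [Bool.and_eq_true, List.contains_iff_mem, beq_iff_eq] using h3

theorem act3_mem {g m : ℕ} (hg : g = 1 ∨ g = 2 ∨ g = 3) (hm : m ∈ masks 3) :
    act3 g m ∈ masks 3 ∧ ∀ p < 4, act g (ins p m) = ins (actPos g p) (act3 g m) := by
  have h1 := act3_check
  rw [List.all_eq_true] at h1
  have h2 := h1 g (by simp only [List.mem_cons, List.not_mem_nil, or_false]; exact hg)
  rw [List.all_eq_true] at h2
  have h3 := h2 m hm
  simp only [Bool.and_eq_true, List.contains_iff_mem, List.all_eq_true, beq_iff_eq,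
    List.mem_range] at h3
  exact h3

theorem act_same2 {g a b c d : ℕ} (hg : g = 1 ∨ g = 2 ∨ g = 3) (ha : a ∈ masks 4)
    (hb : b ∈ masks 4) (hc : c ∈ masks 4) (hd : d ∈ masks 4) (h : Same2 a b c d) :
    Same2 (act g a) (act g b) (act g c) (act g d) := by
  have key : ∀ a ∈ masks 4, ∀ b ∈ masks 4,
      (act 1 (a &&& b) = act 1 a &&& act 1 b ∧ act 1 (a ||| b) = act 1 a ||| act 1 b) ∧
      (act 2 (a &&& b) = act 2 a ||| act 2 b ∧ act 2 (a ||| b) = act 2 a &&& act 2 b) ∧
      (act 3 (a &&& b) = act 3 a ||| act 3 b ∧ act 3 (a ||| b) = act 3 a &&& act 3 b) := by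
    intro a ha b hb
    have h1 := act_and_check
    rw [List.all_eq_true] at h1
    have h2 := h1 a ha
    rw [List.all_eq_true] at h2
    have h3 := h2 b hb
    simpa only [Bool.and_eq_true, beq_iff_eq] using h3
  have k1 := key a ha b hb
  have k2 := key c hc d hd
  obtain ⟨e1, e2⟩ := h
  rcases hg with rfl | rfl | rfl
  · exact ⟨by rw [← k1.1.1, ← k2.1.1, e1], by rw [← k1.1.2, ← k2.1.2, e2]⟩
  · exact ⟨by rw [← k1.2.1.2, ← k2.2.1.2, e2], by rw [← k1.2.1.1, ← k2.2.1.1, e1]⟩
  · exact ⟨by rw [← k1.2.2.2, ← k2.2.2.2, e2], by rw [← k1.2.2.1, ← k2.2.2.1, e1]⟩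

theorem act_same2_iff {g a b c d : ℕ} (hg : g = 1 ∨ g = 2 ∨ g = 3) (ha : a ∈ masks 4)
    (hb : b ∈ masks 4) (hc : c ∈ masks 4) (hd : d ∈ masks 4) :
    Same2 (act g a) (act g b) (act g c) (act g d) ↔ Same2 a b c d := by
  constructor
  · intro h
    have := act_same2 hg (act_mem hg ha).1 (act_mem hg hb).1 (act_mem hg hc).1 (act_mem hg hd).1 h
    rwa [(act_mem hg ha).2, (act_mem hg hb).2, (act_mem hg hc).2, (act_mem hg hd).2] at this
  · exact act_same2 hg ha hb hc hd

theorem act_inj {g a b : ℕ} (hg : g = 1 ∨ g = 2 ∨ g = 3) (ha : a ∈ masks 4) (hb : b ∈ masks 4)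
    (h : act g a = act g b) : a = b := by
  rw [← (act_mem hg ha).2, h, (act_mem hg hb).2]

theorem MStd.act_iff {w : ℕ → ℝ} {g a b : ℕ} (hg : g = 1 ∨ g = 2 ∨ g = 3) (ha : a ∈ masks 4)
    (hb : b ∈ masks 4) : MStd (fun m => w (act g m)) a b ↔ MStd w (act g a) (act g b) := by
  constructor
  · intro h c hc d hd hs
    have h1 := h (act g c) (act_mem hg hc).1 (act g d) (act_mem hg hd).1 (by
      have h2 := (act_same2_iff hg (act_mem hg ha).1 (act_mem hg hb).1 hc hd).mpr hs
      rwa [(act_mem hg ha).2, (act_mem hg hb).2] at h2)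
    simp only [(act_mem hg hc).2, (act_mem hg hd).2] at h1
    exact h1
  · intro h c hc d hd hs
    exact h (act g c) (act_mem hg hc).1 (act g d) (act_mem hg hd).1
      ((act_same2_iff hg ha hb hc hd).mpr hs)

/-- The bit of `m` that decides the bit `i` of `act g m`. -/
def bitPos (g i : ℕ) : ℕ :=
  if g = 1 then 2 * (3 - i / 2) + i % 2
  else if g = 2 then 2 * (i / 2) + (1 - i % 2)
  else 2 * (3 - i / 2) + (1 - i % 2)

/-- Whether the bit is complemented. -/
def bitSgn (g : ℕ) : Bool := g == 2 || g == 3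

theorem bit_check : ([1, 2, 3].all fun g => (masks 4).all fun m => act g m < 256 &&
    (List.range 8).all fun i =>
      (act g m).testBit i == ((m.testBit (bitPos g i)) ^^ bitSgn g)) = true := by
  decide +kernel

theorem act_testBit {g m : ℕ} (hg : g = 1 ∨ g = 2 ∨ g = 3) (hm : m ∈ masks 4) (i : ℕ) :
    (act g m).testBit i = if i < 8 then ((m.testBit (bitPos g i)) ^^ bitSgn g) else false := by
  have h1 := bit_check
  rw [List.all_eq_true] at h1
  have h2 := h1 g (by simp only [List.mem_cons, List.not_mem_nil, or_false]; exact hg)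
  rw [List.all_eq_true] at h2
  have h3 := h2 m hm
  simp only [Bool.and_eq_true, decide_eq_true_eq, List.all_eq_true, beq_iff_eq,
    List.mem_range] at h3
  by_cases hi : i < 8
  · rw [if_pos hi]
    exact h3.2 i hi
  · rw [if_neg hi]
    apply Nat.testBit_lt_two_pow
    refine h3.1.trans_le ?_
    have : 2 ^ 8 ≤ 2 ^ i := Nat.pow_le_pow_right (by norm_num) (not_lt.mp hi)
    exact this

theorem act_same3 {g a b c a' b' c' : ℕ} (hg : g = 1 ∨ g = 2 ∨ g = 3) (ha : a ∈ masks 4)
    (hb : b ∈ masks 4) (hc : c ∈ masks 4) (ha' : a' ∈ masks 4) (hb' : b' ∈ masks 4)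
    (hc' : c' ∈ masks 4) (h : Same3 a b c a' b' c') :
    Same3 (act g a) (act g b) (act g c) (act g a') (act g b') (act g c') := by
  obtain ⟨h1, h2⟩ := h
  have e1 : ∀ i, (a.testBit i ^^ b.testBit i ^^ c.testBit i) =
      (a'.testBit i ^^ b'.testBit i ^^ c'.testBit i) := by
    intro i
    have := congrArg (fun m => Nat.testBit m i) h1
    simpa only [Nat.testBit_xor] using this
  have e2 : ∀ i, ((a.testBit i && b.testBit i) || (a.testBit i && c.testBit i) ||
        (b.testBit i && c.testBit i)) =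
      ((a'.testBit i && b'.testBit i) || (a'.testBit i && c'.testBit i) ||
        (b'.testBit i && c'.testBit i)) := by
    intro i
    have := congrArg (fun m => Nat.testBit m i) h2
    simpa only [Nat.testBit_or, Nat.testBit_and] using this
  constructor
  · apply Nat.eq_of_testBit_eq
    intro i
    simp only [Nat.testBit_xor, act_testBit hg ha, act_testBit hg hb, act_testBit hg hc,
      act_testBit hg ha', act_testBit hg hb', act_testBit hg hc']
    by_cases hi : i < 8
    · simp only [if_pos hi]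
      have e1 := e1 (bitPos g i)
      revert e1
      generalize a.testBit (bitPos g i) = x
      generalize b.testBit (bitPos g i) = y
      generalize c.testBit (bitPos g i) = z
      generalize a'.testBit (bitPos g i) = x'
      generalize b'.testBit (bitPos g i) = y'
      generalize c'.testBit (bitPos g i) = z'
      generalize bitSgn g = s
      revert x y z x' y' z' s
      decide
    · simp only [if_neg hi]
  · apply Nat.eq_of_testBit_eq
    intro i
    simp only [Nat.testBit_or, Nat.testBit_and, act_testBit hg ha, act_testBit hg hb,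
      act_testBit hg hc, act_testBit hg ha', act_testBit hg hb', act_testBit hg hc']
    by_cases hi : i < 8
    · simp only [if_pos hi]
      have e2 := e2 (bitPos g i)
      revert e2
      generalize a.testBit (bitPos g i) = x
      generalize b.testBit (bitPos g i) = y
      generalize c.testBit (bitPos g i) = z
      generalize a'.testBit (bitPos g i) = x'
      generalize b'.testBit (bitPos g i) = y'
      generalize c'.testBit (bitPos g i) = z'
      generalize bitSgn g = s
      revert x y z x' y' z' s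
      decide
    · simp only [if_neg hi]

theorem MCoherent.act {w : ℕ → ℝ} (h : MCoherent w) {g : ℕ} (hg : g = 1 ∨ g = 2 ∨ g = 3) :
    MCoherent (fun m => w (act g m)) where
  unique2 := by
    intro a ha b hb c hc d hd hs hab hcd
    rw [MStd.act_iff hg ha hb] at hab
    rw [MStd.act_iff hg hc hd] at hcd
    rcases h.unique2 _ (act_mem hg ha).1 _ (act_mem hg hb).1 _ (act_mem hg hc).1 _
      (act_mem hg hd).1 (act_same2 hg ha hb hc hd hs) hab hcd with ⟨e1, e2⟩ | ⟨e1, e2⟩
    · exact Or.inl ⟨act_inj hg hc ha e1, act_inj hg hd hb e2⟩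
    · exact Or.inr ⟨act_inj hg hc hb e1, act_inj hg hd ha e2⟩
  unique3 := by
    intro a₁ ha₁ a₂ ha₂ a₃ ha₃ b₁ hb₁ b₂ hb₂ b₃ hb₃ hs h12 h13 h23 k12 k13 k23
    rw [MStd.act_iff hg ha₁ ha₂] at h12
    rw [MStd.act_iff hg ha₁ ha₃] at h13
    rw [MStd.act_iff hg ha₂ ha₃] at h23
    rw [MStd.act_iff hg hb₁ hb₂] at k12
    rw [MStd.act_iff hg hb₁ hb₃] at k13
    rw [MStd.act_iff hg hb₂ hb₃] at k23
    rcases h.unique3 _ (act_mem hg ha₁).1 _ (act_mem hg ha₂).1 _ (act_mem hg ha₃).1 _
      (act_mem hg hb₁).1 _ (act_mem hg hb₂).1 _ (act_mem hg hb₃).1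
      (act_same3 hg ha₁ ha₂ ha₃ hb₁ hb₂ hb₃ hs) h12 h13 h23 k12 k13 k23 with e | e | e
    · exact Or.inl (act_inj hg hb₁ ha₁ e)
    · exact Or.inr (Or.inl (act_inj hg hb₁ ha₂ e))
    · exact Or.inr (Or.inr (act_inj hg hb₁ ha₃ e))

theorem actPos_lt {g p : ℕ} (hp : p < 4) : actPos g p < 4 := by
  unfold actPos
  split_ifs <;> omega

theorem Canon.act {w : ℕ → ℝ} (hc : Canon w) {g : ℕ} (hg : g = 1 ∨ g = 2 ∨ g = 3) :
    Canon (fun m => w (act g m)) := by
  intro x hx y hy p hp q hq
  rw [MStd.act_iff hg (ins_mem hx hp) (ins_mem hy hp), MStd.act_iff hg (ins_mem hx hq)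
    (ins_mem hy hq), (act3_mem hg hx).2 p hp, (act3_mem hg hy).2 p hp, (act3_mem hg hx).2 q hq,
    (act3_mem hg hy).2 q hq]
  exact hc _ (act3_mem hg hx).1 _ (act3_mem hg hy).1 _ (actPos_lt hp) _ (actPos_lt hq)

end Pool.Agent.Lib.QTri
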