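import Pool.Agent.Lib.QTri.Mat

/-!
# Tipless ternary spikes

The matroid `spike n` on the elements `a_i = (i, false)`, `b_i = (i, true)` for `i < n`, defined by
linear independence over `𝔽₃` of the vectors `a_i = e_i` and `b_i = e_i + (1, …, 1)`; its bases; it
has no minor isomorphic to `F₇` or to its dual.
-/

namespace Pool.Agent.Lib.QTri

open Finset

section Lin

variable (K : Type) [Field K] {W : Type} [AddCommGroup W] [Module K W] {α : Type} [Finite α]

theorem finrank_span_image {v : α → W} {I : Set α} (h : LinearIndepOn K v I) :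
    Module.finrank K (Submodule.span K (v '' I)) = I.ncard := by
  classical
  have := Fintype.ofFinite I
  have h1 := finrank_span_eq_card (R := K) h
  rw [← Nat.card_eq_fintype_card, Nat.card_coe_set_eq] at h1
  rw [Set.image_eq_range]
  exact h1

/-- The matroid of a finite family of vectors: a set is independent if and only if the vectors
with index in the set are linearly independent. -/
noncomputable def linMat (v : α → W) : Matroid α :=
  (IndepMatroid.ofFinite (E := Set.univ) Set.finite_univ (fun I => LinearIndepOn K v I)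
    (linearIndepOn_empty K v)
    (fun I J hJ hIJ => hJ.mono hIJ)
    (by
      intro I J hI hJ hlt
      by_contra hcon
      push Not at hcon
      have hsub : Submodule.span K (v '' J) ≤ Submodule.span K (v '' I) := by
        rw [Submodule.span_le]
        rintro _ ⟨e, he, rfl⟩
        by_cases heI : e ∈ I
        · exact Submodule.subset_span ⟨e, heI, rfl⟩
        · by_contra hns
          exact hcon e he heI (hI.insert hns)
      have : FiniteDimensional K (Submodule.span K (v '' I)) :=
        FiniteDimensional.span_of_finite K (Set.toFinite _)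
      have h1 := Submodule.finrank_mono hsub
      rw [finrank_span_image K hI, finrank_span_image K hJ] at h1
      omega)
    (fun _ _ => Set.subset_univ _)).matroid

theorem linMat_indep {v : α → W} {I : Set α} :
    (linMat K v).Indep I ↔ LinearIndepOn K v I := Iff.rfl

@[simp] theorem linMat_E (v : α → W) : (linMat K v).E = Set.univ := rfl

end Lin

/-- The vectors `a_i = e_i` and `b_i = e_i + (1, …, 1)`. -/
def spikeVec (n : ℕ) (x : Fin n × Bool) : Fin n → ZMod 3 :=
  fun j => (if j = x.1 then 1 else 0) + (if x.2 then 1 else 0)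

/-- The tipless ternary spike with `n` legs. -/
noncomputable def spike (n : ℕ) : Matroid (Fin n × Bool) := linMat (ZMod 3) (spikeVec n)

@[simp] theorem spike_E (n : ℕ) : (spike n).E = Set.univ := rfl

theorem spike_comb {n : ℕ} (c : Fin n × Bool → ZMod 3) (j : Fin n) :
    (∑ x, c x • spikeVec n x) j = c (j, false) + c (j, true) + ∑ i, c (i, true) := by
  rw [Finset.sum_apply, Fintype.sum_prod_type]
  simp only [Fintype.sum_bool, Pi.smul_apply, spikeVec, smul_eq_mul, if_true, Bool.false_eq_true,
    if_false, mul_add, mul_ite, mul_one, mul_zero, add_zero, Finset.sum_add_distrib,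
    Finset.sum_ite_eq, Finset.mem_univ]
  ring

theorem spike_indep_iff {n : ℕ} (B : Finset (Fin n × Bool)) :
    (spike n).Indep (B : Set (Fin n × Bool)) ↔
      ∀ c : Fin n × Bool → ZMod 3, (∀ x ∉ B, c x = 0) →
        (∀ j, c (j, false) + c (j, true) + ∑ i, c (i, true) = 0) → ∀ x, c x = 0 := by
  unfold spike
  rw [linMat_indep, linearIndepOn_finset_iff]
  constructor
  · intro h c hc hj x
    by_cases hx : x ∈ B
    · refine h c ?_ x hx
      rw [Finset.sum_subset (Finset.subset_univ B)
        (fun y _ hy => by rw [hc y hy, zero_smul])]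
      funext j
      rw [spike_comb, hj j]
      rfl
    · exact hc x hx
  · intro h f hf x hx
    have h1 := h (fun y => if y ∈ B then f y else 0) (fun y hy => if_neg hy) ?_ x
    · simpa [hx] using h1
    · intro j
      refine (spike_comb (fun y => if y ∈ B then f y else 0) j).symm.trans ?_
      have h2 : (∑ y, (if y ∈ B then f y else 0) • spikeVec n y) =
          ∑ y ∈ B, f y • spikeVec n y := by
        rw [← Finset.sum_subset (Finset.subset_univ B)
          (fun y _ hy => by rw [if_neg hy, zero_smul])]
        exact Finset.sum_congr rfl fun y hy => by rw [if_pos hy]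
      rw [h2, hf]
      rfl

theorem spike_card_le {n : ℕ} {B : Finset (Fin n × Bool)}
    (h : (spike n).Indep (B : Set (Fin n × Bool))) : B.card ≤ n := by
  unfold spike at h
  rw [linMat_indep] at h
  have h1 := finrank_span_image (ZMod 3) h
  rw [Set.ncard_coe_finset] at h1
  rw [← h1]
  have h2 := Submodule.finrank_le (Submodule.span (ZMod 3) (spikeVec n '' (B : Set (Fin n × Bool))))
  rwa [Module.finrank_fin_fun] at h2

theorem spike_card {n : ℕ} (B : Finset (Fin n × Bool)) :
    B.card = ∑ i : Fin n, ((if (i, false) ∈ B then 1 else 0) + (if (i, true) ∈ B then 1 else 0)) := by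
  have h1 : B.card = ∑ x : Fin n × Bool, if x ∈ B then 1 else 0 := by
    rw [Finset.sum_ite_mem, Finset.univ_inter, Finset.sum_const, smul_eq_mul, mul_one]
  rw [h1, Fintype.sum_prod_type]
  refine Finset.sum_congr rfl fun i _ => ?_
  rw [Fintype.sum_bool, add_comm]

theorem spike_a_indep (n : ℕ) : (spike n).Indep
    ((Finset.univ.filter fun x : Fin n × Bool => x.2 = false : Finset (Fin n × Bool)) :
      Set (Fin n × Bool)) := by
  rw [spike_indep_iff]
  intro c hc hj
  have ht : ∀ i, c (i, true) = 0 := fun i => hc _ (by simp)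
  intro x
  obtain ⟨i, b⟩ := x
  cases b
  · have := hj i
    simpa [ht] using this
  · exact ht i

theorem spike_isBase_iff_indep {n : ℕ} (B : Finset (Fin n × Bool)) :
    (spike n).IsBase (B : Set (Fin n × Bool)) ↔
      (spike n).Indep (B : Set (Fin n × Bool)) ∧ B.card = n := by
  classical
  have key : ∀ B : Finset (Fin n × Bool), (spike n).IsBase (B : Set (Fin n × Bool)) →
      B.card = n := by
    intro B hB
    obtain ⟨B', hB', hsub⟩ := (spike_a_indep n).exists_isBase_superset
    have h1 : B'.ncard = B.card := by
      rw [hB'.ncard_eq_ncard_of_isBase hB, Set.ncard_coe_finset]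
    have h2 := Set.ncard_le_ncard hsub (Set.toFinite _)
    rw [Set.ncard_coe_finset, h1, spike_card] at h2
    have h3 := spike_card_le hB.indep
    simp at h2
    omega
  constructor
  · intro h
    exact ⟨h.indep, key B h⟩
  · rintro ⟨h1, h2⟩
    obtain ⟨B', hB', hsub⟩ := h1.exists_isBase_superset
    have h3 : B' = ((Set.toFinite B').toFinset : Set (Fin n × Bool)) :=
      (Set.Finite.coe_toFinset _).symm
    rw [h3] at hB' hsub
    have h4 := key _ hB'
    rw [Finset.eq_of_subset_of_card_le (Finset.coe_subset.mp hsub) (by rw [h2, h4])]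
    exact hB'

/-- The bases of the spike. -/
theorem spike_isBase_iff {n : ℕ} (B : Finset (Fin n × Bool)) :
    (spike n).IsBase (B : Set (Fin n × Bool)) ↔
      ((∀ i : Fin n, ((i, false) ∈ B ↔ (i, true) ∉ B)) ∧
        (Finset.univ.filter fun i : Fin n => (i, true) ∈ B).card % 3 ≠ 2) ∨
      ∃ p q : Fin n, p ≠ q ∧ (p, false) ∈ B ∧ (p, true) ∈ B ∧ (q, false) ∉ B ∧ (q, true) ∉ B ∧
        ∀ i, i ≠ p → i ≠ q → ((i, false) ∈ B ↔ (i, true) ∉ B) := by
  classical
  rw [spike_isBase_iff_indep]
  have hcount : ∀ k : ℕ, k % 3 = 2 → (k : ZMod 3) = 2 := by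
    intro k hk
    rw [← ZMod.natCast_mod k 3, hk]
    rfl
  constructor
  · rintro ⟨hI, hcard⟩
    rw [spike_card] at hcard
    by_cases htr : ∀ i : Fin n, ((i, false) ∈ B ↔ (i, true) ∉ B)
    · left
      refine ⟨htr, fun hmod => ?_⟩
      rw [spike_indep_iff] at hI
      have h1 := hI (fun x => if x ∈ B then 1 else 0) (fun x hx => if_neg hx) ?_
      · have h2 : 0 < (Finset.univ.filter fun i : Fin n => (i, true) ∈ B).card := by omega
        obtain ⟨i, hi⟩ := Finset.card_pos.mp h2
        have h3 := h1 (i, true)
        rw [if_pos (Finset.mem_filter.mp hi).2] at h3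
        exact one_ne_zero h3
      · intro j
        have h2 : (∑ i : Fin n, if (i, true) ∈ B then (1 : ZMod 3) else 0) = 2 := by
          rw [Finset.sum_boole]
          exact hcount _ hmod
        simp only [h2]
        have h3 := htr j
        by_cases h4 : (j, true) ∈ B
        · have h5 : (j, false) ∉ B := fun h => h3.mp h h4
          rw [if_neg h5, if_pos h4]
          decide
        · have h5 : (j, false) ∈ B := h3.mpr h4
          rw [if_pos h5, if_neg h4]
          decide
    · right
      set cnt : Fin n → ℕ := fun i =>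
        (if (i, false) ∈ B then 1 else 0) + (if (i, true) ∈ B then 1 else 0) with hcnt
      have hone : ∀ i, cnt i = 1 ↔ ((i, false) ∈ B ↔ (i, true) ∉ B) := by
        intro i
        simp only [hcnt]
        by_cases h1 : (i, false) ∈ B <;> by_cases h2 : (i, true) ∈ B <;> simp [h1, h2]
      have hzero : ∀ i, cnt i = 0 ↔ ((i, false) ∉ B ∧ (i, true) ∉ B) := by
        intro i
        simp only [hcnt]
        by_cases h1 : (i, false) ∈ B <;> by_cases h2 : (i, true) ∈ B <;> simp [h1, h2]
      have htwo : ∀ i, cnt i = 2 ↔ ((i, false) ∈ B ∧ (i, true) ∈ B) := by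
        intro i
        simp only [hcnt]
        by_cases h1 : (i, false) ∈ B <;> by_cases h2 : (i, true) ∈ B <;> simp [h1, h2]
      have hle : ∀ i, cnt i ≤ 2 := by
        intro i
        simp only [hcnt]
        split_ifs <;> omega
      have hsum : ∑ i, cnt i = ∑ _i : Fin n, 1 := by
        rw [hcard]
        simp
      obtain ⟨q, hq⟩ : ∃ q, cnt q = 0 := by
        by_contra hcon
        push Not at hcon
        have h1 : ∀ i ∈ (Finset.univ : Finset (Fin n)), 1 ≤ cnt i := by
          intro i _
          have := hcon i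
          omega
        have h2 := (Finset.sum_eq_sum_iff_of_le h1).mp hsum.symm
        exact htr fun i => (hone i).mp (h2 i (Finset.mem_univ i)).symm
      obtain ⟨p, hp⟩ : ∃ p, cnt p = 2 := by
        by_contra hcon
        push Not at hcon
        have h1 : ∀ i ∈ (Finset.univ : Finset (Fin n)), cnt i ≤ 1 := by
          intro i _
          have := hcon i
          have := hle i
          omega
        have h2 := (Finset.sum_eq_sum_iff_of_le h1).mp hsum
        exact htr fun i => (hone i).mp (h2 i (Finset.mem_univ i))
      have hpq : p ≠ q := by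
        rintro rfl
        omega
      obtain ⟨hq1, hq2⟩ := (hzero q).mp hq
      obtain ⟨hp1, hp2⟩ := (htwo p).mp hp
      have huniq : ∀ i, i ≠ q → 1 ≤ cnt i := by
        intro q' hq'
        by_contra hcon
        obtain ⟨hq3, hq4⟩ := (hzero q').mp (by omega)
        have h1 : (spike n).Indep ((insert (q, false) B : Finset (Fin n × Bool)) :
            Set (Fin n × Bool)) := by
          rw [spike_indep_iff] at hI ⊢
          intro c hc hj
          have h2 := hj q'
          rw [hc (q', false) (by simp [hq3, hq']), hc (q', true) (by simp [hq4])] at h2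
          have h3 := hj q
          rw [hc (q, true) (by simp [hq2])] at h3
          have h4 : c (q, false) = 0 := by
            rw [zero_add, zero_add] at h2
            rw [h2] at h3
            simpa using h3
          refine hI c ?_ hj
          intro x hx
          by_cases hxq : x = (q, false)
          · rw [hxq]
            exact h4
          · exact hc x (by simp [hx, hxq])
        have h2 := spike_card_le h1
        rw [Finset.card_insert_of_notMem hq1, spike_card, hcard] at h2
        omega
      refine ⟨p, q, hpq, hp1, hp2, hq1, hq2, fun i hip hiq => (hone i).mp ?_⟩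
      by_contra hi1
      have hi2 : cnt i = 2 := by
        have := huniq i hiq
        have := hle i
        omega
      -- total count is too large
      have h1 : ∀ k ∈ (Finset.univ : Finset (Fin n)),
          (1 + (if k = p then 1 else 0) + (if k = i then 1 else 0)) ≤
            cnt k + (if k = q then 1 else 0) := by
        intro k _
        by_cases hkp : k = p
        · subst hkp
          rw [if_pos rfl, if_neg (Ne.symm hip), if_neg hpq, hp]
        · by_cases hki : k = i
          · subst hki
            rw [if_neg hip, if_pos rfl, if_neg hiq, hi2]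
          · by_cases hkq : k = q
            · subst hkq
              rw [if_neg hkp, if_neg hki, if_pos rfl, hq]
            · rw [if_neg hkp, if_neg hki, if_neg hkq]
              exact huniq k hkq
      have h2 := Finset.sum_le_sum h1
      rw [Finset.sum_add_distrib, Finset.sum_add_distrib, Finset.sum_add_distrib, hsum] at h2
      simp only [Finset.sum_ite_eq', Finset.mem_univ, if_true] at h2
      omega
  · rintro (⟨htr, hmod⟩ | ⟨p, q, hpq, hp1, hp2, hq1, hq2, hoth⟩)
    · refine ⟨?_, ?_⟩
      · rw [spike_indep_iff]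
        intro c hc hj
        set S := ∑ i : Fin n, c (i, true) with hS
        have hval : ∀ i, c (i, true) = if (i, true) ∈ B then -S else 0 := by
          intro i
          by_cases h1 : (i, true) ∈ B
          · have h2 : (i, false) ∉ B := fun h => (htr i).mp h h1
            have h3 := hj i
            rw [hc _ h2, zero_add] at h3
            rw [if_pos h1]
            exact eq_neg_of_add_eq_zero_left h3
          · rw [if_neg h1]
            exact hc _ h1
        have hS2 : S = ((Finset.univ.filter fun i : Fin n => (i, true) ∈ B).card : ZMod 3) * (-S) := by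
          rw [Finset.natCast_card_filter, Finset.sum_mul]
          conv_lhs => rw [hS]
          refine Finset.sum_congr rfl fun i _ => ?_
          rw [hval i]
          split_ifs <;> simp
        have hS0 : S = 0 := by
          have h1 : ∀ k : ℕ, k % 3 ≠ 2 → (k : ZMod 3) = 0 ∨ (k : ZMod 3) = 1 := by
            intro k hk
            rw [← ZMod.natCast_mod k 3]
            have : k % 3 = 0 ∨ k % 3 = 1 := by omega
            rcases this with h | h <;> rw [h]
            · left; rfl
            · right; rfl
          rcases h1 _ hmod with h | h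
          · rw [h, zero_mul] at hS2
            exact hS2
          · rw [h, one_mul] at hS2
            have h2 : ∀ s : ZMod 3, s = -s → s = 0 := by decide
            exact h2 S hS2
        have ht : ∀ i, c (i, true) = 0 := by
          intro i
          rw [hval i, hS0]
          simp
        intro x
        obtain ⟨i, b⟩ := x
        cases b
        · have h1 := hj i
          rw [ht i, hS0, add_zero, add_zero] at h1
          exact h1
        · exact ht i
      · rw [spike_card]
        have h1 : ∀ i ∈ (Finset.univ : Finset (Fin n)),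
            ((if (i, false) ∈ B then 1 else 0) + (if (i, true) ∈ B then 1 else 0)) = 1 := by
          intro i _
          have := htr i
          by_cases h1 : (i, false) ∈ B <;> by_cases h2 : (i, true) ∈ B <;> simp_all
        rw [Finset.sum_congr rfl h1]
        simp
    · refine ⟨?_, ?_⟩
      · rw [spike_indep_iff]
        intro c hc hj
        have hS : ∑ i : Fin n, c (i, true) = 0 := by
          have h1 := hj q
          rwa [hc _ hq1, hc _ hq2, zero_add, zero_add] at h1
        have h0 : ∀ i, i ≠ p → c (i, false) = 0 ∧ c (i, true) = 0 := by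
          intro i hip
          have h1 := hj i
          rw [hS, add_zero] at h1
          by_cases hiq : i = q
          · subst hiq
            exact ⟨hc _ hq1, hc _ hq2⟩
          · have h2 := hoth i hip hiq
            by_cases h3 : (i, true) ∈ B
            · have h4 : (i, false) ∉ B := fun h => h2.mp h h3
              rw [hc _ h4, zero_add] at h1
              exact ⟨hc _ h4, h1⟩
            · rw [hc _ h3, add_zero] at h1
              exact ⟨h1, hc _ h3⟩
        have h1 : c (p, true) = 0 := by
          rw [Finset.sum_eq_single p (fun i _ hi => (h0 i hi).2) (by simp)] at hS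
          exact hS
        have h2 : c (p, false) = 0 := by
          have h3 := hj p
          rw [hS, h1, add_zero, add_zero] at h3
          exact h3
        intro x
        obtain ⟨i, b⟩ := x
        by_cases hip : i = p
        · subst hip
          cases b
          · exact h2
          · exact h1
        · cases b
          · exact (h0 i hip).1
          · exact (h0 i hip).2
      · have h1 : ∀ k ∈ (Finset.univ : Finset (Fin n)),
            ((if (k, false) ∈ B then 1 else 0) + (if (k, true) ∈ B then 1 else 0)) +
              (if k = q then 1 else 0) = 1 + (if k = p then 1 else 0) := by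
          intro k _
          by_cases hkp : k = p
          · subst hkp
            rw [if_pos hp1, if_pos hp2, if_neg hpq, if_pos rfl]
          · by_cases hkq : k = q
            · subst hkq
              rw [if_neg hq1, if_neg hq2, if_pos rfl, if_neg hkp]
            · have := hoth k hkp hkq
              rw [if_neg hkp, if_neg hkq]
              by_cases h1 : (k, false) ∈ B <;> by_cases h2 : (k, true) ∈ B <;> simp_all
        have h2 := Finset.sum_congr rfl h1
        rw [Finset.sum_add_distrib (g := fun k => if k = q then 1 else 0), ← spike_card,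
          Finset.sum_add_distrib] at h2
        simp only [Finset.sum_ite_eq', Finset.mem_univ, if_true, Finset.sum_const, smul_eq_mul,
          mul_one, Finset.card_univ, Fintype.card_fin] at h2
        omega

section NoF7

variable {K : Type} [Field K] {W : Type} [AddCommGroup W] [Module K W]

theorem indep3 {u : Fin 7 → W} {a b c : Fin 7} (hab : a ≠ b) (hac : a ≠ c) (hbc : b ≠ c) :
    LinearIndepOn K u (({a, b, c} : Finset (Fin 7)) : Set (Fin 7)) ↔
      ∀ α β γ : K, α • u a + β • u b + γ • u c = 0 → α = 0 ∧ β = 0 ∧ γ = 0 := by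
  rw [linearIndepOn_finset_iff]
  have hsum : ∀ f : Fin 7 → K, ∑ i ∈ ({a, b, c} : Finset (Fin 7)), f i • u i =
      f a • u a + f b • u b + f c • u c := by
    intro f
    rw [Finset.sum_insert (by simp [hab, hac]), Finset.sum_pair hbc, add_assoc]
  constructor
  · intro h α β γ h0
    have h1 := h (fun x => if x = a then α else if x = b then β else γ) (by
      rw [hsum, if_pos rfl, if_neg hab.symm, if_pos rfl, if_neg hac.symm, if_neg hbc.symm]
      exact h0)
    refine ⟨?_, ?_, ?_⟩
    · simpa using h1 a (by simp)
    · simpa [hab.symm] using h1 b (by simp)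
    · simpa [hac.symm, hbc.symm] using h1 c (by simp)
  · intro h f hf
    rw [hsum] at hf
    obtain ⟨h1, h2, h3⟩ := h _ _ _ hf
    intro i hi
    simp only [Finset.mem_insert, Finset.mem_singleton] at hi
    rcases hi with rfl | rfl | rfl <;> assumption

/-- The Fano matroid is not representable over a field of characteristic other than two. -/
theorem F7_not_rep (h2 : (2 : K) ≠ 0) (u : Fin 7 → W)
    (hu : ∀ X : Finset (Fin 7), F7.Indep (X : Set (Fin 7)) ↔ LinearIndepOn K u (X : Set (Fin 7))) :
    False := by
  have hN : ∀ a b c : Fin 7, a ≠ b → a ≠ c → b ≠ c →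
      (¬ ∃ i : Fin 7, ({a, b, c} : Finset (Fin 7)) = {i, i + 1, i + 3}) →
      ∀ α β γ : K, α • u a + β • u b + γ • u c = 0 → α = 0 ∧ β = 0 ∧ γ = 0 := by
    intro a b c hab hac hbc h
    rw [← indep3 hab hac hbc, ← hu]
    have h4 : ({a, b, c} : Finset (Fin 7)).card = 3 :=
      Finset.card_eq_three.mpr ⟨a, b, c, hab, hac, hbc, rfl⟩
    exact (rank3_indep_three h4).mpr h
  have hL : ∀ a b c : Fin 7, a ≠ b → a ≠ c → b ≠ c →
      (∃ i : Fin 7, ({a, b, c} : Finset (Fin 7)) = {i, i + 1, i + 3}) →
      ∃ α β γ : K, α • u a + β • u b + γ • u c = 0 ∧ ¬ (α = 0 ∧ β = 0 ∧ γ = 0) := by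
    intro a b c hab hac hbc h
    have h4 : ({a, b, c} : Finset (Fin 7)).card = 3 :=
      Finset.card_eq_three.mpr ⟨a, b, c, hab, hac, hbc, rfl⟩
    have h5 : ¬ F7.Indep (({a, b, c} : Finset (Fin 7)) : Set (Fin 7)) := fun h6 =>
      (rank3_indep_three h4).mp h6 h
    rw [hu, indep3 hab hac hbc] at h5
    push Not at h5
    obtain ⟨α, β, γ, h6, h7⟩ := h5
    exact ⟨α, β, γ, h6, fun h8 => h7 h8.1 h8.2.1 h8.2.2⟩
  have n012 := hN 0 1 2 (by decide) (by decide) (by decide) (by decide)
  have n230 := hN 2 3 0 (by decide) (by decide) (by decide) (by decide)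
  -- `u 3`
  obtain ⟨x3, y3, e3⟩ : ∃ x y : K, u 3 = x • u 0 + y • u 1 := by
    obtain ⟨α, β, γ, h1, h3⟩ := hL 0 1 3 (by decide) (by decide) (by decide) ⟨0, by decide⟩
    by_cases hγ : γ = 0
    · subst hγ
      obtain ⟨h4, h5, -⟩ := n012 α β 0 (by rw [zero_smul] at h1 ⊢; exact h1)
      exact absurd ⟨h4, h5, rfl⟩ h3
    · refine ⟨-γ⁻¹ * α, -γ⁻¹ * β, ?_⟩
      have h4 : u 3 = γ⁻¹ • (γ • u 3) := by rw [smul_smul, inv_mul_cancel₀ hγ, one_smul]
      have h5 : γ • u 3 = -(α • u 0 + β • u 1) := eq_neg_of_add_eq_zero_right h1
      rw [h4, h5]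
      module
  obtain ⟨y4, z4, e4⟩ : ∃ y z : K, u 4 = y • u 1 + z • u 2 := by
    obtain ⟨α, β, γ, h1, h3⟩ := hL 1 2 4 (by decide) (by decide) (by decide) ⟨1, by decide⟩
    by_cases hγ : γ = 0
    · subst hγ
      obtain ⟨-, h4, h5⟩ := n012 0 α β (by
        rw [zero_smul, add_zero] at h1
        rw [zero_smul, zero_add]
        exact h1)
      exact absurd ⟨h4, h5, rfl⟩ h3
    · refine ⟨-γ⁻¹ * α, -γ⁻¹ * β, ?_⟩
      have h4 : u 4 = γ⁻¹ • (γ • u 4) := by rw [smul_smul, inv_mul_cancel₀ hγ, one_smul]
      have h5 : γ • u 4 = -(α • u 1 + β • u 2) := eq_neg_of_add_eq_zero_right h1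
      rw [h4, h5]
      module
  obtain ⟨x6, z6, e6⟩ : ∃ x z : K, u 6 = x • u 0 + z • u 2 := by
    obtain ⟨α, β, γ, h1, h3⟩ := hL 0 2 6 (by decide) (by decide) (by decide) ⟨6, by decide⟩
    by_cases hγ : γ = 0
    · subst hγ
      obtain ⟨h4, -, h5⟩ := n012 α 0 β (by
        rw [zero_smul, add_zero] at h1
        rw [zero_smul, add_zero]
        exact h1)
      exact absurd ⟨h4, h5, rfl⟩ h3
    · refine ⟨-γ⁻¹ * α, -γ⁻¹ * β, ?_⟩
      have h4 : u 6 = γ⁻¹ • (γ • u 6) := by rw [smul_smul, inv_mul_cancel₀ hγ, one_smul]
      have h5 : γ • u 6 = -(α • u 0 + β • u 2) := eq_neg_of_add_eq_zero_right h1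
      rw [h4, h5]
      module
  obtain ⟨x5, y5, z5, e5, r1⟩ : ∃ x y z : K, u 5 = x • u 0 + y • u 1 + z • u 2 ∧
      y3 * x = x3 * y := by
    obtain ⟨α, β, γ, h1, h3⟩ := hL 2 3 5 (by decide) (by decide) (by decide) ⟨2, by decide⟩
    by_cases hγ : γ = 0
    · subst hγ
      obtain ⟨h4, h5, -⟩ := n230 α β 0 (by rw [zero_smul] at h1 ⊢; exact h1)
      exact absurd ⟨h4, h5, rfl⟩ h3
    · refine ⟨-γ⁻¹ * β * x3, -γ⁻¹ * β * y3, -γ⁻¹ * α, ?_, by ring⟩
      have h4 : u 5 = γ⁻¹ • (γ • u 5) := by rw [smul_smul, inv_mul_cancel₀ hγ, one_smul]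
      have h5 : γ • u 5 = -(α • u 2 + β • u 3) := eq_neg_of_add_eq_zero_right h1
      rw [h4, h5, e3]
      module
  have r2 : y4 * z5 = z4 * y5 := by
    obtain ⟨α, β, γ, h1, h3⟩ := hL 4 5 0 (by decide) (by decide) (by decide) ⟨4, by decide⟩
    obtain ⟨h4, h5, h6⟩ := n012 (β * x5 + γ) (α * y4 + β * y5) (α * z4 + β * z5) (by
      rw [← h1, e4, e5]; module)
    by_contra hne
    have h7 : α * (y4 * z5 - z4 * y5) = 0 := by linear_combination z5 * h5 - y5 * h6
    have h8 : β * (y4 * z5 - z4 * y5) = 0 := by linear_combination y4 * h6 - z4 * h5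
    have h9 := sub_ne_zero.mpr hne
    have hα := (mul_eq_zero.mp h7).resolve_right h9
    have hβ := (mul_eq_zero.mp h8).resolve_right h9
    subst hα hβ
    exact h3 ⟨rfl, rfl, by simpa using h4⟩
  have r3 : x5 * z6 = z5 * x6 := by
    obtain ⟨α, β, γ, h1, h3⟩ := hL 5 6 1 (by decide) (by decide) (by decide) ⟨5, by decide⟩
    obtain ⟨h4, h5, h6⟩ := n012 (α * x5 + β * x6) (α * y5 + γ) (α * z5 + β * z6) (by
      rw [← h1, e5, e6]; module)
    by_contra hne
    have h7 : α * (x5 * z6 - z5 * x6) = 0 := by linear_combination z6 * h4 - x6 * h6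
    have h8 : β * (x5 * z6 - z5 * x6) = 0 := by linear_combination x5 * h6 - z5 * h4
    have h9 := sub_ne_zero.mpr hne
    have hα := (mul_eq_zero.mp h7).resolve_right h9
    have hβ := (mul_eq_zero.mp h8).resolve_right h9
    subst hα hβ
    exact h3 ⟨rfl, rfl, by simpa using h5⟩
  have r4 : x3 * y4 * z6 + y3 * z4 * x6 = 0 := by
    obtain ⟨α, β, γ, h1, h3⟩ := hL 3 4 6 (by decide) (by decide) (by decide) ⟨3, by decide⟩
    obtain ⟨h4, h5, h6⟩ := n012 (α * x3 + γ * x6) (α * y3 + β * y4) (β * z4 + γ * z6) (by
      rw [← h1, e3, e4, e6]; module)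
    by_contra hne
    have h7 : α * (x3 * y4 * z6 + y3 * z4 * x6) = 0 := by
      linear_combination y4 * z6 * h4 + z4 * x6 * h5 - y4 * x6 * h6
    have h8 : β * (x3 * y4 * z6 + y3 * z4 * x6) = 0 := by
      linear_combination x3 * z6 * h5 - y3 * z6 * h4 + y3 * x6 * h6
    have h9 : γ * (x3 * y4 * z6 + y3 * z4 * x6) = 0 := by
      linear_combination x3 * y4 * h6 - x3 * z4 * h5 + y3 * z4 * h4
    have hα := (mul_eq_zero.mp h7).resolve_right hne
    have hβ := (mul_eq_zero.mp h8).resolve_right hne
    have hγ := (mul_eq_zero.mp h9).resolve_right hne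
    exact h3 ⟨hα, hβ, hγ⟩
  -- all the coordinates are nonzero
  have kx3 : x3 ≠ 0 := by
    rintro rfl
    have := (hN 1 2 3 (by decide) (by decide) (by decide) (by decide) (-y3) 0 1 (by
      rw [e3]; module)).2.2
    exact one_ne_zero this
  have ky4 : y4 ≠ 0 := by
    rintro rfl
    have := (hN 0 2 4 (by decide) (by decide) (by decide) (by decide) 0 (-z4) 1 (by
      rw [e4]; module)).2.2
    exact one_ne_zero this
  have kz6 : z6 ≠ 0 := by
    rintro rfl
    have := (hN 0 1 6 (by decide) (by decide) (by decide) (by decide) (-x6) 0 1 (by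
      rw [e6]; module)).2.2
    exact one_ne_zero this
  have kx5 : x5 ≠ 0 := by
    rintro rfl
    have := (hN 1 2 5 (by decide) (by decide) (by decide) (by decide) (-y5) (-z5) 1 (by
      rw [e5]; module)).2.2
    exact one_ne_zero this
  have ky5 : y5 ≠ 0 := by
    rintro rfl
    have := (hN 0 2 5 (by decide) (by decide) (by decide) (by decide) (-x5) (-z5) 1 (by
      rw [e5]; module)).2.2
    exact one_ne_zero this
  have kz5 : z5 ≠ 0 := by
    rintro rfl
    have := (hN 0 1 5 (by decide) (by decide) (by decide) (by decide) (-x5) (-y5) 1 (by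
      rw [e5]; module)).2.2
    exact one_ne_zero this
  have h5 : (x3 * y4 * z6) * (x5 * y5 * z5) = (y3 * z4 * x6) * (x5 * y5 * z5) := by
    calc (x3 * y4 * z6) * (x5 * y5 * z5) = (x3 * y5) * (y4 * z5) * (x5 * z6) := by ring
      _ = (y3 * x5) * (z4 * y5) * (z5 * x6) := by rw [r1, r2, r3]
      _ = _ := by ring
  have h6 := mul_right_cancel₀ (mul_ne_zero (mul_ne_zero kx5 ky5) kz5) h5
  rw [← h6, ← two_mul] at r4
  exact mul_ne_zero h2 (mul_ne_zero (mul_ne_zero kx3 ky4) kz6) r4

/-- A matroid representable over a field of characteristic other than two has no minor isomorphic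
to `F₇`. -/
theorem no_F7_of_rep (h2 : (2 : K) ≠ 0) {α : Type} {M : Matroid α} (v : α → W)
    (hM : ∀ I, M.Indep I ↔ LinearIndepOn K v I) : ¬ HasMinor M F7 := by
  rintro ⟨f, hf, hm⟩
  have hinj : Function.Injective f := by
    intro a b hab
    exact hf (by simp [F7]) (by simp [F7]) hab
  obtain ⟨C, D, hC, hD, hCD, hN⟩ := hm.exists_eq_contract_delete_disjoint
  obtain ⟨I₀, hI₀⟩ := M.exists_isBasis' C
  refine F7_not_rep h2 (fun x => (Submodule.span K (v '' I₀)).mkQ (v (f x))) fun X => ?_
  have hE : f '' (X : Set (Fin 7)) ⊆ (F7.map f hf).E := by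
    rw [Matroid.map_ground]
    exact Set.image_mono (by simp [F7])
  rw [hN] at hE
  have hdC : Disjoint C (f '' (X : Set (Fin 7))) :=
    Set.disjoint_left.mpr fun x hxC hx => (hE hx).1.2 hxC
  have hdD : Disjoint (f '' (X : Set (Fin 7))) D :=
    Set.disjoint_left.mpr fun x hx hxD => (hE hx).2 hxD
  rw [← Matroid.map_image_indep_iff (hf := hf) (by simp [F7] : (X : Set (Fin 7)) ⊆ F7.E), hN,
    Matroid.delete_indep_iff, and_iff_left hdD, hI₀.contract_indep_iff, and_iff_left hdC, hM,
    Set.union_comm, ← LinearIndepOn.quotient_iff_union ((hM _).mp hI₀.indep)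
      (hdC.mono_left hI₀.subset)]
  constructor
  · intro h
    exact h.comp_of_image hinj.injOn
  · intro h
    exact LinearIndepOn.image_of_comp f _ h

end NoF7

/-- The spike has no minor isomorphic to `F₇`. -/
theorem spike_no_F7 (n : ℕ) : ¬ HasMinor (spike n) F7 :=
  no_F7_of_rep (K := ZMod 3) (by decide) (spikeVec n) fun _ => Iff.rfl

/-- The dual of the spike is the spike with `a_i` and `b_i` interchanged. -/
theorem spike_dual_isBase {n : ℕ} (B : Finset (Fin n × Bool)) :
    (spike n)✶.IsBase (B : Set (Fin n × Bool)) ↔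
      (spike n).IsBase ((B.image fun x => (x.1, !x.2) : Finset (Fin n × Bool)) :
        Set (Fin n × Bool)) := by
  classical
  rw [Matroid.dual_isBase_iff (by simp)]
  have h1 : (spike n).E \ (B : Set (Fin n × Bool)) =
      ((Bᶜ : Finset (Fin n × Bool)) : Set (Fin n × Bool)) := by
    rw [spike_E, Finset.coe_compl, Set.compl_eq_univ_sdiff]
  have hm : ∀ i b, (i, b) ∈ (B.image fun x => (x.1, !x.2) : Finset (Fin n × Bool)) ↔
      (i, !b) ∈ B := by
    intro i b
    simp only [Finset.mem_image, Prod.mk.injEq, Prod.exists]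
    constructor
    · rintro ⟨a, c, h, rfl, rfl⟩
      simpa using h
    · intro h
      exact ⟨i, !b, h, rfl, by simp⟩
  rw [h1, spike_isBase_iff, spike_isBase_iff]
  simp only [hm, Finset.mem_compl, Bool.not_true, Bool.not_false, not_not]
  constructor
  · rintro (⟨h2, h3⟩ | ⟨p, q, hpq, h2, h3, h4, h5, h6⟩)
    · left
      refine ⟨fun i => ?_, ?_⟩
      · have := h2 i
        tauto
      · have h7 : (Finset.univ.filter fun i : Fin n => (i, false) ∈ B) =
            Finset.univ.filter fun i : Fin n => (i, true) ∉ B := by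
          ext i
          have := h2 i
          simp only [Finset.mem_filter, Finset.mem_univ, true_and]
          tauto
        rw [h7]
        exact h3
    · right
      refine ⟨q, p, hpq.symm, h5, h4, h3, h2, fun i hi hi' => ?_⟩
      have := h6 i hi' hi
      tauto
  · rintro (⟨h2, h3⟩ | ⟨p, q, hpq, h2, h3, h4, h5, h6⟩)
    · left
      refine ⟨fun i => ?_, ?_⟩
      · have := h2 i
        tauto
      · have h7 : (Finset.univ.filter fun i : Fin n => (i, true) ∉ B) =
            Finset.univ.filter fun i : Fin n => (i, false) ∈ B := by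
          ext i
          have := h2 i
          simp only [Finset.mem_filter, Finset.mem_univ, true_and]
          tauto
        rw [h7]
        exact h3
    · right
      refine ⟨q, p, hpq.symm, h5, h4, h3, h2, fun i hi hi' => ?_⟩
      have := h6 i hi' hi
      tauto

theorem spike_dual_indep {n : ℕ} (I : Set (Fin n × Bool)) :
    (spike n)✶.Indep I ↔ LinearIndepOn (ZMod 3) (fun x => spikeVec n (x.1, !x.2)) I := by
  classical
  have hinj : Function.Injective fun x : Fin n × Bool => (x.1, !x.2) := by
    rintro ⟨a, b⟩ ⟨c, d⟩ h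
    simpa using h
  have h1 : LinearIndepOn (ZMod 3) (fun x => spikeVec n (x.1, !x.2)) I ↔
      (spike n).Indep ((fun x : Fin n × Bool => (x.1, !x.2)) '' I) := by
    constructor
    · intro h
      exact LinearIndepOn.image_of_comp (fun x : Fin n × Bool => (x.1, !x.2)) (spikeVec n) h
    · intro h
      exact LinearIndepOn.comp_of_image (f := fun x : Fin n × Bool => (x.1, !x.2))
        (v := spikeVec n) h hinj.injOn
  rw [h1]
  constructor
  · intro h
    obtain ⟨B, hB, hsub⟩ := h.exists_isBase_superset
    have h3 : B = ((Set.toFinite B).toFinset : Set (Fin n × Bool)) :=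
      (Set.Finite.coe_toFinset _).symm
    rw [h3, spike_dual_isBase] at hB
    refine hB.indep.subset ?_
    rw [Finset.coe_image, ← h3]
    exact Set.image_mono hsub
  · intro h
    obtain ⟨B, hB, hsub⟩ := h.exists_isBase_superset
    have h3 : B = ((Set.toFinite B).toFinset : Set (Fin n × Bool)) :=
      (Set.Finite.coe_toFinset _).symm
    have h4 : (spike n)✶.IsBase (((Set.toFinite B).toFinset.image fun x => (x.1, !x.2) :
        Finset (Fin n × Bool)) : Set (Fin n × Bool)) := by
      rw [spike_dual_isBase, Finset.image_image]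
      have h5 : ((fun x : Fin n × Bool => (x.1, !x.2)) ∘ fun x : Fin n × Bool => (x.1, !x.2)) =
          id := by
        funext x
        simp
      rw [h5, Finset.image_id, ← h3]
      exact hB
    refine h4.indep.subset ?_
    rw [Finset.coe_image, ← h3]
    intro x hx
    refine ⟨(x.1, !x.2), hsub ⟨x, hx, rfl⟩, by simp⟩

/-- A minor of the dual. -/
theorem isMinor_dual {α : Type} {M N : Matroid α} (h : N.IsMinor M) : N✶.IsMinor M✶ := by
  obtain ⟨C, D, hC, hD, hCD, rfl⟩ := h.exists_eq_contract_delete_disjoint
  rw [Matroid.dual_contract_delete, ← Matroid.contract_delete_comm _ hCD.symm]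
  exact Matroid.contract_delete_isMinor _ _ _

/-- The spike has no minor isomorphic to the dual of `F₇`. -/
theorem spike_no_F7_dual (n : ℕ) : ¬ HasMinor (spike n) F7✶ := by
  rintro ⟨f, hf, hm⟩
  have h1 := isMinor_dual hm
  rw [Matroid.map_dual] at h1
  have h2 : F7✶✶.map f hf = F7.map f hf := by
    congr 1
    exact Matroid.dual_dual F7
  rw [h2] at h1
  exact no_F7_of_rep (K := ZMod 3) (by decide) _ spike_dual_indep ⟨f, hf, h1⟩

end Pool.Agent.Lib.QTri
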