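import Pool.Agent.Lib.QTri.PropSound
import Pool.Agent.Lib.QTri.Sem2

/-!
# Soundness of the checker: pairs, triples and Farkas lemmas
-/

namespace Pool.Agent.Lib.QTri

attribute [local irreducible] masks

/-! ### Trees and lists -/

theorem BT.get_l (v i : ℕ) : (BT.l v).get i = v := rfl

theorem BT.get_n (a b : BT) (i : ℕ) : (BT.n a b).get i =
    cond (Nat.beq (Nat.land i 1) 0) (a.get (Nat.shiftRight i 1)) (b.get (Nat.shiftRight i 1)) :=
  rfl

/-- The tree is complete of depth `d`. -/
def BT.full : ℕ → BT → Bool
  | 0, .l _ => true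
  | 0, .n _ _ => false
  | _ + 1, .l _ => false
  | d + 1, .n a b => a.full d && b.full d

theorem BT.get_mod {d : ℕ} : ∀ {t : BT}, t.full d = true → ∀ i, t.get i = t.get (i % 2 ^ d) := by
  induction d with
  | zero =>
    intro t ht i
    cases t with
    | l v => rfl
    | n a b => exact Bool.noConfusion ht
  | succ d ih =>
    intro t ht i
    cases t with
    | l v => exact Bool.noConfusion ht
    | n a b =>
      rw [BT.full, Bool.and_eq_true] at ht
      rw [BT.get_n, BT.get_n]
      have h1 : Nat.land (i % 2 ^ (d + 1)) 1 = Nat.land i 1 := by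
        change (i % 2 ^ (d + 1)) &&& 1 = i &&& 1
        rw [Nat.and_one_is_mod, Nat.and_one_is_mod, Nat.mod_mod_of_dvd]
        exact dvd_pow_self 2 (by omega)
      have h2 : Nat.shiftRight (i % 2 ^ (d + 1)) 1 = (Nat.shiftRight i 1) % 2 ^ d := by
        change (i % 2 ^ (d + 1)) >>> 1 = (i >>> 1) % 2 ^ d
        rw [Nat.shiftRight_eq_div_pow, Nat.shiftRight_eq_div_pow, pow_one, pow_succ, mul_comm,
          Nat.mod_mul_right_div_self]
      rw [h1, h2]
      cases Nat.beq (Nat.land i 1) 0
      · exact ih ht.2 _
      · exact ih ht.1 _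

theorem unp_zero (b p : ℕ) : unp b 0 p = [] := rfl

theorem unp_succ (b fuel p : ℕ) : unp b (fuel + 1) p = cond (Nat.beq p 0) []
      (Nat.land p (Nat.sub (Nat.shiftLeft 1 b) 1) :: unp b fuel (Nat.shiftRight p b)) := rfl

theorem elem_nil (x : ℕ) : elem x [] = false := rfl

theorem elem_cons (x y : ℕ) (L : List ℕ) :
    elem x (y :: L) = cond (Nat.beq x y) true (elem x L) := rfl

theorem mem_of_elem {x : ℕ} : ∀ {L : List ℕ}, elem x L = true → x ∈ L := by
  intro L
  induction L with
  | nil =>
    intro h
    rw [elem_nil] at h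
    exact Bool.noConfusion h
  | cons y L ih =>
    intro h
    rw [elem_cons] at h
    cases h1 : Nat.beq x y
    · rw [h1, cond_false] at h
      exact List.mem_cons_of_mem _ (ih h)
    · rw [beq_true h1]
      exact List.mem_cons_self

theorem rem_nil (x : ℕ) : rem x [] = (false, []) := rfl

theorem rem_cons (x y : ℕ) (L : List ℕ) :
    rem x (y :: L) = cond (Nat.beq x y) (true, L) ((rem x L).1, y :: (rem x L).2) := rfl

theorem rem_perm {x : ℕ} : ∀ {L : List ℕ}, (rem x L).1 = true → L.Perm (x :: (rem x L).2) := by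
  intro L
  induction L with
  | nil =>
    intro h
    rw [rem_nil] at h
    exact Bool.noConfusion h
  | cons y L ih =>
    intro h
    rw [rem_cons] at h ⊢
    cases h1 : Nat.beq x y
    · rw [h1, cond_false] at h
      rw [cond_false]
      exact ((ih h).cons y).trans (List.Perm.swap _ _ _)
    · rw [cond_true, beq_true h1]

theorem perm_nil_nil : perm [] [] = true := rfl

theorem perm_nil_cons (x : ℕ) (L : List ℕ) : perm [] (x :: L) = false := rfl

theorem perm_cons (x : ℕ) (L M : List ℕ) :
    perm (x :: L) M = cond (rem x M).1 (perm L (rem x M).2) false := rfl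

theorem perm_sound : ∀ {L M : List ℕ}, perm L M = true → L.Perm M := by
  intro L
  induction L with
  | nil =>
    intro M h
    cases M with
    | nil => exact List.Perm.nil
    | cons x M =>
      rw [perm_nil_cons] at h
      exact Bool.noConfusion h
  | cons x L ih =>
    intro M h
    rw [perm_cons] at h
    cases h1 : (rem x M).1
    · rw [h1, cond_false] at h
      exact Bool.noConfusion h
    · rw [h1, cond_true] at h
      exact ((ih h).cons x).trans (rem_perm h1).symm

/-! ### Masks -/

/-- `ms` is the mask of the set of masks of bases. -/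
def MsOK (ms : ℕ) : Prop := ∀ m, isM ms m = true ↔ m ∈ masks 4

theorem lt_of_mem {m : ℕ} (h : m ∈ masks 4) : m < 256 := by
  unfold masks at h
  have := List.mem_range.mp (List.mem_filter.mp h).1
  norm_num at this
  exact this

/-- The valuation given by the weight `w`: the variable `v` says that the pair of masks coded by
the entry `v` of the table is standard. -/
def Val (pv : BT) (w : ℕ → ℝ) (v : ℕ) : Prop := MStd w (pv.get v >>> 8) (pv.get v &&& 255)

/-- The weights that we want to exclude. -/
def Good (w : ℕ → ℝ) : Prop := MCoherent w ∧ Canon w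

theorem oneEx_check : ∀ x < 256, oneEx x = true → x = 0 ∨ pc x = 2 := by
  decide +kernel

theorem ccode_check : ((masks 4).all fun a => (masks 4).all fun b =>
    Nat.beq (ccode (Nat.add (Nat.shiftLeft a 8) b))
      (((canonPair a b).1 <<< 8) + (canonPair a b).2)) = true := by
  decide +kernel

theorem ccode_eq {a b : ℕ} (ha : a ∈ masks 4) (hb : b ∈ masks 4) :
    ccode (Nat.add (Nat.shiftLeft a 8) b) = ((canonPair a b).1 <<< 8) + (canonPair a b).2 := by
  have h1 := ccode_check
  rw [List.all_eq_true] at h1
  have h2 := h1 a ha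
  rw [List.all_eq_true] at h2
  exact beq_true (h2 b hb)

theorem code_fst {x y : ℕ} (hy : y < 256) : ((x <<< 8) + y) >>> 8 = x := by
  rw [Nat.shiftLeft_eq, Nat.shiftRight_eq_div_pow]
  omega

theorem code_snd {x y : ℕ} (hy : y < 256) : ((x <<< 8) + y) &&& 255 = y := by
  rw [show (255 : ℕ) = 2 ^ 8 - 1 by norm_num, Nat.and_two_pow_sub_one_eq_mod, Nat.shiftLeft_eq]
  omega

theorem pairOk_sound {pv : BT} {w : ℕ → ℝ} (hc : Canon w) (h0 : pv.get 0 = 85 * 256 + 85)
    {a b v : ℕ} (ha : a ∈ masks 4) (hb : b ∈ masks 4) (h : pairOk pv a b v = true) :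
    MStd w a b ↔ Val pv w v := by
  unfold pairOk at h
  cases hv : Nat.beq v 0
  · rw [hv, cond_false] at h
    rw [ccode_eq ha hb] at h
    obtain ⟨h1, h2, h3⟩ := canonPair_spec hc ha hb
    generalize (canonPair a b).1 = x at *
    generalize (canonPair a b).2 = y at *
    have hx := lt_of_mem h1
    have hy := lt_of_mem h2
    rw [h3]
    unfold Val
    cases h4 : Nat.beq ((x <<< 8) + y) (pv.get v)
    · rw [h4, cond_false] at h
      rw [← beq_true h]
      have h5 : cswap ((x <<< 8) + y) = (y <<< 8) + x := by
        unfold cswap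
        change ((((x <<< 8) + y) &&& 255) <<< 8) + (((x <<< 8) + y) >>> 8) = _
        rw [code_fst hy, code_snd hy]
      rw [h5, code_fst hx, code_snd hx]
      exact MStd.comm
    · rw [← beq_true h4, code_fst hy, code_snd hy]
  · rw [hv, cond_true] at h
    rw [beq_true hv]
    have h1 : MStd w a b := by
      rcases oneEx_check (a ^^^ b) (Nat.xor_lt_two_pow (n := 8) (lt_of_mem ha) (lt_of_mem hb)) h
        with h2 | h2
      · rw [Nat.xor_eq_zero_iff.mp h2]
        exact MStd.self w b
      · exact MStd.of_pc_two w ha hb h2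
    have h2 : Val pv w 0 := by
      unfold Val
      rw [h0]
      exact MStd.self w _
    exact ⟨fun _ => h2, fun _ => h1⟩

end Pool.Agent.Lib.QTri
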