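import Pool.Agent.Lib.QTri.TabSound

/-!
# Soundness of the checker: Farkas lemmas, exclusions and images
-/

namespace Pool.Agent.Lib.QTri

attribute [local irreducible] masks

/-! ### Farkas lemmas -/

theorem shift_land_one {M i : ℕ} (h : Nat.beq (Nat.land (Nat.shiftRight M i) 1) 0 = false) :
    M.testBit i = true := by
  have := land_one_beq h
  change (M >>> i).testBit 0 = true at this
  rwa [Nat.testBit_shiftRight, add_zero] at this

theorem isM_of_land {ms m : ℕ} (h : Nat.beq (Nat.land (Nat.shiftRight ms m) 1) 0 = false) :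
    isM ms m = true := by
  unfold isM
  have h1 := shift_land_one h
  rw [Nat.testBit_eq_decide_div_mod_eq, decide_eq_true_eq] at h1
  have h2 : Nat.land (Nat.shiftRight ms m) 1 = 1 := by
    change (ms >>> m) &&& 1 = 1
    rw [Nat.and_one_is_mod, Nat.shiftRight_eq_div_pow]
    exact h1
  rw [h2]
  rfl

theorem termOk_sound {pv : BT} {ms M : ℕ} {w : ℕ → ℝ} (hg : Good w) (hms : MsOK ms)
    (h0 : pv.get 0 = 85 * 256 + 85) (hM : FF (Val pv w) M) {v a b c d : ℕ}
    (h : termOk pv ms M v a b c d = true) : w a + w b < w c + w d := by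
  unfold termOk at h
  cases h1 : Nat.beq (Nat.land (Nat.shiftRight M (Nat.add (Nat.mul 2 v) 1)) 1) 0
  swap
  · rw [h1, cond_true] at h; exact Bool.noConfusion h
  rw [h1, cond_false] at h
  cases h2 : Nat.beq (Nat.land (Nat.shiftRight ms a) 1) 0
  swap
  · rw [h2, cond_true] at h; exact Bool.noConfusion h
  rw [h2, cond_false] at h
  cases h3 : Nat.beq (Nat.land (Nat.shiftRight ms b) 1) 0
  swap
  · rw [h3, cond_true] at h; exact Bool.noConfusion h
  rw [h3, cond_false] at h
  cases h4 : Nat.beq (Nat.land (Nat.shiftRight ms c) 1) 0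
  swap
  · rw [h4, cond_true] at h; exact Bool.noConfusion h
  rw [h4, cond_false] at h
  cases h5 : Nat.beq (Nat.land (Nat.shiftRight ms d) 1) 0
  swap
  · rw [h5, cond_true] at h; exact Bool.noConfusion h
  rw [h5, cond_false] at h
  cases h6 : Nat.beq (Nat.land a b) (Nat.land c d)
  · rw [h6, cond_false] at h; exact Bool.noConfusion h
  rw [h6, cond_true] at h
  cases h7 : Nat.beq (Nat.lor a b) (Nat.lor c d)
  · rw [h7, cond_false] at h; exact Bool.noConfusion h
  rw [h7, cond_true] at h
  cases h8 : Nat.beq a c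
  swap
  · rw [h8, cond_true] at h; exact Bool.noConfusion h
  rw [h8, cond_false] at h
  cases h9 : Nat.beq a d
  swap
  · rw [h9, cond_true] at h; exact Bool.noConfusion h
  rw [h9, cond_false] at h
  have ha := (hms a).mp (isM_of_land h2)
  have hb := (hms b).mp (isM_of_land h3)
  have hc := (hms c).mp (isM_of_land h4)
  have hd := (hms d).mp (isM_of_land h5)
  have hv : Val pv w v := by
    have := hM _ (shift_land_one h1)
    change ¬ LT (Val pv w) (2 * v + 1) at this
    rw [LT_odd, not_not] at this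
    exact this
  have hab : MStd w a b := (pairOk_sound hg.2 h0 ha hb h).mpr hv
  refine strict hg.1 ha hb hc hd ⟨beq_true h6, beq_true h7⟩ hab ?_
  rintro (⟨h10, -⟩ | ⟨-, h10⟩)
  · exact beq_false h8 h10.symm
  · exact beq_false h9 h10.symm

theorem termsOk_nil (pv : BT) (ms M : ℕ) : termsOk pv ms M [] = true := rfl

theorem termsOk_cons (pv : BT) (ms M t : ℕ) (L : List ℕ) : termsOk pv ms M (t :: L) = cond
    (termOk pv ms M (Nat.land t 4095) (Nat.land (Nat.shiftRight t 12) 255)
      (Nat.land (Nat.shiftRight t 20) 255) (Nat.land (Nat.shiftRight t 28) 255)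
      (Nat.land (Nat.shiftRight t 36) 255)) (termsOk pv ms M L) false := rfl

theorem lows_cons (t : ℕ) (L : List ℕ) : lows (t :: L) =
    Nat.land (Nat.shiftRight t 12) 255 :: Nat.land (Nat.shiftRight t 20) 255 :: lows L := rfl

theorem ups_cons (t : ℕ) (L : List ℕ) : ups (t :: L) =
    Nat.land (Nat.shiftRight t 28) 255 :: Nat.land (Nat.shiftRight t 36) 255 :: ups L := rfl

theorem terms_sum {pv : BT} {ms M : ℕ} {w : ℕ → ℝ} (hg : Good w) (hms : MsOK ms)
    (h0 : pv.get 0 = 85 * 256 + 85) (hM : FF (Val pv w) M) : ∀ L : List ℕ,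
    termsOk pv ms M L = true → ((lows L).map w).sum ≤ ((ups L).map w).sum ∧
      (L ≠ [] → ((lows L).map w).sum < ((ups L).map w).sum) := by
  intro L
  induction L with
  | nil => exact fun _ => ⟨le_refl _, fun h => absurd rfl h⟩
  | cons t L ih =>
    intro h
    rw [termsOk_cons] at h
    cases h1 : termOk pv ms M (Nat.land t 4095) (Nat.land (Nat.shiftRight t 12) 255)
      (Nat.land (Nat.shiftRight t 20) 255) (Nat.land (Nat.shiftRight t 28) 255)
      (Nat.land (Nat.shiftRight t 36) 255)
    · rw [h1, cond_false] at h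
      exact Bool.noConfusion h
    · rw [h1, cond_true] at h
      have h2 := termOk_sound hg hms h0 hM h1
      have h3 := (ih h).1
      rw [lows_cons, ups_cons]
      simp only [List.map_cons, List.sum_cons]
      constructor
      · linarith
      · intro _
        linarith

theorem theory_sound {pv : BT} {ms M p : ℕ} {w : ℕ → ℝ} (hg : Good w) (hms : MsOK ms)
    (h0 : pv.get 0 = 85 * 256 + 85) (h : theoryOk pv ms M p = true) : CT (Val pv w) M := by
  by_contra hcon
  have hM : FF (Val pv w) M := fun l hl hlt => hcon ⟨l, hl, hlt⟩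
  unfold theoryOk at h
  cases h1 : Nat.beq p 0
  swap
  · rw [h1, cond_true] at h; exact Bool.noConfusion h
  rw [h1, cond_false] at h
  cases h2 : termsOk pv ms M (unp 44 100 p)
  · rw [h2, cond_false] at h; exact Bool.noConfusion h
  rw [h2, cond_true] at h
  have h3 : unp 44 100 p ≠ [] := by
    rw [unp_succ, h1, cond_false]
    exact List.cons_ne_nil _ _
  have h4 := (terms_sum hg hms h0 hM _ h2).2 h3
  have h5 := ((perm_sound h).map w).sum_eq
  linarith

/-! ### Exclusions -/

theorem tripOk_sound {pv : BT} {ms M t q : ℕ} {w : ℕ → ℝ} (hg : Good w) (hms : MsOK ms)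
    (h0 : pv.get 0 = 85 * 256 + 85) (hM : FF (Val pv w) M) (h : tripOk pv ms M t q = true) :
    (t &&& 255) ∈ masks 4 ∧ ((t >>> 8) &&& 255) ∈ masks 4 ∧ ((t >>> 16) &&& 255) ∈ masks 4 ∧
      MStd w (t &&& 255) ((t >>> 8) &&& 255) ∧ MStd w (t &&& 255) ((t >>> 16) &&& 255) ∧
      MStd w ((t >>> 8) &&& 255) ((t >>> 16) &&& 255) := by
  unfold tripOk at h
  cases h1 : isM ms (Nat.land t 255)
  · rw [h1, cond_false] at h; exact Bool.noConfusion h
  rw [h1, cond_true] at h
  cases h2 : isM ms (Nat.land (Nat.shiftRight t 8) 255)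
  · rw [h2, cond_false] at h; exact Bool.noConfusion h
  rw [h2, cond_true] at h
  cases h3 : isM ms (Nat.land (Nat.shiftRight t 16) 255)
  · rw [h3, cond_false] at h; exact Bool.noConfusion h
  rw [h3, cond_true] at h
  cases h4 : pairOk pv (Nat.land t 255) (Nat.land (Nat.shiftRight t 8) 255) (Nat.land q 2047)
  · rw [h4, cond_false] at h; exact Bool.noConfusion h
  rw [h4, cond_true] at h
  cases h5 : pairOk pv (Nat.land t 255) (Nat.land (Nat.shiftRight t 16) 255)
    (Nat.land (Nat.shiftRight q 11) 2047)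
  · rw [h5, cond_false] at h; exact Bool.noConfusion h
  rw [h5, cond_true] at h
  cases h6 : pairOk pv (Nat.land (Nat.shiftRight t 8) 255) (Nat.land (Nat.shiftRight t 16) 255)
    (Nat.land (Nat.shiftRight q 22) 2047)
  · rw [h6, cond_false] at h; exact Bool.noConfusion h
  rw [h6, cond_true] at h
  have g1 := (hms _).mp h1
  have g2 := (hms _).mp h2
  have g3 := (hms _).mp h3
  -- all three variables are true
  have h0v : Val pv w 0 := by
    unfold Val
    rw [h0]
    exact MStd.self w _
  have key : ∀ u, (optMask q).testBit (2 * u) = true → Val pv w u := by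
    intro u hu
    by_cases hu0 : u = 0
    · rw [hu0]
      exact h0v
    · have h7 := beq_true h
      have h8 := congrArg (fun x => x.testBit (2 * u + 1)) h7
      change ((optMask q <<< 1) ||| (M ||| 2)).testBit (2 * u + 1) =
        (M ||| 2).testBit (2 * u + 1) at h8
      have h9 : (2 : ℕ).testBit (2 * u + 1) = false := by
        rw [show (2 : ℕ) = 2 ^ 1 by norm_num, Nat.testBit_two_pow]
        exact decide_eq_false (by omega)
      rw [Nat.testBit_or, Nat.testBit_or, h9, Bool.or_false, Nat.testBit_shiftLeft] at h8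
      rw [show 2 * u + 1 - 1 = 2 * u by omega, hu] at h8
      simp only [ge_iff_le, le_add_iff_nonneg_left, zero_le, decide_true, Bool.and_self,
        Bool.true_or] at h8
      have := hM _ h8.symm
      rw [LT_odd, not_not] at this
      exact this
  have ob : ∀ u, u = (q &&& 2047) ∨ u = ((q >>> 11) &&& 2047) ∨ u = ((q >>> 22) &&& 2047) →
      (optMask q).testBit (2 * u) = true := by
    intro u hu
    unfold optMask
    change (1 <<< (2 * (q &&& 2047)) ||| (1 <<< (2 * ((q >>> 11) &&& 2047)) |||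
      1 <<< (2 * ((q >>> 22) &&& 2047)))).testBit (2 * u) = true
    simp only [Nat.testBit_or, Nat.shiftLeft_eq, one_mul, Nat.testBit_two_pow, Bool.or_eq_true,
      decide_eq_true_eq]
    rcases hu with rfl | rfl | rfl
    · exact Or.inl rfl
    · exact Or.inr (Or.inl rfl)
    · exact Or.inr (Or.inr rfl)
  refine ⟨g1, g2, g3, ?_, ?_, ?_⟩
  · exact (pairOk_sound hg.2 h0 g1 g2 h4).mpr (key _ (ob _ (Or.inl rfl)))
  · exact (pairOk_sound hg.2 h0 g1 g3 h5).mpr (key _ (ob _ (Or.inr (Or.inl rfl))))
  · exact (pairOk_sound hg.2 h0 g2 g3 h6).mpr (key _ (ob _ (Or.inr (Or.inr rfl))))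

theorem amo_sound {pv : BT} {ms M t q t' q' : ℕ} {w : ℕ → ℝ} (hg : Good w) (hms : MsOK ms)
    (h0 : pv.get 0 = 85 * 256 + 85) (h : amoOk pv ms M t q t' q' = true) : CT (Val pv w) M := by
  by_contra hcon
  have hM : FF (Val pv w) M := fun l hl hlt => hcon ⟨l, hl, hlt⟩
  unfold amoOk at h
  cases h1 : tripOk pv ms M t q
  · rw [h1, cond_false] at h; exact Bool.noConfusion h
  rw [h1, cond_true] at h
  cases h2 : tripOk pv ms M t' q'
  · rw [h2, cond_false] at h; exact Bool.noConfusion h
  rw [h2, cond_true] at h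
  cases h3 : Nat.beq (Nat.xor (Nat.xor (Nat.land t 255) (Nat.land (Nat.shiftRight t 8) 255))
      (Nat.land (Nat.shiftRight t 16) 255))
    (Nat.xor (Nat.xor (Nat.land t' 255) (Nat.land (Nat.shiftRight t' 8) 255))
      (Nat.land (Nat.shiftRight t' 16) 255))
  · rw [h3, cond_false] at h; exact Bool.noConfusion h
  rw [h3, cond_true] at h
  cases h4 : Nat.beq (maj (Nat.land t 255) (Nat.land (Nat.shiftRight t 8) 255)
      (Nat.land (Nat.shiftRight t 16) 255))
    (maj (Nat.land t' 255) (Nat.land (Nat.shiftRight t' 8) 255)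
      (Nat.land (Nat.shiftRight t' 16) 255))
  · rw [h4, cond_false] at h; exact Bool.noConfusion h
  rw [h4, cond_true] at h
  cases h5 : Nat.beq (Nat.land t' 255) (Nat.land t 255)
  swap
  · rw [h5, cond_true] at h; exact Bool.noConfusion h
  rw [h5, cond_false] at h
  cases h6 : Nat.beq (Nat.land t' 255) (Nat.land (Nat.shiftRight t 8) 255)
  swap
  · rw [h6, cond_true] at h; exact Bool.noConfusion h
  rw [h6, cond_false] at h
  cases h7 : Nat.beq (Nat.land t' 255) (Nat.land (Nat.shiftRight t 16) 255)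
  swap
  · rw [h7, cond_true] at h; exact Bool.noConfusion h
  obtain ⟨a1, a2, a3, a4, a5, a6⟩ := tripOk_sound hg hms h0 hM h1
  obtain ⟨b1, b2, b3, b4, b5, b6⟩ := tripOk_sound hg hms h0 hM h2
  rcases hg.1.unique3 _ a1 _ a2 _ a3 _ b1 _ b2 _ b3 ⟨beq_true h3, beq_true h4⟩ a4 a5 a6 b4 b5 b6
    with h8 | h8 | h8
  · exact beq_false h5 h8
  · exact beq_false h6 h8
  · exact beq_false h7 h8

/-! ### Images -/

theorem mk_succ (fuel p : ℕ) : mk (fuel + 1) p = cond (Nat.beq p 0) 0
      (Nat.lor (Nat.shiftLeft 1 (Nat.land p 4095)) (mk fuel (Nat.shiftRight p 12))) := rfl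

theorem imgMask_succ (pm : BT) (g fuel p : ℕ) : imgMask pm g (fuel + 1) p = cond (Nat.beq p 0) 0
      (Nat.lor (Nat.shiftLeft 1 (mapLit pm g (Nat.land p 4095)))
        (imgMask pm g fuel (Nat.shiftRight p 12))) := rfl

theorem mk_img (pm : BT) (g : ℕ) {l : ℕ} : ∀ fuel p, (mk fuel p).testBit l = true →
    l < 4096 ∧ (imgMask pm g fuel p).testBit (mapLit pm g l) = true := by
  intro fuel
  induction fuel with
  | zero =>
    intro p h
    change (0 : ℕ).testBit l = true at h
    rw [Nat.zero_testBit] at h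
    exact Bool.noConfusion h
  | succ fuel ih =>
    intro p h
    rw [mk_succ] at h
    rw [imgMask_succ]
    cases h1 : Nat.beq p 0
    · rw [h1, cond_false] at h
      rw [cond_false]
      change ((1 <<< (p &&& 4095)) ||| mk fuel (p >>> 12)).testBit l = true at h
      change l < 4096 ∧ ((1 <<< (mapLit pm g (p &&& 4095))) |||
        imgMask pm g fuel (p >>> 12)).testBit (mapLit pm g l) = true
      rw [Nat.testBit_or, Nat.shiftLeft_eq, one_mul, Nat.testBit_two_pow, Bool.or_eq_true,
        decide_eq_true_eq] at h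
      rw [Nat.testBit_or, Nat.shiftLeft_eq, one_mul, Nat.testBit_two_pow, Bool.or_eq_true,
        decide_eq_true_eq]
      rcases h with h | h
      · subst h
        refine ⟨?_, Or.inl rfl⟩
        exact lt_of_le_of_lt Nat.and_le_right (by norm_num)
      · obtain ⟨h2, h3⟩ := ih _ h
        exact ⟨h2, Or.inr h3⟩
    · rw [h1, cond_true, Nat.zero_testBit] at h
      exact Bool.noConfusion h

/-- The table `pm` describes the symmetries. -/
def PmOK (pv pm : BT) : Prop := ∀ g < 3, ∀ v < 2048, ∀ w, Good w →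
  (Val pv (fun m => w (act (g + 1) m)) v ↔
    Val pv w ((pm.get v >>> (11 * g)) &&& 2047))

theorem good_act {w : ℕ → ℝ} (hw : Good w) {g : ℕ} (hg : g < 3) :
    Good (fun m => w (act (g + 1) m)) := by
  have : g + 1 = 1 ∨ g + 1 = 2 ∨ g + 1 = 3 := by omega
  exact ⟨hw.1.act this, hw.2.act this⟩

theorem image_sound {db pv pm : BT} {k M src g : ℕ} {w : ℕ → ℝ} (hpm : PmOK pv pm)
    (hw : Good w) (hdb : ∀ j < k, ∀ w, Good w → CT (Val pv w) (mk 100 (db.get j)))
    (h : imageOk db pm k M src g = true) : CT (Val pv w) M := by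
  unfold imageOk at h
  cases h1 : Nat.ble k src
  swap
  · rw [h1, cond_true] at h; exact Bool.noConfusion h
  rw [h1, cond_false] at h
  cases h1' : Nat.ble 3 g
  swap
  · rw [h1', cond_true] at h; exact Bool.noConfusion h
  rw [h1', cond_false] at h
  have hg : g < 3 := by
    by_contra hc
    rw [Nat.ble_eq_true_of_le (not_lt.mp hc)] at h1'
    exact Bool.noConfusion h1'
  have hlt : src < k := by
    by_contra hc
    rw [Nat.ble_eq_true_of_le (not_lt.mp hc)] at h1
    exact Bool.noConfusion h1
  obtain ⟨l, hl, hlit⟩ := hdb src hlt _ (good_act hw hg)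
  obtain ⟨h2, h3⟩ := mk_img pm g _ _ hl
  refine ⟨mapLit pm g l, ?_, ?_⟩
  · have h4 := congrArg (fun x => x.testBit (mapLit pm g l)) (beq_true h)
    change (imgMask pm g 100 (db.get src) ||| M).testBit (mapLit pm g l) =
      M.testBit (mapLit pm g l) at h4
    rw [Nat.testBit_or, h3, Bool.true_or] at h4
    exact h4.symm
  · have h5 := hpm g hg (l / 2) (by omega) w hw
    have h6 : mapLit pm g l = 2 * ((pm.get (l / 2) >>> (11 * g)) &&& 2047) + l % 2 := by
      unfold mapLit
      change 2 * ((pm.get (l >>> 1) >>> (11 * g)) &&& 2047) + (l &&& 1) = _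
      rw [Nat.and_one_is_mod, Nat.shiftRight_eq_div_pow l 1, pow_one]
    rcases Nat.mod_two_eq_zero_or_one l with h7 | h7
    · rw [h6, h7, add_zero, LT_even, ← h5]
      unfold LT at hlit
      rw [if_pos h7] at hlit
      exact hlit
    · rw [h6, h7, LT_odd, ← h5]
      unfold LT at hlit
      rw [if_neg (by omega)] at hlit
      exact hlit

end Pool.Agent.Lib.QTri
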