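import Pool.Agent.Lib.QTri.TabSound2

/-!
# Soundness of the tables of fibres
-/

namespace Pool.Agent.Lib.QTri

attribute [local irreducible] masks

/-! ### Fibres of degree two -/

theorem fib_geom (k : ℕ) : ∀ j, ((2 ^ (2 * k) - 1) / 3).testBit j = decide (j % 2 = 0 ∧ j / 2 < k) := by
  induction k with
  | zero =>
    intro j
    simp
  | succ k ih =>
    have h1 : (2 ^ (2 * (k + 1)) - 1) / 3 = 4 * ((2 ^ (2 * k) - 1) / 3) + 1 := by
      have h2 : 3 ∣ 2 ^ (2 * k) - 1 := by
        have := Nat.sub_dvd_pow_sub_pow 4 1 k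
        rw [one_pow] at this
        rw [pow_mul]
        norm_num at this ⊢
        exact this
      obtain ⟨c, hc⟩ := h2
      have h3 : 2 ^ (2 * (k + 1)) = 4 * 2 ^ (2 * k) := by ring
      have h4 : 0 < 2 ^ (2 * k) := by positivity
      rw [h3]
      omega
    intro j
    rw [h1]
    rcases j with _ | _ | j
    · rw [Nat.testBit_zero]
      have : (4 * ((2 ^ (2 * k) - 1) / 3) + 1) % 2 = 1 := by omega
      rw [this]
      simp
    · rw [Nat.testBit_succ, Nat.testBit_zero]
      have : (4 * ((2 ^ (2 * k) - 1) / 3) + 1) / 2 % 2 = 0 := by omega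
      rw [this]
      simp
    · rw [Nat.testBit_succ, Nat.testBit_succ]
      have : (4 * ((2 ^ (2 * k) - 1) / 3) + 1) / 2 / 2 = (2 ^ (2 * k) - 1) / 3 := by omega
      rw [this, ih]
      congr 1
      rw [eq_iff_iff]
      omega

theorem fibMask_bit (c l : ℕ) : (fibMask c).testBit l = true ↔
    l % 2 = 0 ∧ (c &&& 2047) ≤ l / 2 ∧ l / 2 < (c &&& 2047) + (c >>> 11) := by
  unfold fibMask
  change ((((1 <<< (2 * (c >>> 11))) - 1) / 3) <<< (2 * (c &&& 2047))).testBit l = true ↔ _
  rw [Nat.shiftLeft_eq 1, one_mul, Nat.testBit_shiftLeft, fib_geom]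
  generalize c &&& 2047 = s
  generalize c >>> 11 = k
  simp only [ge_iff_le, Bool.and_eq_true, decide_eq_true_eq]
  omega

theorem f2Inc_succ (pv : BT) (ms I U k s c : ℕ) : f2Inc pv ms I U (k + 1) s c =
    cond (Nat.ble (pv.get s) c) false
      (cond (Nat.ble (Nat.land (pv.get s) 255) (Nat.shiftRight (pv.get s) 8)) false
      (cond (isM ms (Nat.shiftRight (pv.get s) 8)) (cond (isM ms (Nat.land (pv.get s) 255))
      (cond (Nat.beq (Nat.land (Nat.shiftRight (pv.get s) 8) (Nat.land (pv.get s) 255)) I)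
      (cond (Nat.beq (Nat.lor (Nat.shiftRight (pv.get s) 8) (Nat.land (pv.get s) 255)) U)
      (f2Inc pv ms I U k (Nat.add s 1) (pv.get s)) false) false) false) false)) := rfl

theorem ble_false {a b : ℕ} (h : Nat.ble a b = false) : b < a := by
  by_contra hc
  rw [Nat.ble_eq_true_of_le (not_lt.mp hc)] at h
  exact Bool.noConfusion h

theorem ble_true {a b : ℕ} (h : Nat.ble a b = true) : a ≤ b := Nat.le_of_ble_eq_true h

theorem f2Inc_sound {pv : BT} {ms I U : ℕ} (hms : MsOK ms) : ∀ k s c,
    f2Inc pv ms I U k s c = true →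
    (∀ u, s ≤ u → u < s + k → c < pv.get u ∧ (pv.get u >>> 8) < (pv.get u &&& 255) ∧
      (pv.get u >>> 8) ∈ masks 4 ∧
      (pv.get u &&& 255) ∈ masks 4 ∧ (pv.get u >>> 8) &&& (pv.get u &&& 255) = I ∧
      (pv.get u >>> 8) ||| (pv.get u &&& 255) = U) ∧
    (∀ u v, s ≤ u → u < v → v < s + k → pv.get u < pv.get v) := by
  intro k
  induction k with
  | zero =>
    intro s c _
    refine ⟨fun u h1 h2 => ?_, fun u v h1 h2 h3 => ?_⟩ <;> omega
  | succ k ih =>
    intro s c h
    rw [f2Inc_succ] at h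
    cases h1 : Nat.ble (pv.get s) c
    swap
    · rw [h1, cond_true] at h; exact Bool.noConfusion h
    rw [h1, cond_false] at h
    cases h1' : Nat.ble (Nat.land (pv.get s) 255) (Nat.shiftRight (pv.get s) 8)
    swap
    · rw [h1', cond_true] at h; exact Bool.noConfusion h
    rw [h1', cond_false] at h
    cases h2 : isM ms (Nat.shiftRight (pv.get s) 8)
    · rw [h2, cond_false] at h; exact Bool.noConfusion h
    rw [h2, cond_true] at h
    cases h3 : isM ms (Nat.land (pv.get s) 255)
    · rw [h3, cond_false] at h; exact Bool.noConfusion h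
    rw [h3, cond_true] at h
    cases h4 : Nat.beq (Nat.land (Nat.shiftRight (pv.get s) 8) (Nat.land (pv.get s) 255)) I
    · rw [h4, cond_false] at h; exact Bool.noConfusion h
    rw [h4, cond_true] at h
    cases h5 : Nat.beq (Nat.lor (Nat.shiftRight (pv.get s) 8) (Nat.land (pv.get s) 255)) U
    · rw [h5, cond_false] at h; exact Bool.noConfusion h
    rw [h5, cond_true] at h
    obtain ⟨h6, h7⟩ := ih _ _ h
    change ∀ u, s + 1 ≤ u → u < s + 1 + k → _ at h6
    change ∀ u v, s + 1 ≤ u → u < v → v < s + 1 + k → _ at h7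
    have hs := ble_false h1
    constructor
    · intro u hu1 hu2
      by_cases hus : u = s
      · subst hus
        exact ⟨hs, ble_false h1', (hms _).mp h2, (hms _).mp h3, beq_true h4, beq_true h5⟩
      · obtain ⟨g1, g2⟩ := h6 u (by omega) (by omega)
        exact ⟨hs.trans g1, g2⟩
    · intro u v hu huv hv
      by_cases hus : u = s
      · subst hus
        exact (h6 v (by omega) (by omega)).1
      · exact h7 u v (by omega) huv (by omega)

theorem f2Mem_succ (pv : BT) (x k s : ℕ) : f2Mem pv x (k + 1) s =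
    cond (Nat.beq (pv.get s) x) true (f2Mem pv x k (Nat.add s 1)) := rfl

theorem f2Mem_sound {pv : BT} {x : ℕ} : ∀ k s, f2Mem pv x k s = true →
    ∃ u, s ≤ u ∧ u < s + k ∧ pv.get u = x := by
  intro k
  induction k with
  | zero =>
    intro s h
    exact Bool.noConfusion (show false = true from h)
  | succ k ih =>
    intro s h
    rw [f2Mem_succ] at h
    cases h1 : Nat.beq (pv.get s) x
    · rw [h1, cond_false] at h
      obtain ⟨u, h2, h3, h4⟩ := ih _ h
      change s + 1 ≤ u at h2
      change u < s + 1 + k at h3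
      exact ⟨u, by omega, by omega, h4⟩
    · exact ⟨s, le_refl _, by omega, beq_true h1⟩

theorem f2Comp_cons (pv : BT) (ms I U k s x : ℕ) (L : List ℕ) : f2Comp pv ms I U k s (x :: L) =
    cond (cond (Nat.ble (Nat.xor x (Nat.xor I U)) x) true
      (cond (Nat.beq (Nat.land x (Nat.xor x (Nat.xor I U))) I)
        (cond (Nat.beq (Nat.lor x (Nat.xor x (Nat.xor I U))) U)
          (cond (isM ms (Nat.xor x (Nat.xor I U)))
            (f2Mem pv (Nat.add (Nat.shiftLeft x 8) (Nat.xor x (Nat.xor I U))) k s)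
            true) true) true)) (f2Comp pv ms I U k s L) false := rfl

theorem xor_of_and_or {x y I U : ℕ} (h1 : x &&& y = I) (h2 : x ||| y = U) :
    y = x ^^^ (I ^^^ U) := by
  subst h1 h2
  apply Nat.eq_of_testBit_eq
  intro i
  simp only [Nat.testBit_xor, Nat.testBit_and, Nat.testBit_or]
  cases x.testBit i <;> cases y.testBit i <;> rfl

theorem f2Comp_sound {pv : BT} {ms I U k s : ℕ} (hms : MsOK ms) : ∀ L : List ℕ,
    f2Comp pv ms I U k s L = true → ∀ x ∈ L, ∀ y ∈ masks 4, x < y → x &&& y = I → x ||| y = U →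
    ∃ u, s ≤ u ∧ u < s + k ∧ pv.get u = (x <<< 8) + y := by
  intro L
  induction L with
  | nil => exact fun _ x hx => absurd hx List.not_mem_nil
  | cons z L ih =>
    intro h x hx y hy hxy hI hU
    rw [f2Comp_cons] at h
    cases h1 : (cond (Nat.ble (Nat.xor z (Nat.xor I U)) z) true
      (cond (Nat.beq (Nat.land z (Nat.xor z (Nat.xor I U))) I)
        (cond (Nat.beq (Nat.lor z (Nat.xor z (Nat.xor I U))) U)
          (cond (isM ms (Nat.xor z (Nat.xor I U)))
            (f2Mem pv (Nat.add (Nat.shiftLeft z 8) (Nat.xor z (Nat.xor I U))) k s)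
            true) true) true))
    · rw [h1, cond_false] at h; exact Bool.noConfusion h
    rw [h1, cond_true] at h
    rcases List.mem_cons.mp hx with rfl | hx
    · have h2 := xor_of_and_or hI hU
      change y = Nat.xor x (Nat.xor I U) at h2
      rw [← h2] at h1
      cases h3 : Nat.ble y x
      swap
      · exact absurd (ble_true h3) (by omega)
      rw [h3, cond_false] at h1
      have h4 : Nat.beq (Nat.land x y) I = true := by
        change Nat.beq (x &&& y) I = true
        rw [hI]
        exact Nat.beq_refl I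
      have h5 : Nat.beq (Nat.lor x y) U = true := by
        change Nat.beq (x ||| y) U = true
        rw [hU]
        exact Nat.beq_refl U
      rw [h4, h5, (hms y).mpr hy, cond_true, cond_true, cond_true] at h1
      exact f2Mem_sound _ _ h1
    · exact ih h x hx y hy hxy hI hU

theorem split_code {c : ℕ} : c = ((c >>> 8) <<< 8) + (c &&& 255) := by
  rw [show (255 : ℕ) = 2 ^ 8 - 1 by norm_num, Nat.and_two_pow_sub_one_eq_mod, Nat.shiftLeft_eq,
    Nat.shiftRight_eq_div_pow]
  omega

theorem f2Ok_sound {pv : BT} {ms c : ℕ} {mL : List ℕ} {w : ℕ → ℝ} (hms : MsOK ms)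
    (hmL : ∀ m ∈ masks 4, m ∈ mL) (hw : Good w)
    (h : f2Ok pv ms mL (c &&& 2047) (c >>> 11) = true) : FibOK (Val pv w) (fibMask c) := by
  have hbit := fibMask_bit c
  generalize fibMask c = G at *
  generalize c &&& 2047 = s at *
  generalize c >>> 11 = k at *
  unfold f2Ok at h
  cases h1 : Nat.beq k 0
  swap
  · rw [h1, cond_true] at h; exact Bool.noConfusion h
  rw [h1, cond_false] at h
  cases h2 : Nat.ble (Nat.add s k) 2047
  · rw [h2, cond_false] at h; exact Bool.noConfusion h
  rw [h2, cond_true] at h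
  set I := Nat.land (Nat.shiftRight (pv.get s) 8) (Nat.land (pv.get s) 255) with hI
  set U := Nat.lor (Nat.shiftRight (pv.get s) 8) (Nat.land (pv.get s) 255) with hU
  cases h3 : f2Inc pv ms I U k s 0
  · rw [h3, cond_false] at h; exact Bool.noConfusion h
  rw [h3, cond_true] at h
  obtain ⟨h4, h5⟩ := f2Inc_sound hms _ _ _ h3
  have h6 := f2Comp_sound hms _ h
  have hk : 0 < k := Nat.pos_of_ne_zero (beq_false h1)
  have hb : ∀ u, G.testBit (2 * u) = true ↔ s ≤ u ∧ u < s + k := by
    intro u
    rw [hbit]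
    omega
  obtain ⟨-, s0, s1, s2, s3, s4⟩ := h4 s (le_refl _) (by omega)
  -- codes are pairs x < y
  have hne : ∀ u, s ≤ u → u < s + k → ∀ v, s ≤ v → v < s + k →
      (pv.get u >>> 8) = (pv.get v >>> 8) → (pv.get u &&& 255) = (pv.get v &&& 255) → u = v := by
    intro u hu1 hu2 v hv1 hv2 e1 e2
    have e3 : pv.get u = pv.get v := by
      rw [@split_code (pv.get u), @split_code (pv.get v), e1, e2]
    rcases lt_trichotomy u v with h7 | h7 | h7
    · exact absurd e3 (h5 u v hu1 h7 hv2).ne
    · exact h7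
    · exact absurd e3.symm (h5 v u hv1 h7 hu2).ne
  refine ⟨?_, ?_, ?_⟩
  · -- existence
    obtain ⟨x, hx, y, hy, hxy, hstd⟩ := exists_std2 w s1 s2
    have hxyI : x &&& y = I := by rw [← hxy.1]; exact s3
    have hxyU : x ||| y = U := by rw [← hxy.2]; exact s4
    rcases lt_trichotomy x y with h7 | h7 | h7
    · obtain ⟨u, hu1, hu2, hu3⟩ := h6 x (hmL x hx) y hy h7 hxyI hxyU
      refine ⟨u, (hb u).mpr ⟨hu1, hu2⟩, ?_⟩
      unfold Val
      rw [hu3, code_fst (lt_of_mem hy), code_snd (lt_of_mem hy)]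
      exact hstd
    · -- x = y is impossible
      exfalso
      subst h7
      rw [Nat.and_self] at hxyI
      rw [Nat.or_self] at hxyU
      have h8 : I = U := hxyI.symm.trans hxyU
      have h9 : (pv.get s >>> 8) = (pv.get s &&& 255) := by
        generalize hA : pv.get s >>> 8 = A at *
        generalize hB : pv.get s &&& 255 = B at *
        apply Nat.eq_of_testBit_eq
        intro i
        have e1 := congrArg (fun z => z.testBit i) s3
        have e2 := congrArg (fun z => z.testBit i) s4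
        rw [← h8] at e2
        simp only [Nat.testBit_and, Nat.testBit_or] at e1 e2
        revert e1 e2
        cases A.testBit i <;> cases B.testBit i <;> cases I.testBit i <;> decide
      omega
    · obtain ⟨u, hu1, hu2, hu3⟩ := h6 y (hmL y hy) x hx h7 (by rw [Nat.and_comm]; exact hxyI)
        (by rw [Nat.or_comm]; exact hxyU)
      refine ⟨u, (hb u).mpr ⟨hu1, hu2⟩, ?_⟩
      unfold Val
      rw [hu3, code_fst (lt_of_mem hx), code_snd (lt_of_mem hx)]
      exact hstd.symm
  · -- uniqueness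
    intro u v hu hv Hu Hv
    obtain ⟨hu1, hu2⟩ := (hb u).mp hu
    obtain ⟨hv1, hv2⟩ := (hb v).mp hv
    obtain ⟨-, a0, a1, a2, a3, a4⟩ := h4 u hu1 hu2
    obtain ⟨-, b0, b1, b2, b3, b4⟩ := h4 v hv1 hv2
    unfold Val at Hu Hv
    rcases hw.1.unique2 _ a1 _ a2 _ b1 _ b2 ⟨a3.trans b3.symm, a4.trans b4.symm⟩ Hu Hv
      with ⟨e1, e2⟩ | ⟨e1, e2⟩
    · exact hne u hu1 hu2 v hv1 hv2 e1.symm e2.symm
    · exfalso
      rw [e1, e2] at b0
      omega
  · intro l hl
    exact ((hbit l).mp hl).1

end Pool.Agent.Lib.QTri
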