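import Pool.Agent.Lib.QTri.TabSound3

/-!
# Soundness of the tables of fibres of degree three
-/

namespace Pool.Agent.Lib.QTri

attribute [local irreducible] masks

/-- The conditions on a triple code and its option. -/
theorem f3Vars_cons (pv : BT) (ms X M t q : ℕ) (T O : List ℕ) :
    f3Vars pv ms X M (t :: T) (q :: O) =
      cond (isM ms (Nat.land t 255)) (cond (isM ms (Nat.land (Nat.shiftRight t 8) 255))
      (cond (isM ms (Nat.land (Nat.shiftRight t 16) 255))
      (cond (Nat.beq (Nat.xor (Nat.xor (Nat.land t 255) (Nat.land (Nat.shiftRight t 8) 255))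
        (Nat.land (Nat.shiftRight t 16) 255)) X)
      (cond (Nat.beq (maj (Nat.land t 255) (Nat.land (Nat.shiftRight t 8) 255)
        (Nat.land (Nat.shiftRight t 16) 255)) M)
      (cond (pairOk pv (Nat.land t 255) (Nat.land (Nat.shiftRight t 8) 255) (Nat.land q 2047))
      (cond (pairOk pv (Nat.land t 255) (Nat.land (Nat.shiftRight t 16) 255)
        (Nat.land (Nat.shiftRight q 11) 2047))
      (cond (pairOk pv (Nat.land (Nat.shiftRight t 8) 255) (Nat.land (Nat.shiftRight t 16) 255)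
        (Nat.land (Nat.shiftRight q 22) 2047))
      (f3Vars pv ms X M T O) false) false) false) false) false) false) false) false := rfl

theorem f3Vars_cons_nil (pv : BT) (ms X M t : ℕ) (T : List ℕ) :
    f3Vars pv ms X M (t :: T) [] = false := rfl

/-- What is known about a triple code `t` in the list. -/
def TripInfo (pv : BT) (X M : ℕ) (O : List ℕ) (t : ℕ) : Prop :=
  (t &&& 255) ∈ masks 4 ∧ ((t >>> 8) &&& 255) ∈ masks 4 ∧ ((t >>> 16) &&& 255) ∈ masks 4 ∧
  (t &&& 255) ^^^ ((t >>> 8) &&& 255) ^^^ ((t >>> 16) &&& 255) = X ∧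
  maj (t &&& 255) ((t >>> 8) &&& 255) ((t >>> 16) &&& 255) = M ∧
  ∃ q ∈ O, pairOk pv (t &&& 255) ((t >>> 8) &&& 255) (q &&& 2047) = true ∧
    pairOk pv (t &&& 255) ((t >>> 16) &&& 255) ((q >>> 11) &&& 2047) = true ∧
    pairOk pv ((t >>> 8) &&& 255) ((t >>> 16) &&& 255) ((q >>> 22) &&& 2047) = true

theorem f3Vars_sound {pv : BT} {ms X M : ℕ} (hms : MsOK ms) : ∀ T O : List ℕ,
    f3Vars pv ms X M T O = true → ∀ t ∈ T, TripInfo pv X M O t := by
  intro T
  induction T with
  | nil => exact fun O _ t ht => absurd ht List.not_mem_nil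
  | cons t T ih =>
    intro O h t' ht'
    cases O with
    | nil =>
      rw [f3Vars_cons_nil] at h
      exact Bool.noConfusion h
    | cons q O =>
      rw [f3Vars_cons] at h
      cases h1 : isM ms (Nat.land t 255)
      · rw [h1, cond_false] at h; exact Bool.noConfusion h
      rw [h1, cond_true] at h
      cases h2 : isM ms (Nat.land (Nat.shiftRight t 8) 255)
      · rw [h2, cond_false] at h; exact Bool.noConfusion h
      rw [h2, cond_true] at h
      cases h3 : isM ms (Nat.land (Nat.shiftRight t 16) 255)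
      · rw [h3, cond_false] at h; exact Bool.noConfusion h
      rw [h3, cond_true] at h
      cases h4 : Nat.beq (Nat.xor (Nat.xor (Nat.land t 255) (Nat.land (Nat.shiftRight t 8) 255))
        (Nat.land (Nat.shiftRight t 16) 255)) X
      · rw [h4, cond_false] at h; exact Bool.noConfusion h
      rw [h4, cond_true] at h
      cases h5 : Nat.beq (maj (Nat.land t 255) (Nat.land (Nat.shiftRight t 8) 255)
        (Nat.land (Nat.shiftRight t 16) 255)) M
      · rw [h5, cond_false] at h; exact Bool.noConfusion h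
      rw [h5, cond_true] at h
      cases h6 : pairOk pv (Nat.land t 255) (Nat.land (Nat.shiftRight t 8) 255) (Nat.land q 2047)
      · rw [h6, cond_false] at h; exact Bool.noConfusion h
      rw [h6, cond_true] at h
      cases h7 : pairOk pv (Nat.land t 255) (Nat.land (Nat.shiftRight t 16) 255)
        (Nat.land (Nat.shiftRight q 11) 2047)
      · rw [h7, cond_false] at h; exact Bool.noConfusion h
      rw [h7, cond_true] at h
      cases h8 : pairOk pv (Nat.land (Nat.shiftRight t 8) 255) (Nat.land (Nat.shiftRight t 16) 255)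
        (Nat.land (Nat.shiftRight q 22) 2047)
      · rw [h8, cond_false] at h; exact Bool.noConfusion h
      rw [h8, cond_true] at h
      rcases List.mem_cons.mp ht' with rfl | ht'
      · exact ⟨(hms _).mp h1, (hms _).mp h2, (hms _).mp h3, beq_true h4, beq_true h5,
          q, List.mem_cons_self, h6, h7, h8⟩
      · obtain ⟨a1, a2, a3, a4, a5, o, ho, a6⟩ := ih O h t' ht'
        exact ⟨a1, a2, a3, a4, a5, o, List.mem_cons_of_mem _ ho, a6⟩

theorem cands_cons (X M x : ℕ) (L : List ℕ) : cands X M (x :: L) =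
    cond (Nat.beq (Nat.lor x (Nat.lor X M)) (Nat.lor X M))
      (cond (Nat.beq (Nat.land x (Nat.land X M)) (Nat.land X M)) (x :: cands X M L)
        (cands X M L)) (cands X M L) := rfl

theorem mem_cands {X M x : ℕ} (h1 : x ||| (X ||| M) = X ||| M) (h2 : x &&& (X &&& M) = X &&& M) :
    ∀ L : List ℕ, x ∈ L → x ∈ cands X M L := by
  intro L
  induction L with
  | nil => exact fun h => absurd h List.not_mem_nil
  | cons y L ih =>
    intro h
    rw [cands_cons]
    rcases List.mem_cons.mp h with rfl | h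
    · have e1 : Nat.beq (Nat.lor x (Nat.lor X M)) (Nat.lor X M) = true := by
        change Nat.beq (x ||| (X ||| M)) (X ||| M) = true
        rw [h1]
        exact Nat.beq_refl _
      have e2 : Nat.beq (Nat.land x (Nat.land X M)) (Nat.land X M) = true := by
        change Nat.beq (x &&& (X &&& M)) (X &&& M) = true
        rw [h2]
        exact Nat.beq_refl _
      rw [e1, e2, cond_true, cond_true]
      exact List.mem_cons_self
    · have h3 := ih h
      cases Nat.beq (Nat.lor y (Nat.lor X M)) (Nat.lor X M)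
      · exact h3
      · rw [cond_true]
        cases Nat.beq (Nat.land y (Nat.land X M)) (Nat.land X M)
        · exact h3
        · exact List.mem_cons_of_mem _ h3

theorem f3In_cons (ms X M x y : ℕ) (T L : List ℕ) : f3In ms X M x T (y :: L) =
    cond (cond (Nat.ble x y)
      (cond (Nat.ble y (Nat.xor X (Nat.xor x y)))
        (cond (Nat.beq (maj x y (Nat.xor X (Nat.xor x y))) M)
          (cond (isM ms (Nat.xor X (Nat.xor x y)))
            (elem (Nat.add x (Nat.add (Nat.shiftLeft y 8)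
              (Nat.shiftLeft (Nat.xor X (Nat.xor x y)) 16))) T)
            true) true) true) true) (f3In ms X M x T L) false := rfl

theorem f3In_sound {ms X M x : ℕ} {T : List ℕ} (hms : MsOK ms) : ∀ L : List ℕ,
    f3In ms X M x T L = true → ∀ y ∈ L, ∀ z ∈ masks 4, x ≤ y → y ≤ z → z = X ^^^ (x ^^^ y) →
      maj x y z = M → x + ((y <<< 8) + (z <<< 16)) ∈ T := by
  intro L
  induction L with
  | nil => exact fun _ y hy => absurd hy List.not_mem_nil
  | cons u L ih =>
    intro h y hy z hz hxy hyz hzX hM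
    rw [f3In_cons] at h
    cases h1 : (cond (Nat.ble x u)
      (cond (Nat.ble u (Nat.xor X (Nat.xor x u)))
        (cond (Nat.beq (maj x u (Nat.xor X (Nat.xor x u))) M)
          (cond (isM ms (Nat.xor X (Nat.xor x u)))
            (elem (Nat.add x (Nat.add (Nat.shiftLeft u 8)
              (Nat.shiftLeft (Nat.xor X (Nat.xor x u)) 16))) T)
            true) true) true) true)
    · rw [h1, cond_false] at h; exact Bool.noConfusion h
    rw [h1, cond_true] at h
    rcases List.mem_cons.mp hy with rfl | hy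
    · change z = Nat.xor X (Nat.xor x y) at hzX
      rw [← hzX] at h1
      have e1 : Nat.ble x y = true := Nat.ble_eq_true_of_le hxy
      have e2 : Nat.ble y z = true := Nat.ble_eq_true_of_le hyz
      have e3 : Nat.beq (maj x y z) M = true := by
        rw [hM]
        exact Nat.beq_refl _
      rw [e1, e2, e3, (hms z).mpr hz, cond_true, cond_true, cond_true, cond_true] at h1
      exact mem_of_elem h1
    · exact ih h y hy z hz hxy hyz hzX hM

theorem f3Out_cons (ms X M : ℕ) (T L : List ℕ) (x : ℕ) (L' : List ℕ) :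
    f3Out ms X M T L (x :: L') = cond (f3In ms X M x T L) (f3Out ms X M T L L') false := rfl

theorem f3Out_sound {ms X M : ℕ} {T L : List ℕ} (hms : MsOK ms) : ∀ L' : List ℕ,
    f3Out ms X M T L L' = true → ∀ x ∈ L', ∀ y ∈ L, ∀ z ∈ masks 4, x ≤ y → y ≤ z →
      z = X ^^^ (x ^^^ y) → maj x y z = M → x + ((y <<< 8) + (z <<< 16)) ∈ T := by
  intro L'
  induction L' with
  | nil => exact fun _ x hx => absurd hx List.not_mem_nil
  | cons u L' ih =>
    intro h x hx
    rw [f3Out_cons] at h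
    cases h1 : f3In ms X M u T L
    · rw [h1, cond_false] at h; exact Bool.noConfusion h
    rw [h1, cond_true] at h
    rcases List.mem_cons.mp hx with rfl | hx
    · exact f3In_sound hms L h1
    · exact ih h x hx

theorem maj_eq (a b c : ℕ) : maj a b c = (a &&& b) ||| (a &&& c) ||| (b &&& c) := rfl

theorem maj_swap12 (a b c : ℕ) : maj a b c = maj b a c := by
  rw [maj_eq, maj_eq, Nat.and_comm b a, Nat.or_assoc, Nat.or_assoc, Nat.or_comm (a &&& c)]

theorem maj_swap23 (a b c : ℕ) : maj a b c = maj a c b := by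
  rw [maj_eq, maj_eq, Nat.and_comm c b, Nat.or_comm (a &&& b)]

/-- Sorting a triple. -/
theorem sort3 {P : ℕ → ℕ → ℕ → Prop} (h1 : ∀ x y z, P x y z → P y x z)
    (h2 : ∀ x y z, P x y z → P x z y) {x y z : ℕ} (h : P x y z) :
    ∃ x' y' z', P x' y' z' ∧ x' ≤ y' ∧ y' ≤ z' := by
  rcases le_total x y with hxy | hxy <;> rcases le_total y z with hyz | hyz <;>
    rcases le_total x z with hxz | hxz
  · exact ⟨x, y, z, h, hxy, hyz⟩
  · exact ⟨x, y, z, h, hxy, hyz⟩
  · exact ⟨x, z, y, h2 _ _ _ h, hxz, hyz⟩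
  · exact ⟨z, x, y, h1 _ _ _ (h2 _ _ _ h), hxz, hxy⟩
  · exact ⟨y, x, z, h1 _ _ _ h, hxy, hxz⟩
  · exact ⟨y, z, x, h2 _ _ _ (h1 _ _ _ h), hyz, hxz⟩
  · exact ⟨z, y, x, h1 _ _ _ (h2 _ _ _ (h1 _ _ _ h)), hyz, hxy⟩
  · exact ⟨z, y, x, h1 _ _ _ (h2 _ _ _ (h1 _ _ _ h)), hyz, hxy⟩

theorem trip_code {x y z : ℕ} (hx : x < 256) (hy : y < 256) (hz : z < 256) :
    (x + ((y <<< 8) + (z <<< 16))) &&& 255 = x ∧
    ((x + ((y <<< 8) + (z <<< 16))) >>> 8) &&& 255 = y ∧
    ((x + ((y <<< 8) + (z <<< 16))) >>> 16) &&& 255 = z := by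
  rw [show (255 : ℕ) = 2 ^ 8 - 1 by norm_num, Nat.and_two_pow_sub_one_eq_mod,
    Nat.and_two_pow_sub_one_eq_mod, Nat.and_two_pow_sub_one_eq_mod, Nat.shiftLeft_eq,
    Nat.shiftLeft_eq, Nat.shiftRight_eq_div_pow, Nat.shiftRight_eq_div_pow]
  refine ⟨?_, ?_, ?_⟩ <;> omega

theorem bits3 {x y z X M : ℕ} (h1 : x ^^^ y ^^^ z = X)
    (h2 : (x &&& y) ||| (x &&& z) ||| (y &&& z) = M) :
    x ||| (X ||| M) = X ||| M ∧ x &&& (X &&& M) = X &&& M := by
  subst h1 h2
  constructor
  · apply Nat.eq_of_testBit_eq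
    intro i
    simp only [Nat.testBit_xor, Nat.testBit_and, Nat.testBit_or]
    cases x.testBit i <;> cases y.testBit i <;> cases z.testBit i <;> rfl
  · apply Nat.eq_of_testBit_eq
    intro i
    simp only [Nat.testBit_xor, Nat.testBit_and, Nat.testBit_or]
    cases x.testBit i <;> cases y.testBit i <;> cases z.testBit i <;> rfl

theorem third_eq {x y z X : ℕ} (h1 : x ^^^ y ^^^ z = X) : z = X ^^^ (x ^^^ y) := by
  subst h1
  apply Nat.eq_of_testBit_eq
  intro i
  simp only [Nat.testBit_xor]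
  cases x.testBit i <;> cases y.testBit i <;> cases z.testBit i <;> rfl

theorem f3Ok_sound {pv : BT} {ms X M : ℕ} {mL T O : List ℕ} {w : ℕ → ℝ} (hms : MsOK ms)
    (hmL : ∀ m ∈ masks 4, m ∈ mL) (hw : Good w) (h0 : pv.get 0 = 85 * 256 + 85) (hT : T ≠ [])
    (h : f3Ok pv ms mL X M T O = true) : ∃ o ∈ O, OT (Val pv w) o := by
  unfold f3Ok at h
  cases h1 : f3Vars pv ms X M T O
  · rw [h1, cond_false] at h; exact Bool.noConfusion h
  rw [h1, cond_true] at h
  have hinfo := f3Vars_sound hms T O h1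
  obtain ⟨t, T', hTT⟩ := List.exists_cons_of_ne_nil hT
  obtain ⟨t1, t2, t3, tX, tM, -⟩ := hinfo t (by rw [hTT]; exact List.mem_cons_self)
  obtain ⟨x, hx, y, hy, z, hz, hs, hxy, hxz, hyz⟩ := exists_std3 w t1 t2 t3
  -- the property is invariant under permutations
  obtain ⟨x', y', z', ⟨a1, a2, a3, a4, a5, a6, a7, a8⟩, hle1, hle2⟩ := sort3
    (P := fun x y z => x ∈ masks 4 ∧ y ∈ masks 4 ∧ z ∈ masks 4 ∧ x ^^^ y ^^^ z = X ∧
      maj x y z = M ∧ MStd w x y ∧ MStd w x z ∧ MStd w y z)
    (by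
      rintro x y z ⟨b1, b2, b3, b4, b5, b6, b7, b8⟩
      exact ⟨b2, b1, b3, by rw [Nat.xor_comm y x]; exact b4, by rw [maj_swap12]; exact b5,
        b6.symm, b8, b7⟩)
    (by
      rintro x y z ⟨b1, b2, b3, b4, b5, b6, b7, b8⟩
      exact ⟨b1, b3, b2, by rw [Nat.xor_assoc, Nat.xor_comm z y, ← Nat.xor_assoc]; exact b4,
        by rw [maj_swap23]; exact b5, b7, b6, b8.symm⟩)
    (x := x) (y := y) (z := z)
    ⟨hx, hy, hz, by rw [← hs.1]; exact tX, by rw [maj_eq, ← hs.2]; exact tM, hxy, hxz, hyz⟩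
  obtain ⟨c1, c2⟩ := bits3 a4 a5
  obtain ⟨d1, d2⟩ := bits3 (x := y') (y := x') (z := z') (X := X) (M := M) (by rw [Nat.xor_comm y' x']; exact a4)
    (by rw [← maj_eq, maj_swap12]; exact a5)
  have hmem := f3Out_sound hms _ h x' (mem_cands c1 c2 _ (hmL x' a1)) y'
    (mem_cands d1 d2 _ (hmL y' a2)) z' a3 hle1 hle2 (third_eq a4) a5
  obtain ⟨e1, e2, e3⟩ := trip_code (lt_of_mem a1) (lt_of_mem a2) (lt_of_mem a3)
  obtain ⟨-, -, -, -, -, q, hq, g1, g2, g3⟩ := hinfo _ hmem
  rw [e1, e2] at g1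
  rw [e1, e3] at g2
  rw [e2, e3] at g3
  exact ⟨q, hq, (pairOk_sound hw.2 h0 a1 a2 g1).mp a6, (pairOk_sound hw.2 h0 a1 a3 g2).mp a7,
    (pairOk_sound hw.2 h0 a2 a3 g3).mp a8⟩

theorem f3All_succ (pv f3 t3 : BT) (ms : ℕ) (mL : List ℕ) (n i : ℕ) :
    f3All pv f3 t3 ms mL (n + 1) i = cond (Nat.beq (t3.get i) 0) false (cond (f3Ok pv ms mL
      (Nat.xor (Nat.xor (Nat.land (t3.get i) 255) (Nat.land (Nat.shiftRight (t3.get i) 8) 255))
        (Nat.land (Nat.shiftRight (t3.get i) 16) 255))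
      (maj (Nat.land (t3.get i) 255) (Nat.land (Nat.shiftRight (t3.get i) 8) 255)
        (Nat.land (Nat.shiftRight (t3.get i) 16) 255))
      (unp 24 100 (t3.get i)) (unp 33 100 (f3.get i)))
      (f3All pv f3 t3 ms mL n (Nat.add i 1)) false) := rfl

theorem f3All_sound {pv f3 t3 : BT} {ms : ℕ} {mL : List ℕ} {w : ℕ → ℝ} (hms : MsOK ms)
    (hmL : ∀ m ∈ masks 4, m ∈ mL) (hw : Good w) (h0 : pv.get 0 = 85 * 256 + 85) : ∀ n i,
    f3All pv f3 t3 ms mL n i = true → ∀ j, i ≤ j → j < i + n →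
      ∃ o ∈ unp 33 100 (f3.get j), OT (Val pv w) o := by
  intro n
  induction n with
  | zero => intro i _ j h1 h2; omega
  | succ n ih =>
    intro i h j hij hj
    rw [f3All_succ] at h
    cases h1 : Nat.beq (t3.get i) 0
    swap
    · rw [h1, cond_true] at h; exact Bool.noConfusion h
    rw [h1, cond_false] at h
    cases h2 : f3Ok pv ms mL
      (Nat.xor (Nat.xor (Nat.land (t3.get i) 255) (Nat.land (Nat.shiftRight (t3.get i) 8) 255))
        (Nat.land (Nat.shiftRight (t3.get i) 16) 255))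
      (maj (Nat.land (t3.get i) 255) (Nat.land (Nat.shiftRight (t3.get i) 8) 255)
        (Nat.land (Nat.shiftRight (t3.get i) 16) 255))
      (unp 24 100 (t3.get i)) (unp 33 100 (f3.get i))
    · rw [h2, cond_false] at h; exact Bool.noConfusion h
    rw [h2, cond_true] at h
    by_cases hji : j = i
    · subst hji
      refine f3Ok_sound hms hmL hw h0 ?_ h2
      rw [unp_succ, h1, cond_false]
      exact List.cons_ne_nil _ _
    · refine ih _ h j ?_ ?_
      · change i + 1 ≤ j
        omega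
      · change j < i + 1 + n
        omega

theorem f2All_succ (pv f2 : BT) (ms : ℕ) (mL : List ℕ) (n i : ℕ) :
    f2All pv f2 ms mL (n + 1) i =
      cond (f2Ok pv ms mL (Nat.land (f2.get i) 2047) (Nat.shiftRight (f2.get i) 11))
      (f2All pv f2 ms mL n (Nat.add i 1)) false := rfl

theorem f2All_sound {pv f2 : BT} {ms : ℕ} {mL : List ℕ} {w : ℕ → ℝ} (hms : MsOK ms)
    (hmL : ∀ m ∈ masks 4, m ∈ mL) (hw : Good w) : ∀ n i,
    f2All pv f2 ms mL n i = true → ∀ j, i ≤ j → j < i + n →
      FibOK (Val pv w) (fibMask (f2.get j)) := by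
  intro n
  induction n with
  | zero => intro i _ j h1 h2; omega
  | succ n ih =>
    intro i h j hij hj
    rw [f2All_succ] at h
    cases h1 : f2Ok pv ms mL (Nat.land (f2.get i) 2047) (Nat.shiftRight (f2.get i) 11)
    · rw [h1, cond_false] at h; exact Bool.noConfusion h
    rw [h1, cond_true] at h
    by_cases hji : j = i
    · subst hji
      exact f2Ok_sound hms hmL hw h1
    · refine ih _ h j ?_ ?_
      · change i + 1 ≤ j
        omega
      · change j < i + 1 + n
        omega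

end Pool.Agent.Lib.QTri
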