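import Pool.Agent.Lib.QTri.Data0

namespace Pool.Agent.Lib.QTri

theorem f2All_ok : f2All tPv tF2 msMask mList 2048 0 = true := by decide +kernel

theorem f3All_ok0 : f3All tPv tF3 tT3 msMask mList 150 0 = true := by decide +kernel

end Pool.Agent.Lib.QTri
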