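import Pool.Agent.Lib.QTri.Geom
import Pool.Agent.Lib.QTri.Defs
import Pool.Agent.Lib.H10.RamseyFour

/-!
# From quadratic triangulations of the spike base polytopes to weights on masks with four legs

If the base polytopes of all the spikes (with `n` legs, for every `n`) have quadratic
triangulations, then by Ramsey's theorem there are weights on the `58` bases of the spike with four
legs that are coherent and whose patterns on the four faces with three legs agree.
-/

namespace Pool.Agent.Lib.QTri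

open Finset

open Classical in
/-- The vertices of the base polytope of `M`: the indicator vectors of the bases of `M`. -/
noncomputable def basePoints {α : Type} [Fintype α] (M : Matroid α) : Finset (α → ℝ) :=
  (Finset.univ.filter fun B : Finset α => M.IsBase (B : Set α)).image
    fun B : Finset α => Set.indicator (B : Set α) (1 : α → ℝ)

theorem mem_basePoints {α : Type} [Fintype α] {M : Matroid α} {v : α → ℝ} :
    v ∈ basePoints M ↔ ∃ B : Finset α, M.IsBase (B : Set α) ∧
      v = Set.indicator (B : Set α) 1 := by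
  classical
  unfold basePoints
  simp only [Finset.mem_image, Finset.mem_filter, Finset.mem_univ, true_and]
  constructor
  · rintro ⟨B, hB, rfl⟩
    exact ⟨B, hB, rfl⟩
  · rintro ⟨B, hB, rfl⟩
    exact ⟨B, hB, rfl⟩

/-- The bases of the spike with `n` legs: `(i, false)` is the element `a_i` and `(i, true)` is the
element `b_i`. -/
def SpikeBase {n : ℕ} (B : Finset (Fin n × Bool)) : Prop :=
  ((∀ i : Fin n, ((i, false) ∈ B ↔ (i, true) ∉ B)) ∧
      (Finset.univ.filter fun i : Fin n => (i, true) ∈ B).card % 3 ≠ 2) ∨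
    ∃ p q : Fin n, p ≠ q ∧ (p, false) ∈ B ∧ (p, true) ∈ B ∧ (q, false) ∉ B ∧ (q, true) ∉ B ∧
      ∀ i, i ≠ p → i ≠ q → ((i, false) ∈ B ↔ (i, true) ∉ B)

namespace Tr

/-- A vector of states of the legs (bit `0`: `a_i` is in; bit `1`: `b_i` is in) that describes a
basis of the spike. -/
def GoodState {n : ℕ} (s : Fin n → ℕ) : Prop :=
  ((∀ i, s i = 1 ∨ s i = 2) ∧ (Finset.univ.filter fun i : Fin n => s i = 2).card % 3 ≠ 2) ∨
    ∃ p q : Fin n, s p = 3 ∧ s q = 0 ∧ ∀ i, i ≠ p → i ≠ q → (s i = 1 ∨ s i = 2)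

instance {n : ℕ} (s : Fin n → ℕ) : Decidable (GoodState s) := by
  unfold GoodState
  infer_instance

/-- The point described by a vector of states. -/
noncomputable def stp {n : ℕ} (s : Fin n → ℕ) : Fin n × Bool → ℝ :=
  fun x => if (s x.1).testBit (if x.2 then 1 else 0) then 1 else 0

theorem stp_false {n : ℕ} (s : Fin n → ℕ) (i : Fin n) :
    stp s (i, false) = if (s i).testBit 0 then 1 else 0 := rfl

theorem stp_true {n : ℕ} (s : Fin n → ℕ) (i : Fin n) :
    stp s (i, true) = if (s i).testBit 1 then 1 else 0 := rfl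

/-- The set described by a vector of states. -/
def setOf' {n : ℕ} (s : Fin n → ℕ) : Finset (Fin n × Bool) :=
  Finset.univ.filter fun x => (s x.1).testBit (if x.2 then 1 else 0) = true

theorem stp_eq {n : ℕ} (s : Fin n → ℕ) :
    stp s = Set.indicator (setOf' s : Set (Fin n × Bool)) 1 := by
  funext x
  by_cases h : (s x.1).testBit (if x.2 then 1 else 0) = true
  · rw [Set.indicator_of_mem]
    · unfold stp
      rw [if_pos h]
      rfl
    · simp only [setOf', Finset.coe_filter, Finset.mem_univ, true_and, Set.mem_ofPred_eq]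
      exact h
  · rw [Set.indicator_of_notMem]
    · unfold stp
      rw [if_neg h]
    · simp only [setOf', Finset.coe_filter, Finset.mem_univ, true_and, Set.mem_ofPred_eq]
      exact h

/-- The vector of states of a set. -/
def stateOf {n : ℕ} (B : Finset (Fin n × Bool)) : Fin n → ℕ :=
  fun i => (if (i, false) ∈ B then 1 else 0) + (if (i, true) ∈ B then 2 else 0)

theorem goodState_stateOf {n : ℕ} {B : Finset (Fin n × Bool)} (h : SpikeBase B) :
    GoodState (stateOf B) := by
  have h12 : ∀ i, ((i, false) ∈ B ↔ (i, true) ∉ B) → stateOf B i = 1 ∨ stateOf B i = 2 := by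
    intro i hi
    unfold stateOf
    by_cases h1 : (i, true) ∈ B
    · have h2 : (i, false) ∉ B := fun h2 => (hi.mp h2) h1
      simp [h1, h2]
    · have h2 : (i, false) ∈ B := hi.mpr h1
      simp [h1, h2]
  rcases h with ⟨h1, h2⟩ | ⟨p, q, hpq, h1, h2, h3, h4, h5⟩
  · left
    refine ⟨fun i => h12 i (h1 i), ?_⟩
    have : (Finset.univ.filter fun i : Fin n => stateOf B i = 2) =
        Finset.univ.filter fun i : Fin n => (i, true) ∈ B := by
      ext i
      simp only [Finset.mem_filter, Finset.mem_univ, true_and]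
      have hi := h1 i
      unfold stateOf
      by_cases h3 : (i, true) ∈ B
      · have h2 : (i, false) ∉ B := fun h2 => (hi.mp h2) h3
        simp [h3, h2]
      · have h2 : (i, false) ∈ B := hi.mpr h3
        simp [h3, h2]
    rw [this]
    exact h2
  · right
    refine ⟨p, q, ?_, ?_, fun i hi hi' => h12 i (h5 i hi hi')⟩
    · simp [stateOf, h1, h2]
    · simp [stateOf, h3, h4]

theorem indicator_stateOf {n : ℕ} (B : Finset (Fin n × Bool)) :
    Set.indicator (B : Set (Fin n × Bool)) 1 = stp (stateOf B) := by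
  funext x
  obtain ⟨i, b⟩ := x
  cases b
  · rw [stp_false]
    unfold stateOf
    by_cases h1 : (i, false) ∈ B <;> by_cases h2 : (i, true) ∈ B <;>
      simp [h1, h2, Set.indicator, Nat.testBit]
  · rw [stp_true]
    unfold stateOf
    by_cases h1 : (i, false) ∈ B <;> by_cases h2 : (i, true) ∈ B <;>
      simp [h1, h2, Set.indicator, Nat.testBit]

theorem spikeBase_setOf {n : ℕ} {s : Fin n → ℕ} (h : GoodState s) : SpikeBase (setOf' s) := by
  have hf : ∀ i, (i, false) ∈ setOf' s ↔ (s i).testBit 0 = true := by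
    intro i
    simp [setOf']
  have ht : ∀ i, (i, true) ∈ setOf' s ↔ (s i).testBit 1 = true := by
    intro i
    simp [setOf']
  have h12 : ∀ i, (s i = 1 ∨ s i = 2) → ((i, false) ∈ setOf' s ↔ (i, true) ∉ setOf' s) := by
    intro i hi
    rw [hf, ht]
    rcases hi with hi | hi <;> rw [hi] <;> decide
  rcases h with ⟨h1, h2⟩ | ⟨p, q, h1, h2, h3⟩
  · left
    refine ⟨fun i => h12 i (h1 i), ?_⟩
    have : (Finset.univ.filter fun i : Fin n => (i, true) ∈ setOf' s) =
        Finset.univ.filter fun i : Fin n => s i = 2 := by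
      ext i
      simp only [Finset.mem_filter, Finset.mem_univ, true_and]
      rw [ht]
      rcases h1 i with hi | hi <;> rw [hi] <;> decide
    rw [this]
    exact h2
  · right
    refine ⟨p, q, ?_, ?_, ?_, ?_, ?_, fun i hi hi' => h12 i (h3 i hi hi')⟩
    · rintro rfl
      omega
    · rw [hf, h1]
      decide
    · rw [ht, h1]
      decide
    · rw [hf, h2]
      decide
    · rw [ht, h2]
      decide

theorem mem_basePoints_spike {n : ℕ} {M : Matroid (Fin n × Bool)}
    (hM : ∀ B : Finset (Fin n × Bool), M.IsBase (B : Set (Fin n × Bool)) ↔ SpikeBase B)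
    {v : Fin n × Bool → ℝ} : v ∈ basePoints M ↔ ∃ s : Fin n → ℕ, GoodState s ∧ v = stp s := by
  rw [mem_basePoints]
  constructor
  · rintro ⟨B, hB, rfl⟩
    exact ⟨stateOf B, goodState_stateOf ((hM B).mp hB), indicator_stateOf B⟩
  · rintro ⟨s, hs, rfl⟩
    exact ⟨setOf' s, (hM _).mpr (spikeBase_setOf hs), stp_eq s⟩

/-- Extend a vector of states to more legs by the default state `1` (only `a_i`). -/
noncomputable def ext {k n : ℕ} (e : Fin k → Fin n) (s : Fin k → ℕ) : Fin n → ℕ :=
  Function.extend e s fun _ => 1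

theorem ext_apply {k n : ℕ} {e : Fin k → Fin n} (he : Function.Injective e) (s : Fin k → ℕ)
    (i : Fin k) : ext e s (e i) = s i := he.extend_apply s _ i

theorem ext_apply' {k n : ℕ} {e : Fin k → Fin n} (s : Fin k → ℕ)
    {j : Fin n} (hj : ∀ i, e i ≠ j) : ext e s j = 1 :=
  Function.extend_apply' s _ j fun ⟨i, hi⟩ => hj i hi

theorem goodState_ext {k n : ℕ} {e : Fin k → Fin n} (he : Function.Injective e)
    (s : Fin k → ℕ) : GoodState (ext e s) ↔ GoodState s := by
  classical
  have hcase : ∀ j, (∃ i, e i = j) ∨ (∀ i, e i ≠ j) := by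
    intro j
    by_cases h : ∃ i, e i = j
    · exact Or.inl h
    · exact Or.inr fun i hi => h ⟨i, hi⟩
  have hcard : (Finset.univ.filter fun j : Fin n => ext e s j = 2) =
      (Finset.univ.filter fun i : Fin k => s i = 2).map ⟨e, he⟩ := by
    ext j
    simp only [Finset.mem_filter, Finset.mem_univ, true_and, Finset.mem_map,
      Function.Embedding.coeFn_mk]
    constructor
    · intro h
      rcases hcase j with ⟨i, rfl⟩ | hj
      · exact ⟨i, by rwa [ext_apply he] at h, rfl⟩
      · rw [ext_apply' s hj] at h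
        omega
    · rintro ⟨i, hi, rfl⟩
      rwa [ext_apply he]
  unfold GoodState
  rw [hcard, Finset.card_map]
  constructor
  · rintro (⟨h1, h2⟩ | ⟨p, q, h1, h2, h3⟩)
    · left
      refine ⟨fun i => ?_, h2⟩
      have := h1 (e i)
      rwa [ext_apply he] at this
    · right
      rcases hcase p with ⟨p, rfl⟩ | hp
      · rcases hcase q with ⟨q, rfl⟩ | hq
        · rw [ext_apply he] at h1 h2
          refine ⟨p, q, h1, h2, fun i hi hi' => ?_⟩
          have := h3 (e i) (fun h => hi (he h)) (fun h => hi' (he h))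
          rwa [ext_apply he] at this
        · rw [ext_apply' s hq] at h2
          omega
      · rw [ext_apply' s hp] at h1
        omega
  · rintro (⟨h1, h2⟩ | ⟨p, q, h1, h2, h3⟩)
    · left
      refine ⟨fun j => ?_, h2⟩
      rcases hcase j with ⟨i, rfl⟩ | hj
      · rw [ext_apply he]
        exact h1 i
      · rw [ext_apply' s hj]
        exact Or.inl rfl
    · right
      refine ⟨e p, e q, ?_, ?_, fun j hj hj' => ?_⟩
      · rwa [ext_apply he]
      · rwa [ext_apply he]
      · rcases hcase j with ⟨i, rfl⟩ | h4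
        · rw [ext_apply he]
          exact h3 i (fun h => hj (by rw [h])) (fun h => hj' (by rw [h]))
        · rw [ext_apply' s h4]
          exact Or.inl rfl

/-- The states of the legs in a mask. -/
def lst (k m : ℕ) : Fin k → ℕ := fun i => legState m i

theorem isBaseMask_four : ∀ m < 256, (isBaseMask 4 m = true ↔ GoodState (lst 4 m)) := by
  decide +kernel

theorem isBaseMask_three : ∀ m < 64, (isBaseMask 3 m = true ↔ GoodState (lst 3 m)) := by
  decide +kernel

theorem mem_masks {n m : ℕ} : m ∈ masks n ↔ m < 4 ^ n ∧ isBaseMask n m = true := by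
  unfold masks
  rw [List.mem_filter, List.mem_range]

theorem mask_lt {m : ℕ} (hm : m ∈ masks 4) : m < 256 := (mem_masks.mp hm).1

theorem mask_lt3 {m : ℕ} (hm : m ∈ masks 3) : m < 64 := (mem_masks.mp hm).1

theorem good_of_mask4 {m : ℕ} (hm : m ∈ masks 4) : GoodState (lst 4 m) :=
  (isBaseMask_four m (mask_lt hm)).mp (mem_masks.mp hm).2

theorem good_of_mask3 {m : ℕ} (hm : m ∈ masks 3) : GoodState (lst 3 m) :=
  (isBaseMask_three m (mask_lt3 hm)).mp (mem_masks.mp hm).2

theorem good_lt {n : ℕ} {s : Fin n → ℕ} (hs : GoodState s) (i : Fin n) : s i < 4 := by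
  rcases hs with ⟨h1, -⟩ | ⟨p, q, h1, h2, h3⟩
  · have := h1 i
    omega
  · by_cases hp : i = p
    · subst hp
      omega
    · by_cases hq : i = q
      · subst hq
        omega
      · have := h3 i hp hq
        omega

theorem exists_code4 : ∀ a < 4, ∀ b < 4, ∀ c < 4, ∀ d < 4,
    lst 4 (a + 4 * b + 16 * c + 64 * d) = ![a, b, c, d] := by
  decide +kernel

theorem exists_mask4 {s : Fin 4 → ℕ} (hs : GoodState s) : ∃ m ∈ masks 4, lst 4 m = s := by
  have h0 := good_lt hs 0
  have h1 := good_lt hs 1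
  have h2 := good_lt hs 2
  have h3 := good_lt hs 3
  have h4 := exists_code4 _ h0 _ h1 _ h2 _ h3
  have h5 : (![s 0, s 1, s 2, s 3] : Fin 4 → ℕ) = s := by
    funext i
    fin_cases i <;> rfl
  rw [h5] at h4
  have h6 : s 0 + 4 * s 1 + 16 * s 2 + 64 * s 3 < 256 := by omega
  refine ⟨_, mem_masks.mpr ⟨h6, (isBaseMask_four _ h6).mpr ?_⟩, h4⟩
  rw [h4]
  exact hs

theorem testBit_legState (m i b : ℕ) (hb : b < 2) :
    (legState m i).testBit b = m.testBit (2 * i + b) := by
  unfold legState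
  have : (4 : ℕ) = 2 ^ 2 := by norm_num
  rw [this, Nat.testBit_mod_two_pow, Nat.testBit_shiftRight]
  simp [hb]

/-- The point coded by a mask with four legs placed at the legs `e`. -/
noncomputable def P {k n : ℕ} (e : Fin k → Fin n) (m : ℕ) : Fin n × Bool → ℝ :=
  stp (ext e (lst k m))

theorem P_apply {k n : ℕ} {e : Fin k → Fin n} (he : Function.Injective e) (m : ℕ) (i : Fin k)
    (b : Bool) : P e m (e i, b) = if m.testBit (2 * (i : ℕ) + (if b then 1 else 0)) then 1 else 0 := by
  unfold P stp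
  simp only
  rw [ext_apply he]
  unfold lst
  rw [testBit_legState]
  cases b <;> simp

theorem P_apply' {k n : ℕ} {e : Fin k → Fin n} (m : ℕ) {j : Fin n} (hj : ∀ i, e i ≠ j)
    (b : Bool) : P e m (j, b) = if b then 0 else 1 := by
  unfold P stp
  simp only
  rw [ext_apply' _ hj]
  cases b <;> simp [Nat.testBit]

theorem same2_P {k n : ℕ} {e : Fin k → Fin n} (he : Function.Injective e) {a b c d : ℕ}
    (h : Same2 a b c d) : P e a + P e b = P e c + P e d := by
  funext ⟨j, β⟩
  by_cases hj : ∃ i, e i = j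
  · obtain ⟨i, rfl⟩ := hj
    have h1 := congrArg (fun x => x.testBit (2 * (i : ℕ) + (if β then 1 else 0))) h.1
    have h2 := congrArg (fun x => x.testBit (2 * (i : ℕ) + (if β then 1 else 0))) h.2
    simp only [Nat.testBit_and, Nat.testBit_or] at h1 h2
    simp only [Pi.add_apply, P_apply he]
    revert h1 h2
    generalize a.testBit _ = A
    generalize b.testBit _ = B
    generalize c.testBit _ = C
    generalize d.testBit _ = D
    cases A <;> cases B <;> cases C <;> cases D <;> simp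
  · have hj' : ∀ i, e i ≠ j := fun i hi => hj ⟨i, hi⟩
    simp only [Pi.add_apply, P_apply' _ hj']

theorem same3_P {k n : ℕ} {e : Fin k → Fin n} (he : Function.Injective e) {a b c a' b' c' : ℕ}
    (h : Same3 a b c a' b' c') : P e a + P e b + P e c = P e a' + P e b' + P e c' := by
  funext ⟨j, β⟩
  by_cases hj : ∃ i, e i = j
  · obtain ⟨i, rfl⟩ := hj
    have h1 := congrArg (fun x => x.testBit (2 * (i : ℕ) + (if β then 1 else 0))) h.1
    have h2 := congrArg (fun x => x.testBit (2 * (i : ℕ) + (if β then 1 else 0))) h.2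
    simp only [Nat.testBit_and, Nat.testBit_or, Nat.testBit_xor] at h1 h2
    simp only [Pi.add_apply, P_apply he]
    revert h1 h2
    generalize a.testBit _ = A
    generalize b.testBit _ = B
    generalize c.testBit _ = C
    generalize a'.testBit _ = A'
    generalize b'.testBit _ = B'
    generalize c'.testBit _ = C'
    cases A <;> cases B <;> cases C <;> cases A' <;> cases B' <;> cases C' <;> simp
  · have hj' : ∀ i, e i ≠ j := fun i hi => hj ⟨i, hi⟩
    simp only [Pi.add_apply, P_apply' _ hj']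

/-- All the `2 k` bits agree. -/
theorem eq_of_bits {k x y : ℕ} (hx : x < 4 ^ k) (hy : y < 4 ^ k)
    (h : ∀ (i : Fin k) (b : Bool), x.testBit (2 * (i : ℕ) + (if b then 1 else 0)) =
      y.testBit (2 * (i : ℕ) + (if b then 1 else 0))) : x = y := by
  apply Nat.eq_of_testBit_eq
  intro i
  have h4 : (4 : ℕ) ^ k = 2 ^ (2 * k) := by
    rw [pow_mul]
    norm_num
  rcases lt_or_ge i (2 * k) with hi | hi
  · have h2 : i / 2 < k := by omega
    rcases Nat.mod_two_eq_zero_or_one i with h3 | h3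
    · have := h ⟨i / 2, h2⟩ false
      have h5 : 2 * (i / 2) + 0 = i := by omega
      simpa [h5, show 2 * (i / 2) = i by omega] using this
    · have := h ⟨i / 2, h2⟩ true
      have h5 : 2 * (i / 2) + 1 = i := by omega
      simpa [h5] using this
  · rw [Nat.testBit_eq_false_of_lt, Nat.testBit_eq_false_of_lt]
    · exact hy.trans_le (h4 ▸ Nat.pow_le_pow_right (n := 2) (by norm_num) hi)
    · exact hx.trans_le (h4 ▸ Nat.pow_le_pow_right (n := 2) (by norm_num) hi)

theorem P_inj {k n : ℕ} {e : Fin k → Fin n} (he : Function.Injective e) {x y : ℕ}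
    (hx : x < 4 ^ k) (hy : y < 4 ^ k) (h : P e x = P e y) : x = y := by
  apply eq_of_bits hx hy
  intro i b
  have := congrFun h (e i, b)
  rw [P_apply he, P_apply he] at this
  revert this
  generalize x.testBit _ = A
  generalize y.testBit _ = B
  cases A <;> cases B <;> simp

theorem same2_of_P {k n : ℕ} {e : Fin k → Fin n} (he : Function.Injective e) {a b c d : ℕ}
    (ha : a < 4 ^ k) (hb : b < 4 ^ k) (hc : c < 4 ^ k) (hd : d < 4 ^ k)
    (h : P e a + P e b = P e c + P e d) : Same2 a b c d := by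
  have h4 : (4 : ℕ) ^ k = 2 ^ (2 * k) := by
    rw [pow_mul]
    norm_num
  have key : ∀ (i : Fin k) (β : Bool),
      ((a &&& b).testBit (2 * (i : ℕ) + (if β then 1 else 0)) =
        (c &&& d).testBit (2 * (i : ℕ) + (if β then 1 else 0))) ∧
      ((a ||| b).testBit (2 * (i : ℕ) + (if β then 1 else 0)) =
        (c ||| d).testBit (2 * (i : ℕ) + (if β then 1 else 0))) := by
    intro i β
    have := congrFun h (e i, β)
    simp only [Pi.add_apply, P_apply he] at this
    simp only [Nat.testBit_and, Nat.testBit_or]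
    revert this
    generalize a.testBit _ = A
    generalize b.testBit _ = B
    generalize c.testBit _ = C
    generalize d.testBit _ = D
    cases A <;> cases B <;> cases C <;> cases D <;> norm_num
  constructor
  · exact eq_of_bits (lt_of_le_of_lt Nat.and_le_left ha) (lt_of_le_of_lt Nat.and_le_left hc)
      fun i b => (key i b).1
  · rw [h4] at ha hb hc hd
    exact eq_of_bits (k := k) (by rw [h4]; exact Nat.or_lt_two_pow ha hb)
      (by rw [h4]; exact Nat.or_lt_two_pow hc hd) fun i b => (key i b).2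

section

variable {n : ℕ} {A : Finset (Fin n × Bool → ℝ)}
  (hA : ∀ v, v ∈ A ↔ ∃ s : Fin n → ℕ, GoodState s ∧ v = stp s)

include hA

theorem P_mem4 {e : Fin 4 → Fin n} (he : Function.Injective e) {m : ℕ} (hm : m ∈ masks 4) :
    P e m ∈ A :=
  (hA _).mpr ⟨_, (goodState_ext he _).mpr (good_of_mask4 hm), rfl⟩

/-- A pair of points of `A` with the same sum as two points on the face is on the face. -/
theorem exists_P4 {e : Fin 4 → Fin n} (he : Function.Injective e) {a b : ℕ}
    {v u : Fin n × Bool → ℝ} (hv : v ∈ A) (hu : u ∈ A) (h : v + u = P e a + P e b) :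
    ∃ m ∈ masks 4, v = P e m := by
  obtain ⟨s, hs, rfl⟩ := (hA v).mp hv
  obtain ⟨t, ht, rfl⟩ := (hA u).mp hu
  have hdef : ∀ j, (∀ i, e i ≠ j) → s j = 1 := by
    intro j hj
    have h1 := congrFun h (j, false)
    have h2 := congrFun h (j, true)
    simp only [Pi.add_apply, P_apply' _ hj, stp_false, stp_true] at h1 h2
    have hs4 := good_lt hs j
    revert h1 h2 hs4
    generalize (t j).testBit 0 = T0
    generalize (t j).testBit 1 = T1
    generalize s j = σ
    intro h1 h2 hs4
    interval_cases σ <;> cases T0 <;> cases T1 <;> simp [Nat.testBit] at h1 h2 ⊢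
    norm_num at h1
  have hext : ext e (s ∘ e) = s := by
    funext j
    by_cases hj : ∃ i, e i = j
    · obtain ⟨i, rfl⟩ := hj
      rw [ext_apply he]
      rfl
    · have hj' : ∀ i, e i ≠ j := fun i hi => hj ⟨i, hi⟩
      rw [ext_apply' _ hj', hdef j hj']
  have hg : GoodState (s ∘ e) := by
    rw [← goodState_ext he, hext]
    exact hs
  obtain ⟨m, hm, hms⟩ := exists_mask4 hg
  refine ⟨m, hm, ?_⟩
  unfold P
  rw [hms, hext]

theorem mstd_iff {e : Fin 4 → Fin n} (he : Function.Injective e) (h : (Fin n × Bool → ℝ) → ℝ)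
    {a b : ℕ} (ha : a ∈ masks 4) (hb : b ∈ masks 4) :
    MStd (fun m => h (P e m)) a b ↔ Std A h (P e a) (P e b) := by
  constructor
  · intro hab v hv u hu hvu
    obtain ⟨c, hc, rfl⟩ := exists_P4 hA he hv hu hvu
    obtain ⟨d, hd, rfl⟩ := exists_P4 hA he hu hv (by rw [add_comm]; exact hvu)
    exact hab c hc d hd (same2_of_P he (mask_lt ha) (mask_lt hb) (mask_lt hc) (mask_lt hd) hvu.symm)
  · intro hab c hc d hd hs
    exact hab _ (P_mem4 hA he hc) _ (P_mem4 hA he hd) (same2_P he hs).symm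

theorem mcoherent_face {e : Fin 4 → Fin n} (he : Function.Injective e)
    {h : (Fin n × Bool → ℝ) → ℝ} (hc : Coherent A h) : MCoherent (fun m => h (P e m)) := by
  obtain ⟨h2, h3⟩ := hc
  refine ⟨?_, ?_⟩
  · intro a ha b hb c hc d hd hs h4 h5
    have := h2 _ (P_mem4 hA he ha) _ (P_mem4 hA he hb) _ (P_mem4 hA he hc) _ (P_mem4 hA he hd)
      (same2_P he hs) ((mstd_iff hA he h ha hb).mp h4) ((mstd_iff hA he h hc hd).mp h5)
    rcases this with ⟨h6, h7⟩ | ⟨h6, h7⟩
    · exact Or.inl ⟨P_inj he (mask_lt hc) (mask_lt ha) h6, P_inj he (mask_lt hd) (mask_lt hb) h7⟩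
    · exact Or.inr ⟨P_inj he (mask_lt hc) (mask_lt hb) h6, P_inj he (mask_lt hd) (mask_lt ha) h7⟩
  · intro a₁ h₁ a₂ h₂ a₃ h₃ b₁ g₁ b₂ g₂ b₃ g₃ hs s12 s13 s23 t12 t13 t23
    have := h3 _ (P_mem4 hA he h₁) _ (P_mem4 hA he h₂) _ (P_mem4 hA he h₃) _ (P_mem4 hA he g₁)
      _ (P_mem4 hA he g₂) _ (P_mem4 hA he g₃)
      (same3_P he hs) ((mstd_iff hA he h h₁ h₂).mp s12) ((mstd_iff hA he h h₁ h₃).mp s13)
      ((mstd_iff hA he h h₂ h₃).mp s23) ((mstd_iff hA he h g₁ g₂).mp t12)
      ((mstd_iff hA he h g₁ g₃).mp t13) ((mstd_iff hA he h g₂ g₃).mp t23)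
    rcases this with h | h | h
    · exact Or.inl (P_inj he (mask_lt g₁) (mask_lt h₁) h)
    · exact Or.inr (Or.inl (P_inj he (mask_lt g₁) (mask_lt h₂) h))
    · exact Or.inr (Or.inr (P_inj he (mask_lt g₁) (mask_lt h₃) h))

end

theorem ins_lt : ∀ x < 64, ∀ p < 4, ins p x < 256 := by
  decide +kernel

theorem ins_lst : ∀ x < 64, ∀ p : Fin 4, lst 4 (ins p x) p = 1 ∧
    ∀ i : Fin 3, lst 4 (ins p x) (p.succAbove i) = lst 3 x i := by
  decide +kernel

theorem ins_mem4 : ∀ x ∈ masks 3, ∀ p < 4, ins p x ∈ masks 4 := by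
  decide +kernel

theorem P_ins {n : ℕ} {e : Fin 4 → Fin n} (he : Function.Injective e) {x : ℕ} (hx : x < 64)
    (p : Fin 4) : P e (ins p x) = P (e ∘ p.succAbove) x := by
  have he' : Function.Injective (e ∘ p.succAbove) := he.comp Fin.succAbove_right_injective
  obtain ⟨h1, h2⟩ := ins_lst x hx p
  unfold P
  congr 1
  funext j
  by_cases hj : ∃ i, e i = j
  · obtain ⟨i, rfl⟩ := hj
    rw [ext_apply he]
    by_cases hp : i = p
    · subst hp
      rw [h1, ext_apply']
      intro i' hi'
      exact (Fin.succAbove_ne i i') (he hi')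
    · obtain ⟨i', rfl⟩ := Fin.exists_succAbove_eq hp
      rw [h2 i']
      exact (ext_apply he' _ i').symm
  · have hj1 : ∀ i, e i ≠ j := fun i hi => hj ⟨i, hi⟩
    have hj2 : ∀ i, (e ∘ p.succAbove) i ≠ j := fun i hi => hj ⟨_, hi⟩
    rw [ext_apply' _ hj1, ext_apply' _ hj2]

/-- The Ramsey reduction. -/
theorem exists_canon_of_coherent (A : ∀ n, Finset (Fin n × Bool → ℝ))
    (hA : ∀ n, ∀ v, v ∈ A n ↔ ∃ s : Fin n → ℕ, GoodState s ∧ v = stp s)
    (hc : ∀ n, ∃ h : (Fin n × Bool → ℝ) → ℝ, Coherent (A n) h) :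
    ∃ w : ℕ → ℝ, MCoherent w ∧ Canon w := by
  classical
  choose h hh using hc
  -- the colour of a triple of legs
  let col : ℕ → ℕ → ℕ → ℕ → Set (Fin 64 × Fin 64) := fun n a b c =>
    if H : a < n ∧ b < n ∧ c < n then
      {xy | Std (A n) (h n) (P ![⟨a, H.1⟩, ⟨b, H.2.1⟩, ⟨c, H.2.2⟩] xy.1.val)
        (P ![⟨a, H.1⟩, ⟨b, H.2.1⟩, ⟨c, H.2.2⟩] xy.2.val)}
    else ∅
  obtain ⟨n, a, b, c, d, hab, hbc, hcd, hdn, e1, e2, e3⟩ := H10.ramsey_four col
  have ha : a < n := by omega
  have hb : b < n := by omega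
  have hc' : c < n := by omega
  let e : Fin 4 → Fin n := ![⟨a, ha⟩, ⟨b, hb⟩, ⟨c, hc'⟩, ⟨d, hdn⟩]
  have he : Function.Injective e := by
    intro i j hij
    fin_cases i <;> fin_cases j <;> simp [e] at hij ⊢ <;> omega
  refine ⟨fun m => h n (P e m), mcoherent_face (hA n) he (hh n), ?_⟩
  have hcol : ∀ p : Fin 4, ∀ x ∈ masks 3, ∀ y ∈ masks 3,
      (MStd (fun m => h n (P e m)) (ins p x) (ins p y) ↔
        ∃ (hx : x < 64) (hy : y < 64), ((⟨x, hx⟩, ⟨y, hy⟩) : Fin 64 × Fin 64) ∈ col n a b c) := by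
    intro p x hx y hy
    rw [mstd_iff (hA n) he (h n) (ins_mem4 x hx p p.2) (ins_mem4 y hy p p.2),
      P_ins he (mask_lt3 hx), P_ins he (mask_lt3 hy)]
    have key : ∀ a' b' c' : ℕ, ∀ (Ha : a' < n) (Hb : b' < n) (Hc : c' < n),
        (Std (A n) (h n) (P ![⟨a', Ha⟩, ⟨b', Hb⟩, ⟨c', Hc⟩] x)
          (P ![⟨a', Ha⟩, ⟨b', Hb⟩, ⟨c', Hc⟩] y) ↔
        ∃ (hx : x < 64) (hy : y < 64),
          ((⟨x, hx⟩, ⟨y, hy⟩) : Fin 64 × Fin 64) ∈ col n a' b' c') := by
      intro a' b' c' Ha Hb Hc
      have : col n a' b' c' = {xy | Std (A n) (h n) (P ![⟨a', Ha⟩, ⟨b', Hb⟩, ⟨c', Hc⟩] xy.1.val)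
          (P ![⟨a', Ha⟩, ⟨b', Hb⟩, ⟨c', Hc⟩] xy.2.val)} := dif_pos ⟨Ha, Hb, Hc⟩
      rw [this]
      simp only [Set.mem_ofPred_eq]
      exact ⟨fun h' => ⟨mask_lt3 hx, mask_lt3 hy, h'⟩, fun ⟨_, _, h'⟩ => h'⟩
    fin_cases p
    · have h0 : e ∘ Fin.succAbove (⟨0, by norm_num⟩ : Fin 4) = ![⟨b, hb⟩, ⟨c, hc'⟩, ⟨d, hdn⟩] := by
        funext i
        fin_cases i <;> rfl
      rw [h0, key b c d hb hc' hdn, e3]
    · have h0 : e ∘ Fin.succAbove (⟨1, by norm_num⟩ : Fin 4) = ![⟨a, ha⟩, ⟨c, hc'⟩, ⟨d, hdn⟩] := by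
        funext i
        fin_cases i <;> rfl
      rw [h0, key a c d ha hc' hdn, e2]
    · have h0 : e ∘ Fin.succAbove (⟨2, by norm_num⟩ : Fin 4) = ![⟨a, ha⟩, ⟨b, hb⟩, ⟨d, hdn⟩] := by
        funext i
        fin_cases i <;> rfl
      rw [h0, key a b d ha hb hdn, e1]
    · have h0 : e ∘ Fin.succAbove (⟨3, by norm_num⟩ : Fin 4) = ![⟨a, ha⟩, ⟨b, hb⟩, ⟨c, hc'⟩] := by
        funext i
        fin_cases i <;> rfl
      rw [h0, key a b c ha hb hc']
  intro x hx y hy p hp q hq
  exact (hcol ⟨p, hp⟩ x hx y hy).trans (hcol ⟨q, hq⟩ x hx y hy).symm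

end Tr

/-- If for every `n` the base polytope of the spike with `n` legs has a quadratic triangulation,
then there are coherent weights on the masks with four legs with the same pattern on the four
faces with three legs. -/
theorem exists_canon (M : ∀ n : ℕ, Matroid (Fin n × Bool))
    (hM : ∀ n, ∀ B : Finset (Fin n × Bool),
      (M n).IsBase (B : Set (Fin n × Bool)) ↔ SpikeBase B)
    (hQ : ∀ n, ∃ T, IsQuadratic (basePoints (M n)) T) :
    ∃ w : ℕ → ℝ, MCoherent w ∧ Canon w := by
  apply Tr.exists_canon_of_coherent (fun n => basePoints (M n))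
    (fun n v => Tr.mem_basePoints_spike (hM n))
  intro n
  obtain ⟨T, hT⟩ := hQ n
  exact exists_coherent hT

end Pool.Agent.Lib.QTri
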